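import Pool.Agent.Lib.MP_ff9d8c_ag.Syz

set_option autoImplicit false

namespace Pool.Agent.Lib.MP_ff9d8c_ag

open Matrix

/-- Bit `u` of `n` in `ZMod 2`. -/
def bt (n u : ℕ) : ZMod 2 := if n.testBit u then 1 else 0

theorem bt_xor (a b u : ℕ) : bt (a ^^^ b) u = bt a u + bt b u := by
  simp only [bt, Nat.testBit_xor]
  cases a.testBit u <;> cases b.testBit u <;> decide

theorem bt_succ (a u : ℕ) : bt a (u + 1) = bt (a / 2) u := by
  simp only [bt, Nat.testBit_succ]

theorem bt_zero (a : ℕ) : bt a 0 = (a : ZMod 2) := by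
  rw [← ZMod.natCast_mod a 2]
  rcases Nat.mod_two_eq_zero_or_one a with h | h <;> simp [bt, Nat.testBit_zero, h]

def xorSel : List ℕ → ℕ → ℕ
  | [], _ => 0
  | r :: rs, c => (if c % 2 = 1 then r else 0) ^^^ xorSel rs (c / 2)

theorem bt_xorSel (rs : List ℕ) (c u : ℕ) :
    bt (xorSel rs c) u = ∑ v ∈ Finset.range rs.length, bt c v * bt (rs.getD v 0) u := by
  induction rs generalizing c with
  | nil => simp [xorSel, bt]
  | cons r rs ih =>
    rw [xorSel, bt_xor, ih, List.length_cons, Finset.sum_range_succ', add_comm]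
    congr 1
    · exact Finset.sum_congr rfl fun v _ => by simp [bt_succ]
    · rcases Nat.mod_two_eq_zero_or_one c with h | h <;> simp [bt, Nat.testBit_zero, h]

def mkMask : List ℕ → ℕ
  | [] => 0
  | a :: l => a % 2 + 2 * mkMask l

theorem bt_mkMask (l : List ℕ) (u : ℕ) : bt (mkMask l) u = ((l.getD u 0 : ℕ) : ZMod 2) := by
  induction l generalizing u with
  | nil => simp [mkMask, bt]
  | cons a l ih =>
    cases u with
    | zero =>
      rw [bt_zero, mkMask]
      push_cast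
      rw [show (2 : ZMod 2) = 0 from rfl]
      simp
    | succ u =>
      rw [bt_succ, mkMask, show (a % 2 + 2 * mkMask l) / 2 = mkMask l by omega, ih]
      simp

theorem det_ne_zero_of_cert {α β : Type} (f : α → β → ℕ) (tg : List α) (cols : List β)
    (hlen : cols.length = tg.length) (comb : ℕ)
    (h : ∀ s < tg.length, xorSel (tg.map fun t => mkMask (cols.map (f t)))
      (comb >>> (s * tg.length)) = 2 ^ s) :
    (Matrix.of fun t u : Fin tg.length => (f tg[t] (cols[(u : ℕ)]'(u.2.trans_eq hlen.symm)) : ℂ)).det ≠ 0 := by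
  let A : Matrix (Fin tg.length) (Fin tg.length) ℤ :=
    Matrix.of fun t u => (f tg[t] (cols[(u : ℕ)]'(u.2.trans_eq hlen.symm)) : ℤ)
  let C : Matrix (Fin tg.length) (Fin tg.length) (ZMod 2) :=
    Matrix.of fun s t => bt (comb >>> (s * tg.length)) t
  have h1 : C * (Int.castRingHom (ZMod 2)).mapMatrix A = 1 := by
    ext s u
    have h2 := congrArg (bt · u) (h s s.2)
    simp only [bt_xorSel, List.length_map] at h2
    rw [Finset.sum_range] at h2
    rw [Matrix.mul_apply, Matrix.one_apply]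
    refine Eq.trans (Finset.sum_congr rfl fun t _ => ?_) (h2.trans ?_)
    · have h3 : (u : ℕ) < cols.length := u.2.trans_eq hlen.symm
      simp [C, A, bt_mkMask, h3]
    · simp [bt, Nat.testBit_two_pow, Fin.ext_iff]
  have h2 : A.det ≠ 0 := by
    intro h0
    have h3 := congrArg Matrix.det h1
    rw [Matrix.det_mul, ← RingHom.map_det, h0] at h3
    simp at h3
  have h3 := RingHom.map_det (Int.castRingHom ℂ) A
  intro h0
  apply h2
  have h4 : (Int.castRingHom ℂ).mapMatrix A =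
      Matrix.of fun t u : Fin tg.length => (f tg[t] (cols[(u : ℕ)]'(u.2.trans_eq hlen.symm)) : ℂ) := by
    ext t u
    simp [A]
  rw [h4, h0] at h3
  simpa using h3

def sumTo : ℕ → (ℕ → ℕ) → ℕ
  | 0, _ => 0
  | n + 1, f => sumTo n f + f n

theorem sumTo_eq (n : ℕ) (f : ℕ → ℕ) : sumTo n f = ∑ i : Fin n, f i := by
  induction n with
  | zero => simp [sumTo]
  | succ n ih => simp [sumTo, ih, Fin.sum_univ_castSucc]

def ind (a : ℕ × ℕ) (i : ℕ) : ℕ := if i = a.1 ∨ i = a.2 then 1 else 0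

def bitT (code q r i j k : ℕ) : ℕ := (code >>> ((i * q + j) * r + k)) % 2

def ent (code p q r : ℕ) (t : (ℕ × ℕ) × (ℕ × ℕ)) (c : ℕ × ℕ × ℕ) : ℕ :=
  if ind t.1 c.1 * ind t.2 c.2.1 = 1 then
    sumTo p fun i => sumTo q fun j => bitT code q r i j c.2.2 * ind t.1 i * ind t.2 j
  else 0

def prs (n : ℕ) : List (ℕ × ℕ) :=
  (List.range n).flatMap fun i' => (List.range (i' + 1)).map fun i => (i, i')

def tgs (p q : ℕ) : List ((ℕ × ℕ) × (ℕ × ℕ)) := (prs p).flatMap fun a => (prs q).map fun b => (a, b)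

def pt (n : ℕ) (a : ℕ × ℕ) : Fin n → ℂ := fun i => (ind a i : ℂ)

def tens (code p q r : ℕ) : Tensor p q r := fun e => (bitT code q r e.1 e.2.1 e.2.2 : ℂ)

theorem quad_pts {n : ℕ} (c : Fin n → Fin n → ℂ) (h : ∀ a ∈ prs n, bil c (pt n a) (pt n a) = 0)
    (x : Fin n → ℂ) : bil c x x = 0 := by
  have h0 : ∀ i i' : Fin n, i ≤ i' → ((i : ℕ), (i' : ℕ)) ∈ prs n := fun i i' hi => by
    simp only [prs, List.mem_flatMap, List.mem_range, List.mem_map]
    exact ⟨i', i'.2, i, Nat.lt_succ_of_le hi, rfl⟩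
  have h1 : ∀ i, c i i = 0 := fun i => by
    have h2 := h _ (h0 i i le_rfl)
    have h3 : pt n (i, i) = Pi.single i 1 := by
      funext l
      simp [pt, ind, Pi.single_apply, Fin.ext_iff]
    simpa [h3, bil_single] using h2
  have h2 : ∀ i i', i < i' → c i i' + c i' i = 0 := fun i i' hi => by
    have h2 := h _ (h0 i i' hi.le)
    have h3 : pt n (i, i') = Pi.single i 1 + Pi.single i' 1 := by
      funext l
      by_cases h4 : l = i
      · simp [pt, ind, h4, hi.ne]
      · have h5 : (l : ℕ) ≠ i := fun h => h4 (Fin.ext h)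
        simp [pt, ind, h4, h5, Pi.single_apply, Fin.ext_iff]
    simpa [h3, bil_add_left, bil_add_right, bil_single, h1, add_comm] using h2
  refine bil_self_eq_zero c (fun i i' => ?_) x
  rcases lt_trichotomy i i' with h3 | rfl | h3
  · exact h2 _ _ h3
  · simp [h1]
  · rw [add_comm]
    exact h2 _ _ h3

variable {p q r : ℕ}

theorem ev4_eq_bil (c : (Fin p × Fin q) × (Fin p × Fin q) → ℂ) (x : Fin p → ℂ) (y : Fin q → ℂ) :
    ev4 x y c = bil (fun i i' => bil (fun j j' => c ((i, j), (i', j'))) y y) x x := by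
  simp only [ev4, LinearMap.coe_mk, AddHom.coe_mk, bil, Fintype.sum_prod_type, Finset.sum_mul]
  refine Finset.sum_congr rfl fun _ _ => ?_
  rw [Finset.sum_comm]
  exact Finset.sum_congr rfl fun _ _ => Finset.sum_congr rfl fun _ _ =>
    Finset.sum_congr rfl fun _ _ => by ring

theorem ev4_eq_bil' (c : (Fin p × Fin q) × (Fin p × Fin q) → ℂ) (x : Fin p → ℂ) (y : Fin q → ℂ) :
    ev4 x y c = bil (fun j j' => bil (fun i i' => c ((i, j), (i', j'))) x x) y y := by
  simp only [ev4, LinearMap.coe_mk, AddHom.coe_mk, bil, Fintype.sum_prod_type, Finset.sum_mul]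
  rw [Finset.sum_comm]
  refine Finset.sum_congr rfl fun _ _ => ?_
  symm
  rw [Finset.sum_comm]
  refine Finset.sum_congr rfl fun _ _ => ?_
  rw [Finset.sum_comm]
  exact Finset.sum_congr rfl fun _ _ => Finset.sum_congr rfl fun _ _ => by ring

/-- The evaluation points. -/
def pts (p q : ℕ) (t : Fin (tgs p q).length) : (Fin p → ℂ) × (Fin q → ℂ) :=
  (pt p (tgs p q)[t].1, pt q (tgs p q)[t].2)

theorem ev4_eq_zero_of_pts (c : (Fin p × Fin q) × (Fin p × Fin q) → ℂ)
    (h : ∀ t, ev4 (pts p q t).1 (pts p q t).2 c = 0) (x : Fin p → ℂ) (y : Fin q → ℂ) :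
    ev4 x y c = 0 := by
  rw [ev4_eq_bil]
  refine quad_pts _ (fun a ha => ?_) x
  rw [← ev4_eq_bil, ev4_eq_bil']
  refine quad_pts _ (fun b hb => ?_) y
  rw [← ev4_eq_bil']
  have h1 : (a, b) ∈ tgs p q := by
    simp only [tgs, List.mem_flatMap, List.mem_map]
    exact ⟨a, ha, b, hb, rfl⟩
  obtain ⟨t, ht, ht'⟩ := List.getElem_of_mem h1
  have := h ⟨t, ht⟩
  simpa [pts, ht'] using this

/-- Arbitrary values at the evaluation points are attained. -/
def SurjAt (T : Tensor p q r) : Prop :=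
  ∀ v : Fin (tgs p q).length → ℂ, ∃ W, ∀ t, phi T W (pts p q t).1 (pts p q t).2 = v t

theorem phi_single (T : Tensor p q r) (e : Fin p × Fin q × Fin r) (x : Fin p → ℂ)
    (y : Fin q → ℂ) : phi T (Pi.single e 1) x y = x e.1 * y e.2.1 * contr3 T x y e.2.2 := by
  obtain ⟨i, j, k⟩ := e
  have : contr3 (Pi.single (i, j, k) 1 : Tensor p q r) x y = Pi.single k (x i * y j) := by
    funext k'
    simp [contr3, Pi.single_apply, ite_and]
  rw [phi, this, single_dotProduct]

theorem surjAt_of_cert (code : ℕ) (cols : List (ℕ × ℕ × ℕ)) (hlen : cols.length = (tgs p q).length)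
    (hc : ∀ c ∈ cols, c.1 < p ∧ c.2.1 < q ∧ c.2.2 < r) (comb : ℕ)
    (h : ∀ s < (tgs p q).length, xorSel ((tgs p q).map fun t => mkMask (cols.map (ent code p q r t)))
      (comb >>> (s * (tgs p q).length)) = 2 ^ s) : SurjAt (tens code p q r) := by
  have h1 := det_ne_zero_of_cert (ent code p q r) (tgs p q) cols hlen comb h
  intro v
  obtain ⟨w, hw⟩ := Matrix.mulVec_surjective_iff_isUnit.2
    ((Matrix.isUnit_iff_isUnit_det _).2 (Ne.isUnit h1)) v
  let g : Fin (tgs p q).length → Fin p × Fin q × Fin r := fun u =>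
    have h2 := hc _ (List.getElem_mem (u.2.trans_eq hlen.symm : (u : ℕ) < cols.length))
    (⟨_, h2.1⟩, ⟨_, h2.2.1⟩, ⟨_, h2.2.2⟩)
  refine ⟨∑ u, w u • Pi.single (g u) 1, fun t => ?_⟩
  rw [← ev4_coef, map_sum, map_sum, ← hw]
  simp only [map_smul, ev4_coef, phi_single, Matrix.mulVec, dotProduct, Matrix.of_apply,
    smul_eq_mul]
  refine Finset.sum_congr rfl fun u _ => ?_
  rw [mul_comm]
  congr 1
  simp only [g, pts, pt, ent, contr3, tens, sumTo_eq]
  split_ifs with h2
  · rw [← Nat.cast_mul, h2]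
    push_cast
    rw [one_mul]
  · have h3 : ind (tgs p q)[t].1 (cols[(u : ℕ)]'(u.2.trans_eq hlen.symm)).1 *
        ind (tgs p q)[t].2 (cols[(u : ℕ)]'(u.2.trans_eq hlen.symm)).2.1 = 0 := by
      revert h2
      simp only [ind]
      split_ifs <;> simp
    rw [← Nat.cast_mul, h3]
    simp

end Pool.Agent.Lib.MP_ff9d8c_ag
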