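import Mathlib

set_option autoImplicit false

namespace Pool.Agent.Lib.MP_ff9d8c_ag

/-- Tensors of format `(p, q, r)` over `ℂ`, in coordinates. -/
abbrev Tensor (p q r : ℕ) : Type := Fin p × Fin q × Fin r → ℂ

variable {p q r : ℕ}

/-- The contraction `T(y ⊗ z)` in the first factor. -/
def contr1 (T : Tensor p q r) (y : Fin q → ℂ) (z : Fin r → ℂ) : Fin p → ℂ :=
  fun i => ∑ j, ∑ k, T (i, j, k) * y j * z k

/-- The contraction `T(x ⊗ z)` in the second factor. -/
def contr2 (T : Tensor p q r) (x : Fin p → ℂ) (z : Fin r → ℂ) : Fin q → ℂ :=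
  fun j => ∑ i, ∑ k, T (i, j, k) * x i * z k

/-- The contraction `T(x ⊗ y)` in the third factor. -/
def contr3 (T : Tensor p q r) (x : Fin p → ℂ) (y : Fin q → ℂ) : Fin r → ℂ :=
  fun k => ∑ i, ∑ j, T (i, j, k) * x i * y j

/-- All `2 × 2` minors of the matrix with rows `u` and `v` vanish. -/
def MinorsVanish {m : ℕ} (u v : Fin m → ℂ) : Prop := ∀ s t, u s * v t - u t * v s = 0

/-- Singular vector triples. -/
def IsSingularTriple (T : Tensor p q r) (x : Fin p → ℂ) (y : Fin q → ℂ) (z : Fin r → ℂ) : Prop :=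
  x ≠ 0 ∧ y ≠ 0 ∧ z ≠ 0 ∧ MinorsVanish (contr1 T y z) x ∧ MinorsVanish (contr2 T x z) y ∧
    MinorsVanish (contr3 T x y) z

/-- The rank one tensor `x ⊗ y ⊗ z`. -/
def rankOne (x : Fin p → ℂ) (y : Fin q → ℂ) (z : Fin r → ℂ) : Tensor p q r :=
  fun e => x e.1 * y e.2.1 * z e.2.2

/-- The linear span of the tensors `x ⊗ y ⊗ z`, `(x, y, z)` a singular vector triple of `T`. -/
def spanZ (T : Tensor p q r) : Submodule ℂ (Tensor p q r) :=
  Submodule.span ℂ {w | ∃ x y z, IsSingularTriple T x y z ∧ w = rankOne x y z}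

/-- The critical space `H_T`. -/
def critSpace (T : Tensor p q r) : Submodule ℂ (Tensor p q r) where
  carrier := {Z |
    (∀ s t, s < t → ∑ j, ∑ k, (T (s, j, k) * Z (t, j, k) - T (t, j, k) * Z (s, j, k)) = 0) ∧
    (∀ s t, s < t → ∑ i, ∑ k, (T (i, s, k) * Z (i, t, k) - T (i, t, k) * Z (i, s, k)) = 0) ∧
    (∀ s t, s < t → ∑ i, ∑ j, (T (i, j, s) * Z (i, j, t) - T (i, j, t) * Z (i, j, s)) = 0)}
  zero_mem' := by simp
  add_mem' := by
    rintro Z Z' ⟨h1, h2, h3⟩ ⟨h1', h2', h3'⟩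
    refine ⟨fun s t h => ?_, fun s t h => ?_, fun s t h => ?_⟩
    · rw [← add_zero (0 : ℂ)]
      nth_rewrite 1 [← h1 s t h]
      rw [← h1' s t h]
      simp only [← Finset.sum_add_distrib, Pi.add_apply]
      exact Finset.sum_congr rfl fun _ _ => Finset.sum_congr rfl fun _ _ => by ring
    · rw [← add_zero (0 : ℂ)]
      nth_rewrite 1 [← h2 s t h]
      rw [← h2' s t h]
      simp only [← Finset.sum_add_distrib, Pi.add_apply]
      exact Finset.sum_congr rfl fun _ _ => Finset.sum_congr rfl fun _ _ => by ring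
    · rw [← add_zero (0 : ℂ)]
      nth_rewrite 1 [← h3 s t h]
      rw [← h3' s t h]
      simp only [← Finset.sum_add_distrib, Pi.add_apply]
      exact Finset.sum_congr rfl fun _ _ => Finset.sum_congr rfl fun _ _ => by ring
  smul_mem' := by
    rintro c Z ⟨h1, h2, h3⟩
    refine ⟨fun s t h => ?_, fun s t h => ?_, fun s t h => ?_⟩
    · rw [← mul_zero c, ← h1 s t h]
      simp only [Finset.mul_sum, Pi.smul_apply, smul_eq_mul]
      exact Finset.sum_congr rfl fun _ _ => Finset.sum_congr rfl fun _ _ => by ring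
    · rw [← mul_zero c, ← h2 s t h]
      simp only [Finset.mul_sum, Pi.smul_apply, smul_eq_mul]
      exact Finset.sum_congr rfl fun _ _ => Finset.sum_congr rfl fun _ _ => by ring
    · rw [← mul_zero c, ← h3 s t h]
      simp only [Finset.mul_sum, Pi.smul_apply, smul_eq_mul]
      exact Finset.sum_congr rfl fun _ _ => Finset.sum_congr rfl fun _ _ => by ring

end Pool.Agent.Lib.MP_ff9d8c_ag
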