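import Pool.Agent.Lib.MP_ff9d8c_ag.Rank
import Pool.Agent.Lib.MP_ff9d8c_ag.Data

set_option autoImplicit false

namespace Pool.Agent.Lib.MP_ff9d8c_ag

open Matrix Module

variable {p q r : ℕ}

/-- The coordinate pairing. -/
def pair (p q r : ℕ) : LinearMap.BilinForm ℂ (Tensor p q r) := dotProductBilin ℂ ℂ

theorem pair_apply (W Z : Tensor p q r) : pair p q r W Z = W ⬝ᵥ Z := rfl

theorem pair_refl : (pair p q r).IsRefl := fun W Z h => by
  rw [pair_apply, dotProduct_comm]
  exact h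

theorem pair_nondeg : (pair p q r).Nondegenerate := by
  refine ⟨fun W h => funext fun e => ?_, fun W h => funext fun e => ?_⟩
  · simpa [pair_apply] using h (Pi.single e 1)
  · simpa [pair_apply] using h (Pi.single e 1)

theorem dot_rankOne (W : Tensor p q r) (x : Fin p → ℂ) (y : Fin q → ℂ) (z : Fin r → ℂ) :
    W ⬝ᵥ rankOne x y z = contr3 W x y ⬝ᵥ z := by
  rw [dot_contr3_eq_contr1]
  simp only [dotProduct, rankOne, contr1, Fintype.sum_prod_type, Finset.mul_sum]
  exact Finset.sum_congr rfl fun _ _ => Finset.sum_congr rfl fun _ _ =>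
    Finset.sum_congr rfl fun _ _ => by ring

theorem skew_iff {m : ℕ} (F : Fin m → Fin m → ℂ) : (∀ s t, s < t → F s t - F t s = 0) ↔
    ∀ ω : Fin m × Fin m → ℂ, ∑ s, ∑ t, (ω (s, t) - ω (t, s)) * F t s = 0 := by
  constructor
  · intro h ω
    have h1 : ∀ s t, F s t = F t s := fun s t => by
      rcases lt_trichotomy s t with h2 | h2 | h2
      · exact sub_eq_zero.1 (h s t h2)
      · rw [h2]
      · exact (sub_eq_zero.1 (h t s h2)).symm
    simp only [sub_mul, Finset.sum_sub_distrib]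
    rw [Finset.sum_comm, sub_eq_zero]
    exact Finset.sum_congr rfl fun _ _ => Finset.sum_congr rfl fun _ _ => by rw [h1]
  · intro h s t _
    have := h (Pi.single (t, s) 1)
    simpa [Pi.single_apply, sub_mul, Finset.sum_sub_distrib, ite_and] using this

theorem dot_gam1' (T Z : Tensor p q r) (ω : Fin p × Fin p → ℂ) : gam1 T ω ⬝ᵥ Z =
    ∑ s, ∑ t, (ω (s, t) - ω (t, s)) * ∑ j, ∑ k, T (t, j, k) * Z (s, j, k) := by
  simp only [dotProduct, gam1, LinearMap.coe_mk, AddHom.coe_mk, Fintype.sum_prod_type,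
    Finset.mul_sum, Finset.sum_mul]
  refine Finset.sum_congr rfl fun _ _ => ?_
  symm
  rw [Finset.sum_comm]
  refine Finset.sum_congr rfl fun _ _ => ?_
  rw [Finset.sum_comm]
  exact Finset.sum_congr rfl fun _ _ => Finset.sum_congr rfl fun _ _ => by ring

theorem dot_gam2' (T Z : Tensor p q r) (ω : Fin q × Fin q → ℂ) : gam2 T ω ⬝ᵥ Z =
    ∑ s, ∑ t, (ω (s, t) - ω (t, s)) * ∑ i, ∑ k, T (i, t, k) * Z (i, s, k) := by
  simp only [dotProduct, gam2, LinearMap.coe_mk, AddHom.coe_mk, Fintype.sum_prod_type,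
    Finset.mul_sum, Finset.sum_mul]
  rw [Finset.sum_comm]
  refine Finset.sum_congr rfl fun _ _ => ?_
  symm
  rw [Finset.sum_comm]
  refine Finset.sum_congr rfl fun _ _ => ?_
  rw [Finset.sum_comm]
  exact Finset.sum_congr rfl fun _ _ => Finset.sum_congr rfl fun _ _ => by ring

theorem dot_gam3' (T Z : Tensor p q r) (ω : Fin r × Fin r → ℂ) : gam3 T ω ⬝ᵥ Z =
    ∑ s, ∑ t, (ω (s, t) - ω (t, s)) * ∑ i, ∑ j, T (i, j, t) * Z (i, j, s) := by
  simp only [dotProduct, gam3, LinearMap.coe_mk, AddHom.coe_mk, Fintype.sum_prod_type,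
    Finset.mul_sum, Finset.sum_mul]
  simp only [← Fintype.sum_prod_type']
  exact Fintype.sum_equiv
    { toFun := fun a => (a.2.2.1, a.2.2.2, a.1, a.2.1)
      invFun := fun a => (a.2.2.1, a.2.2.2, a.1, a.2.1)
      left_inv := fun _ => rfl
      right_inv := fun _ => rfl } _ _ fun _ => by
    simp only [Equiv.coe_fn_mk]
    ring

/-- The span of the first two families of equations. -/
def gam12 (T : Tensor p q r) : Submodule ℂ (Tensor p q r) :=
  LinearMap.range (gam1 T) ⊔ LinearMap.range (gam2 T)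

theorem mem_critSpace (T Z : Tensor p q r) : Z ∈ critSpace T ↔
    (∀ ω, gam1 T ω ⬝ᵥ Z = 0) ∧ (∀ ω, gam2 T ω ⬝ᵥ Z = 0) ∧ ∀ ω, gam3 T ω ⬝ᵥ Z = 0 := by
  simp only [dot_gam1', dot_gam2', dot_gam3']
  rw [← skew_iff (fun t s => ∑ j, ∑ k, T (t, j, k) * Z (s, j, k)),
    ← skew_iff (fun t s => ∑ i, ∑ k, T (i, t, k) * Z (i, s, k)),
    ← skew_iff (fun t s => ∑ i, ∑ j, T (i, j, t) * Z (i, j, s))]
  simp only [← Finset.sum_sub_distrib]
  rfl

theorem critSpace_eq (T : Tensor p q r) :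
    critSpace T = (pair p q r).orthogonal (gam12 T ⊔ LinearMap.range (gam3 T)) := by
  ext Z
  rw [mem_critSpace, LinearMap.BilinForm.mem_orthogonal_iff]
  constructor
  · rintro ⟨h1, h2, h3⟩ W hW
    obtain ⟨a, ha, _, ⟨ω₃, rfl⟩, rfl⟩ := Submodule.mem_sup.1 hW
    obtain ⟨_, ⟨ω₁, rfl⟩, _, ⟨ω₂, rfl⟩, rfl⟩ := Submodule.mem_sup.1 ha
    simp only [pair_apply, add_dotProduct, h1, h2, h3, add_zero]
  · intro h
    exact ⟨fun ω => h _ (Submodule.mem_sup_left (Submodule.mem_sup_left ⟨ω, rfl⟩)),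
      fun ω => h _ (Submodule.mem_sup_left (Submodule.mem_sup_right ⟨ω, rfl⟩)),
      fun ω => h _ (Submodule.mem_sup_right ⟨ω, rfl⟩)⟩

theorem orth_critSpace (T : Tensor p q r) :
    (pair p q r).orthogonal (critSpace T) = gam12 T ⊔ LinearMap.range (gam3 T) := by
  rw [critSpace_eq, LinearMap.BilinForm.orthogonal_orthogonal pair_nondeg pair_refl]

theorem skew_eq_zero {m : ℕ} (ω : Fin m × Fin m → ℂ) {u v : Fin m → ℂ} (h : MinorsVanish v u) :
    skew ω u v = 0 := by
  refine Eq.trans ?_ ((skew_iff (fun s t => v s * u t)).1 (fun s t _ => h s t) ω)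
  exact Finset.sum_congr rfl fun _ _ => Finset.sum_congr rfl fun _ _ => by ring

theorem spanZ_le (T : Tensor p q r) : spanZ T ≤ critSpace T := by
  refine Submodule.span_le.2 ?_
  rintro _ ⟨x, y, z, ⟨-, -, -, h1, h2, h3⟩, rfl⟩
  refine (mem_critSpace _ _).2 ⟨fun ω => ?_, fun ω => ?_, fun ω => ?_⟩
  · rw [dot_rankOne, dot_gam1, skew_eq_zero ω h1]
  · rw [dot_rankOne, dot_gam2, skew_eq_zero ω h2]
  · rw [dot_rankOne, dot_gam3, skew_eq_zero ω h3]

theorem Good.orth_le {T : Tensor p q r} (h : Good T) :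
    (pair p q r).orthogonal (spanZ T) ≤ gam12 T ⊔ kerPhi T := by
  intro W hW
  obtain ⟨ω₁, ω₂, hω⟩ := h (coef T W) fun x y z ⟨h1, h2, h3⟩ _ => by
    rw [ev4_coef, phi, h3]
    by_cases hx : x = 0
    · simp [hx, dotProduct, contr3]
    · have hy : y ≠ 0 := fun h0 => hx (by rw [← h1, h0]; funext i; simp [contr1])
      have hz : z ≠ 0 := fun h0 => hx (by rw [← h1, h0]; funext i; simp [contr1])
      rw [← dot_rankOne, dotProduct_comm]
      refine hW _ (Submodule.subset_span ⟨x, y, z, ⟨hx, hy, hz, ?_, ?_, ?_⟩, rfl⟩)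
      · rw [h1]
        exact fun s t => by ring
      · rw [h2]
        exact fun s t => by ring
      · rw [h3]
        exact fun s t => by ring
  refine Submodule.mem_sup.2 ⟨gam1 T ω₁ + gam2 T ω₂, Submodule.add_mem_sup ⟨_, rfl⟩ ⟨_, rfl⟩,
    W - (gam1 T ω₁ + gam2 T ω₂), (mem_kerPhi _ _).2 fun x y => ?_, by abel⟩
  rw [← ev4_coef, map_sub, map_sub, hω, ev4_coef, phi_gam12, sub_self]

theorem eq_of_good_kos {T : Tensor p q r} (h : Good T) (h' : Kos T) : spanZ T = critSpace T := by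
  refine le_antisymm (spanZ_le T) ?_
  rw [← LinearMap.BilinForm.orthogonal_orthogonal pair_nondeg pair_refl (spanZ T), critSpace_eq]
  refine LinearMap.BilinForm.orthogonal_le (h.orth_le.trans (sup_le_sup_left ?_ _))
  exact fun W hW => h' W ((mem_kerPhi _ _).1 hW)

theorem orth_spanZ {T : Tensor p q r} (h : Good T) (h' : SurjAt T) :
    (pair p q r).orthogonal (spanZ T) = gam12 T ⊔ kerPhi T := by
  refine le_antisymm h.orth_le (sup_le ?_ fun W hW => ?_)
  · refine le_trans ?_ (LinearMap.BilinForm.orthogonal_le (spanZ_le T))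
    rw [orth_critSpace]
    exact le_sup_left
  · intro Z hZ
    rw [pair_apply, dotProduct_comm]
    induction hZ using Submodule.span_induction with
    | mem _ h1 =>
      obtain ⟨x, y, z, ⟨hx, hy, -, -, -, h3⟩, rfl⟩ := h1
      obtain ⟨s, hs⟩ := Function.ne_iff.1 (h'.contr3_ne_zero hx hy)
      have hs' : contr3 T x y s ≠ 0 := hs
      have h4 : z = (z s / contr3 T x y s) • contr3 T x y := by
        funext t
        simp only [Pi.smul_apply, smul_eq_mul]
        field_simp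
        linear_combination h3 s t
      have h5 := (mem_kerPhi _ _).1 hW x y
      rw [dot_rankOne, h4, dotProduct_smul, ← phi, h5, smul_zero]
    | zero => simp
    | add _ _ _ _ h1 h2 => rw [dotProduct_add, h1, h2, add_zero]
    | smul _ _ _ h1 => rw [dotProduct_smul, h1, smul_zero]

theorem codim_eq {T : Tensor p q r} (h1 : Good T) (h2 : SurjAt T) (h3 : Ind T) (h4 : Dis T) :
    finrank ℂ (critSpace T) + (tgs p q).length + Fintype.card {e : Fin r × Fin r // e.1 < e.2} =
      finrank ℂ (spanZ T) + p * (q * r) := by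
  have e1 := LinearMap.BilinForm.finrank_orthogonal pair_nondeg (spanZ T)
  have e2 := LinearMap.BilinForm.finrank_orthogonal pair_nondeg (critSpace T)
  have e3 := Submodule.finrank_le (spanZ T)
  have e4 := Submodule.finrank_le (critSpace T)
  have d1 : gam12 T ⊓ kerPhi T = ⊥ := by
    rw [eq_bot_iff]
    rintro W ⟨hW, hW'⟩
    obtain ⟨_, ⟨ω₁, rfl⟩, _, ⟨ω₂, rfl⟩, rfl⟩ := Submodule.mem_sup.1 hW
    exact h4 _ _ ((mem_kerPhi _ _).1 hW')
  have d2 : gam12 T ⊓ LinearMap.range (gam3 T) = ⊥ :=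
    eq_bot_iff.2 (d1 ▸ inf_le_inf_left _ (range_gam3_le T))
  have e5 := Submodule.finrank_sup_add_finrank_inf_eq (gam12 T) (kerPhi T)
  have e6 := Submodule.finrank_sup_add_finrank_inf_eq (gam12 T) (LinearMap.range (gam3 T))
  rw [d1, ← orth_spanZ h1 h2, finrank_bot] at e5
  rw [d2, ← orth_critSpace, finrank_bot, h3.finrank_gam3] at e6
  have e7 := h2.finrank_kerPhi
  omega

theorem kos_3_6 : ∃ T : Tensor 3 6 9, Kos T := by
  obtain ⟨T, h1, h2⟩ := ((generic_surjAt ⟨_, surj_3_6⟩).and (generic_ind (by norm_num))).ex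
  exact ⟨T, kos_of_surj h1 h2 (by decide +kernel)⟩

theorem kos_4_4 : ∃ T : Tensor 4 4 8, Kos T := by
  obtain ⟨T, h1, h2⟩ := ((generic_surjAt ⟨_, surj_4_4⟩).and (generic_ind (by norm_num))).ex
  exact ⟨T, kos_of_surj h1 h2 (by decide +kernel)⟩

theorem generic_eq (h : (p = 3 ∧ 6 ≤ q) ∨ (4 ≤ p ∧ 4 ≤ q)) (hpq : p ≤ q) (hr : r = p + q) :
    Generic (fun T : Tensor p q r => spanZ T = critSpace T) := by
  subst hr
  exact ((generic_good (exists_good (by omega) q _ (by omega) rfl)).and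
    (generic_kos (exists_kos kos_3_6 kos_4_4 h))).mono fun T h => eq_of_good_kos h.1 h.2

theorem generic_codim (h : ∃ T : Tensor p q r, SurjAt T) (hp : 2 ≤ p) (hpq : p ≤ q)
    (hr : r = p + q) (c : ℕ)
    (hc : (tgs p q).length + Fintype.card {e : Fin r × Fin r // e.1 < e.2} + c = p * (q * r)) :
    Generic (fun T : Tensor p q r => finrank ℂ (critSpace T) = finrank ℂ (spanZ T) + c) := by
  refine (((generic_good (exists_good (by omega) q _ (by omega) hr)).and (generic_surjAt h)).and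
    ((generic_ind (by nlinarith)).and (generic_dis (by omega) hpq (by omega)))).mono fun T h => ?_
  have := codim_eq h.1.1 h.1.2 h.2.1 h.2.2
  omega

/-- Exchange of the first two factors as a linear equivalence. -/
def swapE (p q r : ℕ) : Tensor p q r ≃ₗ[ℂ] Tensor q p r where
  toFun := swap
  invFun := swap
  map_add' _ _ := rfl
  map_smul' _ _ := rfl
  left_inv _ := rfl
  right_inv _ := rfl

theorem spanZ_swap (T : Tensor p q r) :
    spanZ (swap T) = (spanZ T).map (swapE p q r : Tensor p q r →ₗ[ℂ] Tensor q p r) := by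
  have h : ∀ (x : Fin p → ℂ) (y : Fin q → ℂ) (z : Fin r → ℂ),
      swap (rankOne x y z) = rankOne y x z := fun x y z => by
    funext e
    simp only [swap, rankOne]
    ring
  rw [spanZ, spanZ, Submodule.map_span]
  congr 1
  ext w
  constructor
  · rintro ⟨y, x, z, ⟨h1, h2, h3, h4, h5, h6⟩, rfl⟩
    rw [contr3_swap] at h6
    exact ⟨_, ⟨x, y, z, ⟨h2, h1, h3, h5, h4, h6⟩, rfl⟩, h x y z⟩
  · rintro ⟨_, ⟨x, y, z, ⟨h1, h2, h3, h4, h5, h6⟩, rfl⟩, rfl⟩
    rw [← contr3_swap] at h6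
    exact ⟨y, x, z, ⟨h2, h1, h3, h5, h4, h6⟩, h x y z⟩

theorem swap_mem_critSpace {T Z : Tensor p q r} (h : Z ∈ critSpace T) :
    swap Z ∈ critSpace (swap T) := by
  obtain ⟨h1, h2, h3⟩ := h
  refine ⟨h2, h1, fun s t hst => ?_⟩
  rw [Finset.sum_comm]
  exact h3 s t hst

theorem critSpace_swap (T : Tensor p q r) :
    critSpace (swap T) = (critSpace T).map (swapE p q r : Tensor p q r →ₗ[ℂ] Tensor q p r) := by
  ext Z
  constructor
  · intro h
    exact ⟨swap Z, swap_mem_critSpace (T := swap T) (Z := Z) h, rfl⟩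
  · rintro ⟨Z, h, rfl⟩
    exact swap_mem_critSpace h

theorem Generic.swap {P : Tensor p q r → Prop} (h : Generic P) :
    Generic (fun T : Tensor q p r => P (swap T)) :=
  h.comp_inj (f := fun e : Fin p × Fin q × Fin r => ((e.2.1, e.1, e.2.2) : Fin q × Fin p × Fin r))
    fun e e' he => by
      simp only [Prod.mk.injEq] at he
      exact Prod.ext he.2.1 (Prod.ext he.1 he.2.2)

theorem generic_dim_swap {c : ℕ}
    (h : Generic (fun T : Tensor p q r => finrank ℂ (critSpace T) = finrank ℂ (spanZ T) + c)) :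
    Generic (fun T : Tensor q p r => finrank ℂ (critSpace T) = finrank ℂ (spanZ T) + c) :=
  h.swap.mono fun T hT => by
    rwa [spanZ_swap, critSpace_swap, LinearEquiv.finrank_map_eq, LinearEquiv.finrank_map_eq] at hT

theorem generic_eq_swap (h : Generic (fun T : Tensor p q r => spanZ T = critSpace T)) :
    Generic (fun T : Tensor q p r => spanZ T = critSpace T) :=
  h.swap.mono fun T hT => by
    rw [spanZ_swap, critSpace_swap] at hT
    exact Submodule.map_injective_of_injective (swapE q p r).injective hT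

theorem codim_3_3 :
    Generic (fun T : Tensor 3 3 6 => finrank ℂ (critSpace T) = finrank ℂ (spanZ T) + 3) :=
  generic_codim ⟨_, surj_3_3⟩ (by norm_num) (by norm_num) rfl 3 (by decide +kernel)

theorem codim_3_4 :
    Generic (fun T : Tensor 3 4 7 => finrank ℂ (critSpace T) = finrank ℂ (spanZ T) + 3) :=
  generic_codim ⟨_, surj_3_4⟩ (by norm_num) (by norm_num) rfl 3 (by decide +kernel)

theorem codim_3_5 :
    Generic (fun T : Tensor 3 5 8 => finrank ℂ (critSpace T) = finrank ℂ (spanZ T) + 2) :=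
  generic_codim ⟨_, surj_3_5⟩ (by norm_num) (by norm_num) rfl 2 (by decide +kernel)

end Pool.Agent.Lib.MP_ff9d8c_ag
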