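import Mathlib

set_option autoImplicit false

namespace Pool.Agent.Lib.MP_ff9d8c_ag

open MvPolynomial

/-- Polynomial functions on `σ → ℂ`. -/
def IsPoly {σ : Type} (f : (σ → ℂ) → ℂ) : Prop :=
  ∃ p : MvPolynomial σ ℂ, ∀ t, f t = eval t p

/-- A property holds on a nonempty basic Zariski-open set. -/
def Generic {σ : Type} (P : (σ → ℂ) → Prop) : Prop :=
  ∃ p : MvPolynomial σ ℂ, p ≠ 0 ∧ ∀ t, eval t p ≠ 0 → P t

namespace IsPoly

variable {σ : Type}

theorem const (c : ℂ) : IsPoly (fun _ : σ → ℂ => c) := ⟨C c, fun _ => by simp⟩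

theorem coord (s : σ) : IsPoly (fun t : σ → ℂ => t s) := ⟨X s, fun _ => by simp⟩

theorem add {f g : (σ → ℂ) → ℂ} (hf : IsPoly f) (hg : IsPoly g) :
    IsPoly (fun t => f t + g t) := by
  obtain ⟨p, hp⟩ := hf
  obtain ⟨q, hq⟩ := hg
  exact ⟨p + q, fun t => by simp [hp, hq]⟩

theorem sub {f g : (σ → ℂ) → ℂ} (hf : IsPoly f) (hg : IsPoly g) :
    IsPoly (fun t => f t - g t) := by
  obtain ⟨p, hp⟩ := hf
  obtain ⟨q, hq⟩ := hg
  exact ⟨p - q, fun t => by simp [hp, hq]⟩

theorem mul {f g : (σ → ℂ) → ℂ} (hf : IsPoly f) (hg : IsPoly g) :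
    IsPoly (fun t => f t * g t) := by
  obtain ⟨p, hp⟩ := hf
  obtain ⟨q, hq⟩ := hg
  exact ⟨p * q, fun t => by simp [hp, hq]⟩

theorem sum {ι : Type} (s : Finset ι) {f : ι → (σ → ℂ) → ℂ} (hf : ∀ i, IsPoly (f i)) :
    IsPoly (fun t => ∑ i ∈ s, f i t) := by
  choose p hp using hf
  exact ⟨∑ i ∈ s, p i, fun t => by simp [hp]⟩

theorem prod {ι : Type} (s : Finset ι) {f : ι → (σ → ℂ) → ℂ} (hf : ∀ i, IsPoly (f i)) :
    IsPoly (fun t => ∏ i ∈ s, f i t) := by
  choose p hp using hf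
  exact ⟨∏ i ∈ s, p i, fun t => by simp [hp]⟩

theorem det {ι : Type} [Fintype ι] [DecidableEq ι] {M : (σ → ℂ) → Matrix ι ι ℂ}
    (hM : ∀ i j, IsPoly (fun t => M t i j)) : IsPoly (fun t => (M t).det) := by
  simp only [Matrix.det_apply']
  exact sum _ fun s => mul (const _) (prod _ fun i => hM _ _)

theorem comp {τ : Type} {f : (τ → ℂ) → ℂ} (hf : IsPoly f) {φ : (σ → ℂ) → τ → ℂ}
    (hφ : ∀ s, IsPoly (fun t => φ t s)) : IsPoly (fun t => f (φ t)) := by
  obtain ⟨p, hp⟩ := hf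
  choose q hq using hφ
  refine ⟨bind₁ q p, fun t => ?_⟩
  change f (φ t) = _
  rw [hp]
  have : φ t = fun s => eval t (q s) := funext fun s => hq s t
  rw [this]
  exact (eval₂Hom_bind₁ (RingHom.id ℂ) t q p).symm

theorem ite {c : Prop} [Decidable c] {f g : (σ → ℂ) → ℂ} (hf : IsPoly f) (hg : IsPoly g) :
    IsPoly (fun t => if c then f t else g t) := by
  by_cases h : c
  · simpa [h] using hf
  · simpa [h] using hg

theorem analyticAt [Fintype σ] {f : (σ → ℂ) → ℂ} (hf : IsPoly f) (t : σ → ℂ) :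
    AnalyticAt ℂ f t := by
  obtain ⟨p, hp⟩ := hf
  have : f = fun t => eval t p := funext hp
  rw [this]
  exact AnalyticOnNhd.eval_mvPolynomial p t (Set.mem_univ _)

end IsPoly

namespace Generic

variable {σ : Type} {P Q : (σ → ℂ) → Prop}

theorem mono (h : Generic P) (hPQ : ∀ t, P t → Q t) : Generic Q := by
  obtain ⟨p, hp, h⟩ := h
  exact ⟨p, hp, fun t ht => hPQ t (h t ht)⟩

theorem and (hP : Generic P) (hQ : Generic Q) : Generic (fun t => P t ∧ Q t) := by
  obtain ⟨p, hp, hP⟩ := hP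
  obtain ⟨q, hq, hQ⟩ := hQ
  refine ⟨p * q, mul_ne_zero hp hq, fun t ht => ?_⟩
  rw [map_mul] at ht
  exact ⟨hP t (left_ne_zero_of_mul ht), hQ t (right_ne_zero_of_mul ht)⟩

theorem ex (h : Generic P) : ∃ t, P t := by
  obtain ⟨p, hp, h⟩ := h
  by_contra hn
  apply hp
  apply MvPolynomial.funext
  intro t
  by_contra ht
  exact hn ⟨t, h t (by simpa using ht)⟩

theorem of_poly {f : (σ → ℂ) → ℂ} (hf : IsPoly f) {t₀ : σ → ℂ} (h₀ : f t₀ ≠ 0)
    (h : ∀ t, f t ≠ 0 → P t) : Generic P := by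
  obtain ⟨p, hp⟩ := hf
  refine ⟨p, ?_, fun t ht => h t (by rwa [hp])⟩
  rintro rfl
  exact h₀ (by simp [hp])

theorem forall_finite {ι : Type} [Finite ι] {P : ι → (σ → ℂ) → Prop} (h : ∀ i, Generic (P i)) :
    Generic (fun t => ∀ i, P i t) := by
  classical
  have := Fintype.ofFinite ι
  choose p hp h using h
  refine ⟨∏ i, p i, Finset.prod_ne_zero_iff.2 fun i _ => hp i, fun t ht i => h i t ?_⟩
  rw [map_prod] at ht
  exact Finset.prod_ne_zero_iff.1 ht i (Finset.mem_univ _)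

/-- A generic property in two blocks of variables and a generic property of the first block:
there is a good value of the first block over which the property is generic in the second. -/
theorem fibre {τ : Type} {P : (σ ⊕ τ → ℂ) → Prop} (hP : Generic P) (hQ : Generic Q) :
    ∃ t, Q t ∧ Generic (fun u : τ → ℂ => P (Sum.elim t u)) := by
  obtain ⟨p, hp, hP⟩ := hP
  obtain ⟨q, hq, hQ⟩ := hQ
  have h1 : rename (Sum.inl : σ → σ ⊕ τ) q ≠ 0 := fun h =>
    hq (rename_injective _ Sum.inl_injective (by simpa using h))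
  have h2 : Generic (fun z : σ ⊕ τ → ℂ => eval z (p * rename Sum.inl q) ≠ 0) :=
    ⟨_, mul_ne_zero hp h1, fun _ h => h⟩
  obtain ⟨z, hz⟩ := h2.ex
  rw [map_mul, eval_rename] at hz
  refine ⟨z ∘ Sum.inl, hQ _ (right_ne_zero_of_mul hz), ?_⟩
  have h3 : IsPoly (fun u : τ → ℂ => eval (Sum.elim (z ∘ Sum.inl) u) p) := by
    refine IsPoly.comp (f := fun z => eval z p) ⟨p, fun _ => rfl⟩ ?_
    rintro (s | s)
    · exact IsPoly.const _
    · exact IsPoly.coord _
  refine of_poly h3 (t₀ := z ∘ Sum.inr) ?_ fun u hu => hP _ hu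
  rw [Sum.elim_comp_inl_inr]
  exact left_ne_zero_of_mul hz

end Generic

/-- Chevalley: if the projection of an affine variety is Zariski dense then it contains a nonempty
basic open set. -/
theorem generic_of_dense {σ τ ι : Type} [Finite σ] [Finite τ]
    (E : ι → (σ ⊕ τ → ℂ) → ℂ) (hE : ∀ i, IsPoly (E i))
    (hd : ∀ p : MvPolynomial σ ℂ,
      (∀ t z, (∀ i, E i (Sum.elim t z) = 0) → eval t p = 0) → p = 0) :
    Generic (fun t : σ → ℂ => ∃ z : τ → ℂ, ∀ i, E i (Sum.elim t z) = 0) := by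
  classical
  choose e he using hE
  let I : Ideal (MvPolynomial (σ ⊕ τ) ℂ) := Ideal.span (Set.range e)
  let g : MvPolynomial σ ℂ →ₐ[ℂ] MvPolynomial (σ ⊕ τ) ℂ ⧸ I :=
    (Ideal.Quotient.mkₐ ℂ I).comp (rename Sum.inl)
  let f : MvPolynomial σ ℂ →+* MvPolynomial (σ ⊕ τ) ℂ ⧸ I := g.toRingHom
  have hf : ∀ p, f p = Ideal.Quotient.mk I (rename Sum.inl p) := fun p => rfl
  have hinj : Function.Injective f := by
    rw [injective_iff_map_eq_zero]
    intro p hp
    rw [hf, Ideal.Quotient.eq_zero_iff_mem] at hp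
    apply hd
    intro t z hz
    have h1 : I ≤ RingHom.ker (eval (Sum.elim t z)) := by
      rw [Ideal.span_le]
      rintro _ ⟨i, rfl⟩
      simpa [← he] using hz i
    have h2 := h1 hp
    rw [RingHom.mem_ker, eval_rename] at h2
    simpa using h2
  have hft : f.FiniteType := by
    apply RingHom.FiniteType.of_comp_finiteType (f := algebraMap ℂ (MvPolynomial σ ℂ))
    have : f.comp (algebraMap ℂ (MvPolynomial σ ℂ)) =
        algebraMap ℂ (MvPolynomial (σ ⊕ τ) ℂ ⧸ I) := g.comp_algebraMap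
    rw [this, RingHom.finiteType_algebraMap]
    infer_instance
  have hfp : f.FinitePresentation := RingHom.FinitePresentation.of_finiteType.1 hft
  obtain ⟨S, hS⟩ := PrimeSpectrum.exists_constructibleSetData_iff.2
    (PrimeSpectrum.isConstructible_range_comap hfp)
  have hbot : (⊥ : PrimeSpectrum (MvPolynomial σ ℂ)) ∈ S.toSet := by
    rw [hS]
    obtain ⟨q, hq, hq'⟩ := Ideal.exists_comap_eq_of_mem_minimalPrimes_of_injective hinj ⊥
      (by rw [IsDomain.minimalPrimes_eq_singleton_bot]; rfl)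
    exact ⟨⟨q, hq⟩, PrimeSpectrum.ext hq'⟩
  simp only [PrimeSpectrum.ConstructibleSetData.toSet, Set.mem_iUnion] at hbot
  obtain ⟨C, hC, hC1, hC2⟩ := hbot
  have hg : ∀ i, C.g i = 0 := fun i => by
    have := hC1 (Set.mem_range_self i)
    simpa using this
  have hf0 : C.f ≠ 0 := by
    intro h
    apply hC2
    simp [h]
  refine ⟨C.f, hf0, fun t ht => ?_⟩
  let m : PrimeSpectrum (MvPolynomial σ ℂ) := ⟨RingHom.ker (eval t), RingHom.ker_isPrime _⟩
  have hm : m ∈ S.toSet := by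
    simp only [PrimeSpectrum.ConstructibleSetData.toSet, Set.mem_iUnion]
    refine ⟨C, hC, ?_, ?_⟩
    · rintro _ ⟨i, rfl⟩
      simp [hg]
    · intro h
      apply ht
      have := h (Set.mem_singleton _)
      simpa [m] using this
  rw [hS] at hm
  obtain ⟨q, hq⟩ := hm
  obtain ⟨n, hn, hqn⟩ := Ideal.exists_le_maximal q.asIdeal q.isPrime.ne_top
  have hn' : (n.comap (Ideal.Quotient.mk I)).IsMaximal :=
    Ideal.comap_isMaximal_of_surjective _ Ideal.Quotient.mk_surjective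
  obtain ⟨pt, hpt⟩ := MvPolynomial.isMaximal_iff_eq_vanishingIdeal_singleton.1 hn'
  have key : ∀ r, Ideal.Quotient.mk I r ∈ n → eval pt r = 0 := by
    intro r hr
    have : r ∈ n.comap (Ideal.Quotient.mk I) := hr
    rw [hpt, mem_vanishingIdeal_singleton_iff] at this
    simpa using this
  have ht' : Sum.elim t (pt ∘ Sum.inr) = pt := by
    funext s
    rcases s with s | s
    · have h1 : (X s - MvPolynomial.C (t s) : MvPolynomial σ ℂ) ∈ m.asIdeal := by simp [m]
      rw [← hq] at h1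
      have h2 := key _ (hqn (show f _ ∈ q.asIdeal from h1))
      simp only [map_sub] at h2
      simpa using (sub_eq_zero.1 h2).symm
    · rfl
  refine ⟨pt ∘ Sum.inr, fun i => ?_⟩
  rw [ht', he]
  apply key
  rw [Ideal.Quotient.eq_zero_iff_mem.2 (Ideal.subset_span (Set.mem_range_self i))]
  exact n.zero_mem

end Pool.Agent.Lib.MP_ff9d8c_ag
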