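import Pool.Agent.Lib.MP_ff9d8c_ag.Sol

set_option autoImplicit false

namespace Pool.Agent.Lib.MP_ff9d8c_ag

open Matrix

variable {p q r : ℕ}

/-- The biquadratic form `∑ₖ W_k T_k`. -/
def phi (T W : Tensor p q r) (x : Fin p → ℂ) (y : Fin q → ℂ) : ℂ :=
  contr3 W x y ⬝ᵥ contr3 T x y

def gam1 (T : Tensor p q r) : (Fin p × Fin p → ℂ) →ₗ[ℂ] Tensor p q r where
  toFun ω e := ∑ i, (ω (e.1, i) - ω (i, e.1)) * T (i, e.2.1, e.2.2)
  map_add' a b := by
    funext e
    simp only [Pi.add_apply, ← Finset.sum_add_distrib]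
    exact Finset.sum_congr rfl fun _ _ => by ring
  map_smul' s a := by
    funext e
    simp only [Pi.smul_apply, smul_eq_mul, RingHom.id_apply, Finset.mul_sum]
    exact Finset.sum_congr rfl fun _ _ => by ring

def gam2 (T : Tensor p q r) : (Fin q × Fin q → ℂ) →ₗ[ℂ] Tensor p q r where
  toFun ω e := ∑ j, (ω (e.2.1, j) - ω (j, e.2.1)) * T (e.1, j, e.2.2)
  map_add' a b := by
    funext e
    simp only [Pi.add_apply, ← Finset.sum_add_distrib]
    exact Finset.sum_congr rfl fun _ _ => by ring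
  map_smul' s a := by
    funext e
    simp only [Pi.smul_apply, smul_eq_mul, RingHom.id_apply, Finset.mul_sum]
    exact Finset.sum_congr rfl fun _ _ => by ring

def gam3 (T : Tensor p q r) : (Fin r × Fin r → ℂ) →ₗ[ℂ] Tensor p q r where
  toFun ω e := ∑ k, (ω (e.2.2, k) - ω (k, e.2.2)) * T (e.1, e.2.1, k)
  map_add' a b := by
    funext e
    simp only [Pi.add_apply, ← Finset.sum_add_distrib]
    exact Finset.sum_congr rfl fun _ _ => by ring
  map_smul' s a := by
    funext e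
    simp only [Pi.smul_apply, smul_eq_mul, RingHom.id_apply, Finset.mul_sum]
    exact Finset.sum_congr rfl fun _ _ => by ring

/-- The skew bilinear form attached to `ω`. -/
def skew {m : ℕ} (ω : Fin m × Fin m → ℂ) (u v : Fin m → ℂ) : ℂ :=
  ∑ i, ∑ i', (ω (i, i') - ω (i', i)) * u i * v i'

theorem skew_self {m : ℕ} (ω : Fin m × Fin m → ℂ) (u : Fin m → ℂ) : skew ω u u = 0 := by
  simp only [skew, sub_mul, Finset.sum_sub_distrib]
  rw [Finset.sum_comm, sub_eq_zero]
  exact Finset.sum_congr rfl fun _ _ => Finset.sum_congr rfl fun _ _ => by ring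

theorem dot_contr3_eq_contr1 (W : Tensor p q r) (x : Fin p → ℂ) (y : Fin q → ℂ) (z : Fin r → ℂ) :
    contr3 W x y ⬝ᵥ z = x ⬝ᵥ contr1 W y z := by
  simp only [dotProduct, contr3, contr1, Finset.sum_mul, Finset.mul_sum]
  rw [Finset.sum_comm]
  refine Finset.sum_congr rfl fun _ _ => ?_
  rw [Finset.sum_comm]
  exact Finset.sum_congr rfl fun _ _ => Finset.sum_congr rfl fun _ _ => by ring

theorem dot_contr3_eq_contr2 (W : Tensor p q r) (x : Fin p → ℂ) (y : Fin q → ℂ) (z : Fin r → ℂ) :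
    contr3 W x y ⬝ᵥ z = y ⬝ᵥ contr2 W x z := by
  rw [dot_contr3_eq_contr1]
  simp only [dotProduct, contr2, contr1, Finset.mul_sum]
  rw [Finset.sum_comm]
  exact Finset.sum_congr rfl fun _ _ => Finset.sum_congr rfl fun _ _ =>
    Finset.sum_congr rfl fun _ _ => by ring

theorem contr1_gam1 (T : Tensor p q r) (ω : Fin p × Fin p → ℂ) (y : Fin q → ℂ) (z : Fin r → ℂ)
    (i : Fin p) : contr1 (gam1 T ω) y z i = ∑ i', (ω (i, i') - ω (i', i)) * contr1 T y z i' := by
  simp only [contr1, gam1, LinearMap.coe_mk, AddHom.coe_mk, Finset.sum_mul, Finset.mul_sum]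
  symm
  rw [Finset.sum_comm]
  refine Finset.sum_congr rfl fun _ _ => ?_
  rw [Finset.sum_comm]
  exact Finset.sum_congr rfl fun _ _ => Finset.sum_congr rfl fun _ _ => by ring

theorem contr2_gam2 (T : Tensor p q r) (ω : Fin q × Fin q → ℂ) (x : Fin p → ℂ) (z : Fin r → ℂ)
    (j : Fin q) : contr2 (gam2 T ω) x z j = ∑ j', (ω (j, j') - ω (j', j)) * contr2 T x z j' := by
  simp only [contr2, gam2, LinearMap.coe_mk, AddHom.coe_mk, Finset.sum_mul, Finset.mul_sum]
  symm
  rw [Finset.sum_comm]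
  refine Finset.sum_congr rfl fun _ _ => ?_
  rw [Finset.sum_comm]
  exact Finset.sum_congr rfl fun _ _ => Finset.sum_congr rfl fun _ _ => by ring

theorem contr3_gam3 (T : Tensor p q r) (ω : Fin r × Fin r → ℂ) (x : Fin p → ℂ) (y : Fin q → ℂ)
    (k : Fin r) : contr3 (gam3 T ω) x y k = ∑ k', (ω (k, k') - ω (k', k)) * contr3 T x y k' := by
  simp only [contr3, gam3, LinearMap.coe_mk, AddHom.coe_mk, Finset.sum_mul, Finset.mul_sum]
  symm
  rw [Finset.sum_comm]
  refine Finset.sum_congr rfl fun _ _ => ?_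
  rw [Finset.sum_comm]
  exact Finset.sum_congr rfl fun _ _ => Finset.sum_congr rfl fun _ _ => by ring

theorem dot_gam1 (T : Tensor p q r) (ω : Fin p × Fin p → ℂ) (x : Fin p → ℂ) (y : Fin q → ℂ)
    (z : Fin r → ℂ) : contr3 (gam1 T ω) x y ⬝ᵥ z = skew ω x (contr1 T y z) := by
  rw [dot_contr3_eq_contr1]
  simp only [dotProduct, contr1_gam1, skew, Finset.mul_sum]
  exact Finset.sum_congr rfl fun _ _ => Finset.sum_congr rfl fun _ _ => by ring

theorem dot_gam2 (T : Tensor p q r) (ω : Fin q × Fin q → ℂ) (x : Fin p → ℂ) (y : Fin q → ℂ)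
    (z : Fin r → ℂ) : contr3 (gam2 T ω) x y ⬝ᵥ z = skew ω y (contr2 T x z) := by
  rw [dot_contr3_eq_contr2]
  simp only [dotProduct, contr2_gam2, skew, Finset.mul_sum]
  exact Finset.sum_congr rfl fun _ _ => Finset.sum_congr rfl fun _ _ => by ring

theorem dot_gam3 (T : Tensor p q r) (ω : Fin r × Fin r → ℂ) (x : Fin p → ℂ) (y : Fin q → ℂ)
    (z : Fin r → ℂ) : contr3 (gam3 T ω) x y ⬝ᵥ z = skew ω z (contr3 T x y) := by
  simp only [dotProduct, contr3_gam3, skew, Finset.sum_mul]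
  exact Finset.sum_congr rfl fun _ _ => Finset.sum_congr rfl fun _ _ => by ring

theorem contr3_add (W W' : Tensor p q r) (x : Fin p → ℂ) (y : Fin q → ℂ) :
    contr3 (W + W') x y = contr3 W x y + contr3 W' x y := by
  funext k
  simp [contr3, add_mul, Finset.sum_add_distrib]

theorem contr3_smul (s : ℂ) (W : Tensor p q r) (x : Fin p → ℂ) (y : Fin q → ℂ) :
    contr3 (s • W) x y = s • contr3 W x y := by
  funext k
  simp [contr3, Finset.mul_sum, mul_assoc]

/-- Biquadratic forms given by their coefficients. -/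
def ev4 (x : Fin p → ℂ) (y : Fin q → ℂ) : ((Fin p × Fin q) × (Fin p × Fin q) → ℂ) →ₗ[ℂ] ℂ where
  toFun c := ∑ e, c e * (x e.1.1 * y e.1.2) * (x e.2.1 * y e.2.2)
  map_add' a b := by simp [add_mul, Finset.sum_add_distrib]
  map_smul' s a := by simp [Finset.mul_sum, mul_assoc]

/-- Coefficients of `phi T W`. -/
def coef (T : Tensor p q r) : Tensor p q r →ₗ[ℂ] ((Fin p × Fin q) × (Fin p × Fin q) → ℂ) where
  toFun W e := ∑ k, W (e.1.1, e.1.2, k) * T (e.2.1, e.2.2, k)
  map_add' a b := by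
    funext e
    simp [add_mul, Finset.sum_add_distrib]
  map_smul' s a := by
    funext e
    simp [Finset.mul_sum, mul_assoc]

theorem contr3_eq_sum (T : Tensor p q r) (x : Fin p → ℂ) (y : Fin q → ℂ) (k : Fin r) :
    contr3 T x y k = ∑ e : Fin p × Fin q, T (e.1, e.2, k) * (x e.1 * y e.2) := by
  simp [contr3, Fintype.sum_prod_type, mul_assoc]

theorem ev4_coef (T W : Tensor p q r) (x : Fin p → ℂ) (y : Fin q → ℂ) :
    ev4 x y (coef T W) = phi T W x y := by
  simp only [ev4, coef, LinearMap.coe_mk, AddHom.coe_mk, phi, dotProduct, contr3_eq_sum,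
    Finset.sum_mul]
  rw [Finset.sum_comm]
  refine Finset.sum_congr rfl fun _ _ => ?_
  rw [Fintype.sum_prod_type]
  simp only [Finset.mul_sum]
  exact Finset.sum_congr rfl fun _ _ => Finset.sum_congr rfl fun _ _ => by ring

/-- Every biquadratic form vanishing at the nondegenerate solutions is a combination of the
obvious equations. -/
def Good (T : Tensor p q r) : Prop :=
  ∀ c, (∀ x y z, Sol T x y z → ND T x y z → ev4 x y c = 0) →
    ∃ ω₁ ω₂, ∀ x y, ev4 x y c = skew ω₁ x (contr1 T y (contr3 T x y)) +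
      skew ω₂ y (contr2 T x (contr3 T x y))

theorem ev4_gam (T : Tensor p q r) (u : (Fin p × Fin p → ℂ) × (Fin q × Fin q → ℂ))
    (x : Fin p → ℂ) (y : Fin q → ℂ) :
    ev4 x y ((coef T ∘ₗ (gam1 T).coprod (gam2 T)) u) =
      skew u.1 x (contr1 T y (contr3 T x y)) + skew u.2 y (contr2 T x (contr3 T x y)) := by
  rw [LinearMap.comp_apply, ev4_coef, LinearMap.coprod_apply, phi, contr3_add, add_dotProduct,
    dot_gam1, dot_gam2]

theorem good_iff (T : Tensor p q r) :
    Good T ↔ Exact T ev4 (coef T ∘ₗ (gam1 T).coprod (gam2 T)) := by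
  simp only [Good, Exact, ev4_gam, Prod.exists]

theorem generic_good (h : ∃ T : Tensor p q r, Good T) : Generic (fun T : Tensor p q r => Good T) := by
  obtain ⟨T₀, h⟩ := h
  simp only [good_iff] at h ⊢
  refine generic_Exact (fun T => T) (fun e => IsPoly.coord e) ev4 (fun w => ?_)
    (fun T => coef T ∘ₗ (gam1 T).coprod (gam2 T)) (fun u i => ?_) ?_ T₀ h
  · exact IsPoly.sum _ fun e => ((IsPoly.const _).mul
      ((IsPoly.coord _).mul (IsPoly.coord _))).mul ((IsPoly.coord _).mul (IsPoly.coord _))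
  · simp only [LinearMap.comp_apply, LinearMap.coprod_apply, coef, gam1, gam2, LinearMap.coe_mk,
      AddHom.coe_mk, Pi.add_apply]
    exact IsPoly.sum _ fun k => ((IsPoly.sum _ fun _ => (IsPoly.const _).mul (IsPoly.coord _)).add
      (IsPoly.sum _ fun _ => (IsPoly.const _).mul (IsPoly.coord _))).mul (IsPoly.coord _)
  · rintro T u x y z ⟨h1, h2, h3⟩
    rw [ev4_gam, h3, h1, h2, skew_self, skew_self, add_zero]

/-- Exchange of the first two factors. -/
def swap (T : Tensor p q r) : Tensor q p r := fun e => T (e.2.1, e.1, e.2.2)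

theorem contr1_swap (T : Tensor p q r) : contr1 (swap T) = contr2 T := rfl

theorem contr2_swap (T : Tensor p q r) : contr2 (swap T) = contr1 T := rfl

theorem contr3_swap (T : Tensor p q r) (x : Fin p → ℂ) (y : Fin q → ℂ) :
    contr3 (swap T) y x = contr3 T x y := by
  funext k
  simp only [contr3, swap]
  rw [Finset.sum_comm]
  exact Finset.sum_congr rfl fun _ _ => Finset.sum_congr rfl fun _ _ => by ring

theorem Good.swap {T : Tensor p q r} (h : Good T) : Good (swap T) := by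
  intro c hc
  have hev : ∀ x y, ev4 x y (fun e : (Fin p × Fin q) × (Fin p × Fin q) => c (e.1.swap, e.2.swap)) =
      ev4 y x c := by
    intro x y
    simp only [ev4, LinearMap.coe_mk, AddHom.coe_mk]
    refine Fintype.sum_equiv ((Equiv.prodComm _ _).prodCongr (Equiv.prodComm _ _)) _ _ ?_
    rintro ⟨⟨a, b⟩, ⟨a', b'⟩⟩
    simp [mul_comm]
  obtain ⟨ω₁, ω₂, hω⟩ := h (fun e => c (e.1.swap, e.2.swap)) (by
    rintro x y z ⟨h1, h2, h3⟩ hn
    rw [hev]
    refine hc y x z ⟨h2, h1, by rw [contr3_swap, h3]⟩ ?_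
    intro dy dx dz e1 e2 e3
    rw [contr3_swap, contr3_swap, add_comm] at e3
    obtain ⟨a, b, c⟩ := hn dx dy dz e2 e1 e3
    exact ⟨b, a, c⟩)
  refine ⟨ω₂, ω₁, fun y x => ?_⟩
  rw [← hev, hω, contr3_swap, contr1_swap, contr2_swap, add_comm]

/-- Add a new variable `y₀` and the new form `ξ(x) y₀`. -/
def ext (T : Tensor p q r) (ξ : Fin p → ℂ) : Tensor p (q + 1) (r + 1) := fun e =>
  Fin.cases (motive := fun _ => ℂ) (Fin.cases (motive := fun _ => ℂ) (ξ e.1) (fun _ => 0) e.2.2)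
    (fun j => Fin.cases (motive := fun _ => ℂ) 0 (fun k => T (e.1, j, k)) e.2.2) e.2.1

theorem contr1_ext (T : Tensor p q r) (ξ : Fin p → ℂ) (y₀ z₀ : ℂ) (y : Fin q → ℂ) (z : Fin r → ℂ) :
    contr1 (ext T ξ) (Fin.cons y₀ y) (Fin.cons z₀ z) = (y₀ * z₀) • ξ + contr1 T y z := by
  funext i
  simp [contr1, ext, Fin.sum_univ_succ]
  ring

theorem contr2_ext (T : Tensor p q r) (ξ : Fin p → ℂ) (z₀ : ℂ) (x : Fin p → ℂ) (z : Fin r → ℂ) :
    contr2 (ext T ξ) x (Fin.cons z₀ z) = Fin.cons (ξ ⬝ᵥ x * z₀) (contr2 T x z) := by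
  funext j
  refine Fin.cases ?_ (fun j => ?_) j
  · simp [contr2, ext, Fin.sum_univ_succ, dotProduct, Finset.sum_mul]
  · simp [contr2, ext, Fin.sum_univ_succ]

theorem contr3_ext (T : Tensor p q r) (ξ : Fin p → ℂ) (y₀ : ℂ) (x : Fin p → ℂ) (y : Fin q → ℂ) :
    contr3 (ext T ξ) x (Fin.cons y₀ y) = Fin.cons (ξ ⬝ᵥ x * y₀) (contr3 T x y) := by
  funext k
  refine Fin.cases ?_ (fun k => ?_) k
  · simp [contr3, ext, Fin.sum_univ_succ, dotProduct, Finset.sum_mul]
  · simp [contr3, ext, Fin.sum_univ_succ]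

theorem isPoly_ext {σ : Type} {T : (σ → ℂ) → Tensor p q r} {ξ : (σ → ℂ) → Fin p → ℂ}
    (hT : ∀ e, IsPoly (fun t => T t e)) (hξ : ∀ i, IsPoly (fun t => ξ t i))
    (e : Fin p × Fin (q + 1) × Fin (r + 1)) : IsPoly (fun t => ext (T t) (ξ t) e) := by
  obtain ⟨i, j, k⟩ := e
  refine Fin.cases ?_ (fun j => ?_) j <;> refine Fin.cases ?_ (fun k => ?_) k
  · exact hξ i
  · exact IsPoly.const 0
  · exact IsPoly.const 0
  · exact hT (i, j, k)

end Pool.Agent.Lib.MP_ff9d8c_ag
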