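import Pool.Agent.Lib.MP_ff9d8c_ag.Generic

set_option autoImplicit false

namespace Pool.Agent.Lib.MP_ff9d8c_ag

open MvPolynomial Filter Topology

theorem eq_zero_of_eventually {σ : Type} [Fintype σ] (p : MvPolynomial σ ℂ) (t₀ : σ → ℂ)
    (h : ∀ᶠ t in 𝓝 t₀, eval t p = 0) : p = 0 := by
  have h1 := (AnalyticOnNhd.eval_mvPolynomial p).eqOn_zero_of_preconnected_of_eventuallyEq_zero
    isPreconnected_univ (Set.mem_univ t₀) h
  apply MvPolynomial.funext
  intro t
  simpa using h1 (Set.mem_univ t)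

/-- A nondegenerate solution of a square polynomial system persists for generic parameters. -/
theorem generic_persist {σ τ : Type} [Fintype σ] [Fintype τ]
    (Φ : (σ ⊕ τ → ℂ) → τ → ℂ) (hΦ : ∀ c, IsPoly (fun w => Φ w c))
    (G : (σ ⊕ τ → ℂ) → ℂ) (hG : IsPoly G) (t₀ : σ → ℂ) (z₀ : τ → ℂ)
    (h0 : Φ (Sum.elim t₀ z₀) = 0) (hG0 : G (Sum.elim t₀ z₀) ≠ 0)
    (hnd : ∀ δ : τ → ℂ,
      (∀ c, HasDerivAt (fun s : ℂ => Φ (Sum.elim t₀ (z₀ + s • δ)) c) 0 0) → δ = 0) :
    Generic (fun t : σ → ℂ => ∃ z : τ → ℂ, Φ (Sum.elim t z) = 0 ∧ G (Sum.elim t z) ≠ 0) := by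
  classical
  let w₀ : σ ⊕ τ → ℂ := Sum.elim t₀ z₀
  let Ψ : (σ ⊕ τ → ℂ) → (σ ⊕ τ → ℂ) := fun w => Sum.elim (w ∘ Sum.inl) (Φ w)
  have hΨ : AnalyticAt ℂ Ψ w₀ := by
    rw [analyticAt_pi_iff]
    rintro (s | c)
    · exact (IsPoly.coord (Sum.inl s)).analyticAt _
    · exact (hΦ c).analyticAt _
  have hD : HasStrictFDerivAt Ψ (fderiv ℂ Ψ w₀) w₀ := hΨ.hasStrictFDerivAt
  have hinj : Function.Injective (fderiv ℂ Ψ w₀) := by
    rw [injective_iff_map_eq_zero]
    intro δ hδ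
    have hc : HasDerivAt (fun s : ℂ => w₀ + s • δ) δ 0 := by
      simpa using ((hasDerivAt_id (0 : ℂ)).smul_const δ).const_add w₀
    have h1 : HasDerivAt (fun s : ℂ => Ψ (w₀ + s • δ)) 0 0 := by
      have h2 : HasFDerivAt Ψ (fderiv ℂ Ψ w₀) (w₀ + (0 : ℂ) • δ) := by
        simpa using hD.hasFDerivAt
      have := h2.comp_hasDerivAt (0 : ℂ) hc
      rw [hδ] at this
      exact this
    rw [hasDerivAt_pi] at h1 hc
    have h3 : ∀ s, δ (Sum.inl s) = 0 := fun s => (hc (Sum.inl s)).unique (h1 (Sum.inl s))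
    have h4 : δ ∘ Sum.inr = 0 := by
      apply hnd
      intro c
      have h5 := h1 (Sum.inr c)
      have h6 : ∀ s : ℂ, w₀ + s • δ = Sum.elim t₀ (z₀ + s • (δ ∘ Sum.inr)) := by
        intro s
        funext a
        rcases a with a | a
        · simp [w₀, h3]
        · simp [w₀]
      simp only [h6] at h5
      exact h5
    funext a
    rcases a with a | a
    · exact h3 a
    · exact congrFun h4 a
  have hsurj : LinearMap.range (fderiv ℂ Ψ w₀).toLinearMap = ⊤ :=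
    LinearMap.range_eq_top.2
      ((LinearMap.injective_iff_surjective (f := (fderiv ℂ Ψ w₀).toLinearMap)).1 hinj)
  have hmap : map Ψ (𝓝 w₀) = 𝓝 (Ψ w₀) := hD.map_nhds_eq_of_surj hsurj
  have hGn : {w | G w ≠ 0} ∈ 𝓝 w₀ := (hG.analyticAt w₀).continuousAt.eventually_ne hG0
  have h1 : Ψ '' {w | G w ≠ 0} ∈ 𝓝 (Ψ w₀) := by
    rw [← hmap]
    exact image_mem_map hGn
  have hι : Continuous (fun t : σ → ℂ => (Sum.elim t (0 : τ → ℂ) : σ ⊕ τ → ℂ)) := by
    refine continuous_pi ?_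
    rintro (s | c)
    · exact continuous_apply s
    · exact continuous_const
  have h2 : ∀ᶠ t in 𝓝 t₀, ∃ z : τ → ℂ, Φ (Sum.elim t z) = 0 ∧ G (Sum.elim t z) ≠ 0 := by
    have h3 : Ψ w₀ = Sum.elim t₀ (0 : τ → ℂ) := by
      simp only [Ψ, w₀, h0]
      rfl
    rw [h3] at h1
    filter_upwards [hι.continuousAt.preimage_mem_nhds h1] with t ht
    obtain ⟨w, hw, hw'⟩ := ht
    have h4 : w ∘ Sum.inl = t := funext fun s => congrFun hw' (Sum.inl s)
    have h5 : Φ w = 0 := funext fun c => congrFun hw' (Sum.inr c)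
    refine ⟨w ∘ Sum.inr, ?_⟩
    rw [← h4, Sum.elim_comp_inl_inr]
    exact ⟨h5, hw⟩
  let r : (σ ⊕ Option τ → ℂ) → σ ⊕ τ → ℂ := fun w => w ∘ Sum.map id some
  have hr : ∀ a, IsPoly (fun w => r w a) := fun a => IsPoly.coord _
  have hr' : ∀ t (z : Option τ → ℂ), r (Sum.elim t z) = Sum.elim t (z ∘ some) := by
    intro t z
    funext a
    rcases a with a | a <;> rfl
  let E : Option τ → (σ ⊕ Option τ → ℂ) → ℂ := fun o w =>
    Option.elim o (G (r w) * w (Sum.inr none) - 1) (Φ (r w))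
  have hE : ∀ o, IsPoly (E o) := by
    rintro (_ | c)
    · exact ((hG.comp hr).mul (IsPoly.coord _)).sub (IsPoly.const _)
    · exact (hΦ c).comp hr
  refine (generic_of_dense E hE ?_).mono ?_
  · intro p hp
    apply eq_zero_of_eventually p t₀
    filter_upwards [h2] with t ht
    obtain ⟨z, hz, hz'⟩ := ht
    apply hp t (fun o => Option.elim o (G (Sum.elim t z))⁻¹ z)
    have h6 : (fun o => Option.elim o (G (Sum.elim t z))⁻¹ z) ∘ some = z := rfl
    rintro (_ | c)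
    · simp only [E, hr', h6]
      simp [hz']
    · simp only [E, hr', h6]
      simp [hz]
  · rintro t ⟨z, hz⟩
    refine ⟨z ∘ some, funext fun c => ?_, ?_⟩
    · have := hz (some c)
      simp only [E, hr'] at this
      exact this
    · intro h
      have := hz none
      simp only [E, hr', h] at this
      simp at this

/-- Exactness of a complex with polynomial coefficients is an open condition. -/
theorem exists_poly_exact {σ ι κ U : Type} [Fintype ι] [AddCommGroup U] [Module ℂ U]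
    (α : (σ → ℂ) → U →ₗ[ℂ] (ι → ℂ)) (β : (σ → ℂ) → κ → (ι → ℂ) →ₗ[ℂ] ℂ)
    (hα : ∀ u i, IsPoly (fun t => α t u i)) (hβ : ∀ k w, IsPoly (fun t => β t k w))
    (t₀ : σ → ℂ) (hex : ∀ w, (∀ k, β t₀ k w = 0) → ∃ u, α t₀ u = w) :
    ∃ G : (σ → ℂ) → ℂ, IsPoly G ∧ G t₀ ≠ 0 ∧ ∀ t, G t ≠ 0 → (∀ u k, β t k (α t u) = 0) →
      ∀ w, (∀ k, β t k w = 0) → ∃ u, α t u = w := by
  classical
  let K : Submodule ℂ (ι → ℂ) := ⨅ k, LinearMap.ker (β t₀ k)
  obtain ⟨Q, hQ⟩ := K.exists_isCompl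
  let π : (ι → ℂ) →ₗ[ℂ] (ι → ℂ) := K.subtype ∘ₗ K.projectionOnto Q hQ
  have hπK : ∀ w, π w ∈ K := fun w => (K.projectionOnto Q hQ w).2
  have hπ : ∀ w ∈ K, π w = w := fun w hw => by
    simp only [π, LinearMap.comp_apply]
    rw [show w = ((⟨w, hw⟩ : K) : ι → ℂ) from rfl, Submodule.projectionOnto_apply_left]
    rfl
  have h1 : ∀ j : ι, ∃ u, α t₀ u = π (Pi.single j 1) := fun j =>
    hex _ fun k => (Submodule.mem_iInf _).1 (hπK _) k
  choose u hu using h1
  have h2 : ∀ i : ι, ∃ c : κ →₀ ℂ,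
      c.sum (fun k a => a • β t₀ k) = (LinearMap.proj i) ∘ₗ (LinearMap.id - π) := by
    intro i
    rw [← Finsupp.mem_span_range_iff_exists_finsupp]
    apply FiniteDimensional.mem_span_of_iInf_ker_le_ker
    intro w hw
    simp [hπ w hw]
  choose c hc using h2
  let M : (σ → ℂ) → Matrix ι ι ℂ := fun t i j =>
    α t (u j) i + ∑ k ∈ (c i).support, c i k * β t k (Pi.single j 1)
  have hM : ∀ i j, IsPoly (fun t => M t i j) := fun i j =>
    (hα _ _).add (IsPoly.sum _ fun k => (IsPoly.const _).mul (hβ _ _))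
  have hMv : ∀ t w i, (M t).mulVec w i =
      α t (∑ j, w j • u j) i + ∑ k ∈ (c i).support, c i k * β t k w := by
    intro t w i
    have hw : w = ∑ j, w j • (Pi.single j 1 : ι → ℂ) := by
      funext i
      simp [Finset.sum_apply, Pi.single_apply]
    simp only [Matrix.mulVec, dotProduct, M, add_mul, Finset.sum_add_distrib]
    congr 1
    · simp [Finset.sum_apply, mul_comm]
    · conv_rhs => rw [hw]
      simp only [map_sum, map_smul, smul_eq_mul, Finset.mul_sum, Finset.sum_mul]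
      rw [Finset.sum_comm]
      refine Finset.sum_congr rfl fun _ _ => Finset.sum_congr rfl fun _ _ => by ring
  refine ⟨fun t => (M t).det, IsPoly.det hM, ?_, ?_⟩
  · have : M t₀ = 1 := by
      ext i j
      have h3 := LinearMap.congr_fun (hc i) (Pi.single j 1)
      simp only [Finsupp.sum, LinearMap.coe_sum, Finset.sum_apply, LinearMap.smul_apply,
        smul_eq_mul] at h3
      simp only [M, hu, h3]
      simp [Matrix.one_apply, Pi.single_apply]
    simp [this]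
  · intro t ht hβα w hw
    let K' : Submodule ℂ (ι → ℂ) := ⨅ k, LinearMap.ker (β t k)
    have hK' : ∀ w ∈ K', (M t).mulVec w = α t (∑ j, w j • u j) := by
      intro w hw
      funext i
      rw [hMv]
      have : ∀ k, β t k w = 0 := fun k => (Submodule.mem_iInf _).1 hw k
      simp [this]
    have hmaps : ∀ w ∈ K', (M t).mulVecLin w ∈ K' := by
      intro w hw
      rw [Matrix.mulVecLin_apply, hK' w hw]
      exact (Submodule.mem_iInf _).2 fun k => hβα _ k
    have hinj : Function.Injective (M t).mulVecLin :=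
      Matrix.mulVec_injective_iff_isUnit.2 ((Matrix.isUnit_iff_isUnit_det _).2 (Ne.isUnit ht))
    have hs : Function.Surjective ((M t).mulVecLin.restrict hmaps) := by
      rw [← LinearMap.injective_iff_surjective]
      intro a b hab
      exact Subtype.ext (hinj (congrArg Subtype.val hab))
    obtain ⟨w', hw'⟩ := hs ⟨w, (Submodule.mem_iInf _).2 hw⟩
    refine ⟨∑ j, w'.1 j • u j, ?_⟩
    rw [← hK' _ w'.2]
    exact congrArg Subtype.val hw'

theorem generic_exact {σ ι κ U : Type} [Fintype ι] [AddCommGroup U] [Module ℂ U]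
    (α : (σ → ℂ) → U →ₗ[ℂ] (ι → ℂ)) (β : (σ → ℂ) → κ → (ι → ℂ) →ₗ[ℂ] ℂ)
    (hα : ∀ u i, IsPoly (fun t => α t u i)) (hβ : ∀ k w, IsPoly (fun t => β t k w))
    (hβα : ∀ t u k, β t k (α t u) = 0)
    (t₀ : σ → ℂ) (hex : ∀ w, (∀ k, β t₀ k w = 0) → ∃ u, α t₀ u = w) :
    Generic (fun t => ∀ w, (∀ k, β t k w = 0) → ∃ u, α t u = w) := by
  obtain ⟨G, hG, h0, h⟩ := exists_poly_exact α β hα hβ t₀ hex
  exact Generic.of_poly hG h0 fun t ht => h t ht (hβα t)

end Pool.Agent.Lib.MP_ff9d8c_ag
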