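import Pool.Agent.Lib.MP_ff9d8c_ag.Cert

set_option autoImplicit false

namespace Pool.Agent.Lib.MP_ff9d8c_ag

open Matrix Module

variable {p q r : ℕ}

/-- Syzygies of bidegree `(1, 1)`. -/
def kerPhi (T : Tensor p q r) : Submodule ℂ (Tensor p q r) :=
  ⨅ v : (Fin p → ℂ) × (Fin q → ℂ), LinearMap.ker (ev4 v.1 v.2 ∘ₗ coef T)

theorem mem_kerPhi (T W : Tensor p q r) : W ∈ kerPhi T ↔ ∀ x y, phi T W x y = 0 := by
  simp [kerPhi, Submodule.mem_iInf, ev4_coef]

def evPts (T : Tensor p q r) : Tensor p q r →ₗ[ℂ] (Fin (tgs p q).length → ℂ) :=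
  LinearMap.pi fun t => ev4 (pts p q t).1 (pts p q t).2 ∘ₗ coef T

theorem evPts_apply (T W : Tensor p q r) (t : Fin (tgs p q).length) :
    evPts T W t = phi T W (pts p q t).1 (pts p q t).2 := by
  simp [evPts, ev4_coef]

theorem generic_surjAt (h : ∃ T : Tensor p q r, SurjAt T) :
    Generic (fun T : Tensor p q r => SurjAt T) := by
  obtain ⟨T₀, h⟩ := h
  have := generic_exact (κ := Empty) (fun T : Tensor p q r => evPts T)
    (fun _ k => k.elim) (fun u i => ?_) (fun k => k.elim) (fun _ _ k => k.elim) T₀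
    (fun w _ => (h w).imp fun W hW => funext fun t => by rw [evPts_apply, hW])
  · refine this.mono fun T hT v => (hT v fun k => k.elim).imp fun W hW t => ?_
    rw [← evPts_apply, hW]
  · simp only [evPts_apply]
    exact isPoly_phi _ _ _

theorem SurjAt.finrank_kerPhi {T : Tensor p q r} (h : SurjAt T) :
    (tgs p q).length + finrank ℂ (kerPhi T) = p * (q * r) := by
  have h1 : LinearMap.ker (evPts T) = kerPhi T := by
    ext W
    rw [LinearMap.mem_ker, mem_kerPhi]
    constructor
    · intro hW x y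
      rw [← ev4_coef]
      exact ev4_eq_zero_of_pts _ (fun t => by rw [ev4_coef, ← evPts_apply, hW]; rfl) x y
    · intro hW
      funext t
      rw [evPts_apply, hW]
      rfl
  have h2 : LinearMap.range (evPts T) = ⊤ := LinearMap.range_eq_top.2 fun v =>
    (h v).imp fun W hW => funext fun t => by rw [evPts_apply, hW]
  have h3 := LinearMap.finrank_range_add_finrank_ker (evPts T)
  rw [h1, h2, finrank_top] at h3
  simpa using h3

theorem SurjAt.contr3_ne_zero {T : Tensor p q r} (h : SurjAt T) {x : Fin p → ℂ} {y : Fin q → ℂ}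
    (hx : x ≠ 0) (hy : y ≠ 0) : contr3 T x y ≠ 0 := by
  intro h0
  obtain ⟨i, hi⟩ := Function.ne_iff.1 hx
  obtain ⟨j, hj⟩ := Function.ne_iff.1 hy
  obtain ⟨W, hW⟩ := h fun t => ev4 (pts p q t).1 (pts p q t).2 (Pi.single ((i, j), (i, j)) 1)
  have h1 := ev4_eq_zero_of_pts (coef T W - Pi.single ((i, j), (i, j)) 1)
    (fun t => by rw [map_sub, ev4_coef, hW, sub_self]) x y
  rw [map_sub, ev4_coef, phi, h0] at h1
  simp [ev4, Pi.single_apply] at h1
  exact h1.elim hi hj

/-- The slices in the third direction are linearly independent. -/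
def Ind (T : Tensor p q r) : Prop :=
  ∀ u : Fin r → ℂ, (∀ i j, ∑ k, u k * T (i, j, k) = 0) → u = 0

theorem generic_ind (h : r ≤ p * q) : Generic (fun T : Tensor p q r => Ind T) := by
  have := generic_exact (κ := Fin p × Fin q)
    (fun _ : Tensor p q r => (0 : ℂ →ₗ[ℂ] (Fin r → ℂ)))
    (fun T v => dotProductBilin ℂ ℂ (fun k => T (v.1, v.2, k))) (fun u i => IsPoly.const _)
    (fun v w => ?_) (fun T u v => by simp)
    (fun e => if finProdFinEquiv (e.1, e.2.1) = Fin.castLE h e.2.2 then 1 else 0)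
    (fun w hw => ⟨0, funext fun k => ?_⟩)
  · refine this.mono fun T hT u hu => ?_
    obtain ⟨c, hc⟩ := hT u fun v => by simpa [dotProduct, mul_comm] using hu v.1 v.2
    exact hc.symm
  · simp only [dotProductBilin_apply_apply, dotProduct]
    exact IsPoly.sum _ fun k => (IsPoly.coord _).mul (IsPoly.const _)
  · have := hw (finProdFinEquiv.symm (Fin.castLE h k))
    simp only [dotProductBilin_apply_apply, dotProduct, Prod.mk.eta, Equiv.apply_symm_apply,
      (Fin.castLE_injective h).eq_iff] at this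
    simpa using this.symm

/-- Extension by zero from increasing pairs. -/
def extPairs (r : ℕ) : ({e : Fin r × Fin r // e.1 < e.2} → ℂ) →ₗ[ℂ] (Fin r × Fin r → ℂ) where
  toFun a e := if h : e.1 < e.2 then a ⟨e, h⟩ else 0
  map_add' a b := by
    funext e
    by_cases h : e.1 < e.2 <;> simp [h]
  map_smul' s a := by
    funext e
    by_cases h : e.1 < e.2 <;> simp [h]

theorem Ind.finrank_gam3 {T : Tensor p q r} (h : Ind T) :
    finrank ℂ (LinearMap.range (gam3 T)) = Fintype.card {e : Fin r × Fin r // e.1 < e.2} := by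
  have h1 : LinearMap.range (gam3 T) = LinearMap.range (gam3 T ∘ₗ extPairs r) := by
    refine le_antisymm ?_ (LinearMap.range_comp_le_range _ _)
    rintro _ ⟨ω, rfl⟩
    refine ⟨fun e => ω e.1 - ω e.1.swap, funext fun e => ?_⟩
    simp only [LinearMap.comp_apply, gam3, LinearMap.coe_mk, AddHom.coe_mk]
    refine Finset.sum_congr rfl fun k _ => ?_
    congr 1
    rcases lt_trichotomy e.2.2 k with h2 | h2 | h2
    · simp [extPairs, h2, h2.not_gt]
    · simp [extPairs, h2]
    · simp [extPairs, h2, h2.not_gt]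
  have h2 : Function.Injective (gam3 T ∘ₗ extPairs r) := by
    rw [injective_iff_map_eq_zero]
    intro a ha
    funext ⟨⟨k, l⟩, hkl⟩
    have h3 := h (fun l => extPairs r a (k, l) - extPairs r a (l, k)) fun i j =>
      congrFun ha (i, j, k)
    have h4 := congrFun h3 l
    have h5 : k < l := hkl
    simpa [extPairs, h5, h5.not_gt] using h4
  rw [h1, LinearMap.finrank_range_of_inj h2]
  simp

theorem range_gam3_le (T : Tensor p q r) : LinearMap.range (gam3 T) ≤ kerPhi T := by
  rintro _ ⟨ω, rfl⟩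
  exact (mem_kerPhi _ _).2 (phi_gam3 T ω)

theorem kos_of_surj {T : Tensor p q r} (h : SurjAt T) (h' : Ind T)
    (hc : (tgs p q).length + Fintype.card {e : Fin r × Fin r // e.1 < e.2} = p * (q * r)) :
    Kos T := by
  have h1 : LinearMap.range (gam3 T) = kerPhi T :=
    Submodule.eq_of_le_of_finrank_eq (range_gam3_le T) (by
      have := h.finrank_kerPhi
      rw [h'.finrank_gam3]
      omega)
  intro W hW
  have : W ∈ LinearMap.range (gam3 T) := h1 ▸ (mem_kerPhi _ _).2 hW
  exact this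

/-- The first two families of equations contain no syzygy. -/
def Dis (T : Tensor p q r) : Prop :=
  ∀ ω₁ ω₂, (∀ x y, phi T (gam1 T ω₁ + gam2 T ω₂) x y = 0) → gam1 T ω₁ + gam2 T ω₂ = 0

/-- Symmetrisation. -/
def symz (p q : ℕ) : ((Fin p × Fin p) ⊕ (Fin q × Fin q) → ℂ) →ₗ[ℂ]
    ((Fin p × Fin p) ⊕ (Fin q × Fin q) → ℂ) where
  toFun u e := u e + u (e.map Prod.swap Prod.swap)
  map_add' a b := by
    funext e
    simp only [Pi.add_apply]
    ring
  map_smul' s a := by
    funext e
    simp [mul_add]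

theorem phi_gam12 (T : Tensor p q r) (ω₁ : Fin p × Fin p → ℂ) (ω₂ : Fin q × Fin q → ℂ)
    (x : Fin p → ℂ) (y : Fin q → ℂ) : phi T (gam1 T ω₁ + gam2 T ω₂) x y =
      skew ω₁ x (contr1 T y (contr3 T x y)) + skew ω₂ y (contr2 T x (contr3 T x y)) := by
  rw [phi, contr3_add, add_dotProduct, dot_gam1, dot_gam2]

theorem dis_diag (m : Fin q → Fin p) (ι : Fin q → Fin r) (s : Fin q → ℂ)
    (hm : Function.Surjective m)
    (hι : Function.Injective ι) (hs0 : ∀ j, s j ≠ 0) (hs : ∀ j j', s j ^ 2 = s j' ^ 2 → j = j')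
    (ω₁ : Fin p × Fin p → ℂ) (ω₂ : Fin q × Fin q → ℂ)
    (h : ∀ x y, skew ω₁ x (contr1 (diag m ι s) y (contr3 (diag m ι s) x y)) +
      skew ω₂ y (contr2 (diag m ι s) x (contr3 (diag m ι s) x y)) = 0) :
    (∀ i i', ω₁ (i, i') = ω₁ (i', i)) ∧ ∀ j j', ω₂ (j, j') = ω₂ (j', j) := by
  have h1 : ∀ i i', ω₁ (i, i') = ω₁ (i', i) := by
    intro i i'
    obtain ⟨j, rfl⟩ := hm i'
    have h2 := lin_eq_zero (fun i => ω₁ (i, m j) - ω₁ (m j, i)) (m j) fun x => by
      have h3 := h x (Pi.single j 1)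
      have h4 : contr2 (diag m ι s) x (contr3 (diag m ι s) x (Pi.single j 1)) =
          (s j ^ 2 * x (m j) ^ 2) • (Pi.single j 1 : Fin q → ℂ) := by
        funext j'
        rw [contr2_diag, contr3_diag m ι s hι]
        by_cases h5 : j' = j
        · simp [h5]
          ring
        · simp [h5]
      have h5 : contr1 (diag m ι s) (Pi.single j 1) (contr3 (diag m ι s) x (Pi.single j 1)) =
          Pi.single (m j) (s j ^ 2 * x (m j)) := by
        funext i'
        simp only [contr1_diag, contr3_diag m ι s hι]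
        rw [Finset.sum_eq_single j (fun j' _ h6 => by simp [h6]) (by simp)]
        by_cases h5 : i' = m j
        · simp [h5]
          ring
        · simp [h5]
      rw [h4, h5] at h3
      apply mul_left_cancel₀ (pow_ne_zero 2 (hs0 j))
      rw [mul_zero, ← h3]
      simp [skew, Pi.single_apply, dotProduct, Finset.sum_mul, Finset.mul_sum]
      exact Finset.sum_congr rfl fun _ _ => by ring
    exact sub_eq_zero.1 (congrFun h2 i)
  refine ⟨h1, fun j j' => ?_⟩
  have h2 := bil_symm (fun j j' => (ω₂ (j, j') - ω₂ (j', j)) * s j' ^ 2) (fun y => by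
    have h3 := h (fun _ => 1) y
    rw [← h3]
    simp only [skew, h1, sub_self, zero_mul, Finset.sum_const_zero, zero_add, bil, contr2_diag,
      contr3_diag m ι s hι]
    exact Finset.sum_congr rfl fun _ _ => Finset.sum_congr rfl fun _ _ => by ring) j j'
  by_cases h3 : j = j'
  · rw [h3]
  · apply mul_left_cancel₀ (sub_ne_zero.2 fun h4 => h3 (hs _ _ h4))
    linear_combination -h2

theorem generic_dis (hp : 0 < p) (hq : p ≤ q) (hr : q ≤ r) :
    Generic (fun T : Tensor p q r => Dis T) := by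
  let L : ((Fin p × Fin p) ⊕ (Fin q × Fin q) → ℂ) →ₗ[ℂ]
      (Fin p × Fin p → ℂ) × (Fin q × Fin q → ℂ) :=
    (LinearMap.funLeft ℂ ℂ Sum.inl).prod (LinearMap.funLeft ℂ ℂ Sum.inr)
  have hL : ∀ (T : Tensor p q r) u, (gam1 T).coprod (gam2 T) (L (symz p q u)) = 0 := by
    intro T u
    funext e
    simp [L, gam1, gam2, symz, add_comm]
  have := generic_exact (κ := (Fin p → ℂ) × (Fin q → ℂ))
    (fun _ : Tensor p q r => symz p q)
    (fun T v => ev4 v.1 v.2 ∘ₗ (coef T ∘ₗ (gam1 T).coprod (gam2 T)) ∘ₗ L)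
    (fun u i => IsPoly.const _) (fun v w => ?_) (fun T u v => by simp [hL])
    (diag (fun j : Fin q => if h : (j : ℕ) < p then ⟨j, h⟩ else ⟨0, hp⟩) (Fin.castLE hr)
      (fun j => (j : ℕ) + 1))
    (fun w hw => ?_)
  · refine this.mono fun T hT ω₁ ω₂ h => ?_
    obtain ⟨u, hu⟩ := hT (Sum.elim ω₁ ω₂) fun v => by
      rw [← h v.1 v.2, ← ev4_coef]
      rfl
    have h1 := hL T u
    rw [hu] at h1
    exact h1
  · simp only [LinearMap.comp_apply, ev4, LinearMap.coprod_apply, coef, gam1, gam2,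
      LinearMap.coe_mk, AddHom.coe_mk, Pi.add_apply]
    exact IsPoly.sum _ fun e => ((IsPoly.sum _ fun k => ((IsPoly.sum _ fun _ =>
      (IsPoly.const _).mul (IsPoly.coord _)).add (IsPoly.sum _ fun _ =>
      (IsPoly.const _).mul (IsPoly.coord _))).mul (IsPoly.coord _)).mul (IsPoly.const _)).mul
      (IsPoly.const _)
  · obtain ⟨h1, h2⟩ := dis_diag (fun j : Fin q => if h : (j : ℕ) < p then ⟨j, h⟩ else ⟨0, hp⟩)
      (Fin.castLE hr) (fun j => (j : ℕ) + 1) (fun l => ⟨⟨l, by omega⟩, by simp⟩)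
      (Fin.castLE_injective hr) (fun j => Nat.cast_add_one_ne_zero _) (fun j j' h => by
        have h1 : (j + 1 : ℕ) ^ 2 = (j' + 1 : ℕ) ^ 2 := by exact_mod_cast h
        have := Nat.pow_left_injective (by norm_num) h1
        exact Fin.ext (by omega)) (w ∘ Sum.inl) (w ∘ Sum.inr) fun x y => by
      have h3 := hw (x, y)
      rw [LinearMap.comp_apply, LinearMap.comp_apply, ev4_gam] at h3
      exact h3
    refine ⟨(1 / 2 : ℂ) • w, funext fun e => ?_⟩
    rcases e with ⟨i, i'⟩ | ⟨j, j'⟩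
    · have := h1 i i'
      simp [symz] at this ⊢
      linear_combination -this / 2
    · have := h2 j j'
      simp [symz] at this ⊢
      linear_combination -this / 2

end Pool.Agent.Lib.MP_ff9d8c_ag
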