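import Pool.Agent.Lib.MP_ff9d8c_ag.Defs
import Pool.Agent.Lib.MP_ff9d8c_ag.Persist

set_option autoImplicit false

namespace Pool.Agent.Lib.MP_ff9d8c_ag

variable {p q r : ℕ}

/-- Normalised singular vector equations. -/
def Sol (T : Tensor p q r) (x : Fin p → ℂ) (y : Fin q → ℂ) (z : Fin r → ℂ) : Prop :=
  contr1 T y z = x ∧ contr2 T x z = y ∧ contr3 T x y = z

/-- The linearisation of the normalised equations at `(x, y, z)` is injective. -/
def ND (T : Tensor p q r) (x : Fin p → ℂ) (y : Fin q → ℂ) (z : Fin r → ℂ) : Prop :=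
  ∀ dx dy dz, contr1 T dy z + contr1 T y dz = dx → contr2 T dx z + contr2 T x dz = dy →
    contr3 T dx y + contr3 T x dy = dz → dx = 0 ∧ dy = 0 ∧ dz = 0

/-- Every test function vanishing at the nondegenerate solutions comes from `A`. -/
def Exact {ι U : Type} [AddCommGroup U] [Module ℂ U] (T : Tensor p q r)
    (ev : (Fin p → ℂ) → (Fin q → ℂ) → (ι → ℂ) →ₗ[ℂ] ℂ) (A : U →ₗ[ℂ] (ι → ℂ)) : Prop :=
  ∀ w, (∀ x y z, Sol T x y z → ND T x y z → ev x y w = 0) → ∃ u, ∀ x y, ev x y w = ev x y (A u)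

theorem exists_finite_family {V κ : Type} [AddCommGroup V] [Module ℂ V] [FiniteDimensional ℂ V]
    (L : κ → V →ₗ[ℂ] ℂ) : ∃ (n : ℕ) (f : Fin n → κ), ∀ w, (∀ i, L (f i) w = 0) → ∀ k, L k w = 0 := by
  obtain ⟨f, hf, hs, -⟩ := Submodule.exists_fun_fin_finrank_span_eq ℂ (Set.range L)
  choose g hg using hf
  refine ⟨_, g, fun w hw k => ?_⟩
  have h1 : L k ∈ Submodule.span ℂ (Set.range f) := by
    rw [hs]
    exact Submodule.subset_span (Set.mem_range_self k)
  obtain ⟨c, hc⟩ := (Submodule.mem_span_range_iff_exists_fun ℂ).1 h1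
  rw [← hc]
  simp [← hg, hw]

theorem Exact.finite {ι U : Type} [Fintype ι] [AddCommGroup U] [Module ℂ U] {T : Tensor p q r}
    {ev : (Fin p → ℂ) → (Fin q → ℂ) → (ι → ℂ) →ₗ[ℂ] ℂ} {A : U →ₗ[ℂ] (ι → ℂ)} (h : Exact T ev A) :
    ∃ (n : ℕ) (x : Fin n → Fin p → ℂ) (y : Fin n → Fin q → ℂ) (z : Fin n → Fin r → ℂ),
      (∀ i, Sol T (x i) (y i) (z i)) ∧ (∀ i, ND T (x i) (y i) (z i)) ∧
      ∀ w, (∀ i, ev (x i) (y i) w = 0) → ∃ u, ∀ x y, ev x y w = ev x y (A u) := by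
  obtain ⟨n, f, hf⟩ := exists_finite_family
    (κ := {v : (Fin p → ℂ) × (Fin q → ℂ) × (Fin r → ℂ) //
      Sol T v.1 v.2.1 v.2.2 ∧ ND T v.1 v.2.1 v.2.2}) (fun v => ev v.1.1 v.1.2.1)
  refine ⟨n, fun i => (f i).1.1, fun i => (f i).1.2.1, fun i => (f i).1.2.2,
    fun i => (f i).2.1, fun i => (f i).2.2, fun w hw => h w fun x y z h1 h2 => ?_⟩
  exact hf w hw ⟨(x, y, z), h1, h2⟩

section poly

variable {σ : Type} {T : (σ → ℂ) → Tensor p q r} {x : (σ → ℂ) → Fin p → ℂ}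
  {y : (σ → ℂ) → Fin q → ℂ} {z : (σ → ℂ) → Fin r → ℂ}

theorem isPoly_contr1 (hT : ∀ e, IsPoly (fun t => T t e)) (hy : ∀ j, IsPoly (fun t => y t j))
    (hz : ∀ k, IsPoly (fun t => z t k)) (i : Fin p) :
    IsPoly (fun t => contr1 (T t) (y t) (z t) i) :=
  IsPoly.sum _ fun j => IsPoly.sum _ fun k => ((hT _).mul (hy j)).mul (hz k)

theorem isPoly_contr2 (hT : ∀ e, IsPoly (fun t => T t e)) (hx : ∀ j, IsPoly (fun t => x t j))
    (hz : ∀ k, IsPoly (fun t => z t k)) (j : Fin q) :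
    IsPoly (fun t => contr2 (T t) (x t) (z t) j) :=
  IsPoly.sum _ fun j => IsPoly.sum _ fun k => ((hT _).mul (hx j)).mul (hz k)

theorem isPoly_contr3 (hT : ∀ e, IsPoly (fun t => T t e)) (hx : ∀ j, IsPoly (fun t => x t j))
    (hy : ∀ k, IsPoly (fun t => y t k)) (k : Fin r) :
    IsPoly (fun t => contr3 (T t) (x t) (y t) k) :=
  IsPoly.sum _ fun j => IsPoly.sum _ fun k => ((hT _).mul (hx j)).mul (hy k)

end poly

/-- Index set of the unknowns. -/
abbrev Idx (p q r : ℕ) : Type := Fin p ⊕ Fin q ⊕ Fin r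

def vx (v : Idx p q r → ℂ) : Fin p → ℂ := fun i => v (Sum.inl i)
def vy (v : Idx p q r → ℂ) : Fin q → ℂ := fun j => v (Sum.inr (Sum.inl j))
def vz (v : Idx p q r → ℂ) : Fin r → ℂ := fun k => v (Sum.inr (Sum.inr k))

/-- The bilinear map whose fixed points `B v v = v` are the normalised solutions. -/
def Bq (T : Tensor p q r) (v v' : Idx p q r → ℂ) : Idx p q r → ℂ :=
  Sum.elim (contr1 T (vy v) (vz v')) (Sum.elim (contr2 T (vx v) (vz v')) (contr3 T (vx v) (vy v')))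

theorem Bq_add_left (T : Tensor p q r) (a b v : Idx p q r → ℂ) (c : Idx p q r) :
    Bq T (a + b) v c = Bq T a v c + Bq T b v c := by
  rcases c with c | c | c <;>
    simp [Bq, contr1, contr2, contr3, vx, vy, vz, mul_add, add_mul, Finset.sum_add_distrib]

theorem Bq_add_right (T : Tensor p q r) (a b v : Idx p q r → ℂ) (c : Idx p q r) :
    Bq T v (a + b) c = Bq T v a c + Bq T v b c := by
  rcases c with c | c | c <;>
    simp [Bq, contr1, contr2, contr3, vx, vy, vz, mul_add, Finset.sum_add_distrib]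

theorem Bq_smul_left (T : Tensor p q r) (s : ℂ) (a v : Idx p q r → ℂ) (c : Idx p q r) :
    Bq T (s • a) v c = s * Bq T a v c := by
  rcases c with c | c | c <;>
    simp [Bq, contr1, contr2, contr3, vx, vy, vz, Finset.mul_sum, mul_assoc, mul_left_comm]

theorem Bq_smul_right (T : Tensor p q r) (s : ℂ) (a v : Idx p q r → ℂ) (c : Idx p q r) :
    Bq T v (s • a) c = s * Bq T v a c := by
  rcases c with c | c | c <;>
    simp [Bq, contr1, contr2, contr3, vx, vy, vz, Finset.mul_sum, mul_assoc, mul_left_comm]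

theorem isPoly_Bq {σ : Type} {T : (σ → ℂ) → Tensor p q r} {v v' : (σ → ℂ) → Idx p q r → ℂ}
    (hT : ∀ e, IsPoly (fun t => T t e)) (hv : ∀ c, IsPoly (fun t => v t c))
    (hv' : ∀ c, IsPoly (fun t => v' t c)) (c : Idx p q r) :
    IsPoly (fun t => Bq (T t) (v t) (v' t) c) := by
  rcases c with c | c | c
  · exact isPoly_contr1 hT (fun _ => hv _) (fun _ => hv' _) c
  · exact isPoly_contr2 hT (fun _ => hv _) (fun _ => hv' _) c
  · exact isPoly_contr3 hT (fun _ => hv _) (fun _ => hv' _) c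

/-- The linearisation as a family of linear functionals. -/
def Lin (T : Tensor p q r) (v : Idx p q r → ℂ) (c : Idx p q r) : (Idx p q r → ℂ) →ₗ[ℂ] ℂ where
  toFun d := Bq T d v c + Bq T v d c - d c
  map_add' a b := by
    rw [Bq_add_left, Bq_add_right, Pi.add_apply]
    ring
  map_smul' s a := by
    rw [Bq_smul_left, Bq_smul_right, Pi.smul_apply]
    simp only [smul_eq_mul, RingHom.id_apply]
    ring

theorem sol_iff (T : Tensor p q r) (v : Idx p q r → ℂ) :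
    Sol T (vx v) (vy v) (vz v) ↔ ∀ c, Bq T v v c - v c = 0 := by
  simp only [sub_eq_zero]
  constructor
  · rintro ⟨h1, h2, h3⟩ (c | c | c)
    · exact congrFun h1 c
    · exact congrFun h2 c
    · exact congrFun h3 c
  · intro h
    exact ⟨funext fun c => h (Sum.inl c), funext fun c => h (Sum.inr (Sum.inl c)),
      funext fun c => h (Sum.inr (Sum.inr c))⟩

theorem nd_iff (T : Tensor p q r) (v : Idx p q r → ℂ) :
    ND T (vx v) (vy v) (vz v) ↔ ∀ d, (∀ c, Lin T v c d = 0) → d = 0 := by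
  constructor
  · intro h d hd
    obtain ⟨h1, h2, h3⟩ := h (vx d) (vy d) (vz d)
      (funext fun c => sub_eq_zero.1 (hd (Sum.inl c)))
      (funext fun c => sub_eq_zero.1 (hd (Sum.inr (Sum.inl c))))
      (funext fun c => sub_eq_zero.1 (hd (Sum.inr (Sum.inr c))))
    funext c
    rcases c with c | c | c
    · exact congrFun h1 c
    · exact congrFun h2 c
    · exact congrFun h3 c
  · intro h dx dy dz h1 h2 h3
    have := h (Sum.elim dx (Sum.elim dy dz)) (by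
      rintro (c | c | c)
      · exact sub_eq_zero.2 (congrFun h1 c)
      · exact sub_eq_zero.2 (congrFun h2 c)
      · exact sub_eq_zero.2 (congrFun h3 c))
    exact ⟨funext fun c => congrFun this (Sum.inl c),
      funext fun c => congrFun this (Sum.inr (Sum.inl c)),
      funext fun c => congrFun this (Sum.inr (Sum.inr c))⟩

/-- Exactness at one parameter gives exactness at the generic parameter. -/
theorem generic_Exact {σ ι U : Type} [Fintype σ] [Fintype ι] [AddCommGroup U] [Module ℂ U]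
    (T : (σ → ℂ) → Tensor p q r) (hT : ∀ e, IsPoly (fun t => T t e))
    (ev : (Fin p → ℂ) → (Fin q → ℂ) → (ι → ℂ) →ₗ[ℂ] ℂ)
    (hev : ∀ w, IsPoly (fun v : Idx p q r → ℂ => ev (vx v) (vy v) w))
    (α : (σ → ℂ) → U →ₗ[ℂ] (ι → ℂ)) (hα : ∀ u i, IsPoly (fun t => α t u i))
    (hsol : ∀ t u x y z, Sol (T t) x y z → ev x y (α t u) = 0)
    (t₀ : σ → ℂ) (h₀ : Exact (T t₀) ev (α t₀)) : Generic (fun t => Exact (T t) ev (α t)) := by
  classical
  obtain ⟨n, x, y, z, hs, hn, hex⟩ := h₀.finite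
  let τ : Type := Fin n × Idx p q r
  let v0 : Fin n → Idx p q r → ℂ := fun i => Sum.elim (x i) (Sum.elim (y i) (z i))
  let z₀ : τ → ℂ := fun a => v0 a.1 a.2
  have hs0 : ∀ i c, Bq (T t₀) (v0 i) (v0 i) c - v0 i c = 0 := fun i =>
    (sol_iff (T t₀) (v0 i)).1 (hs i)
  have hn0 : ∀ i d, (∀ c, Lin (T t₀) (v0 i) c d = 0) → d = 0 := fun i =>
    (nd_iff (T t₀) (v0 i)).1 (hn i)
  let tt : (σ ⊕ τ → ℂ) → σ → ℂ := fun w s => w (Sum.inl s)
  let vv : (σ ⊕ τ → ℂ) → Fin n → Idx p q r → ℂ := fun w i c => w (Sum.inr (i, c))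
  have htt : ∀ s, IsPoly (fun w => tt w s) := fun s => IsPoly.coord _
  have hvv : ∀ i c, IsPoly (fun w => vv w i c) := fun i c => IsPoly.coord _
  have hT' : ∀ e, IsPoly (fun w => T (tt w) e) := fun e => (hT e).comp htt
  let N : Submodule ℂ (ι → ℂ) := ⨅ v : (Fin p → ℂ) × (Fin q → ℂ), LinearMap.ker (ev v.1 v.2)
  have hN : ∀ w : N, ∀ x y, ev x y w = 0 := fun w x y => (Submodule.mem_iInf _).1 w.2 (x, y)
  obtain ⟨G₁, hG₁, hG₁0, hG₁e⟩ := exists_poly_exact (σ := σ ⊕ τ) (U := U × N)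
    (fun w => (α (tt w)).coprod N.subtype) (fun w i => ev (vx (vv w i)) (vy (vv w i)))
    (fun u i => by
      simp only [LinearMap.coprod_apply, Pi.add_apply]
      exact ((hα u.1 i).comp htt).add (IsPoly.const _))
    (fun i w => (hev w).comp (hvv i)) (Sum.elim t₀ z₀)
    (fun w hw => by
      obtain ⟨u, hu⟩ := hex w hw
      refine ⟨(u, ⟨w - α t₀ u, (Submodule.mem_iInf _).2 fun v => ?_⟩), ?_⟩
      · simp [hu]
      · simp only [LinearMap.coprod_apply, Submodule.subtype_apply]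
        exact add_sub_cancel _ _)
  have h2 : ∀ i : Fin n, ∃ G : (σ ⊕ τ → ℂ) → ℂ, IsPoly G ∧ G (Sum.elim t₀ z₀) ≠ 0 ∧
      ∀ w, G w ≠ 0 → ND (T (tt w)) (vx (vv w i)) (vy (vv w i)) (vz (vv w i)) := by
    intro i
    obtain ⟨G, hG, hG0, hGe⟩ := exists_poly_exact (σ := σ ⊕ τ) (U := ℂ)
      (fun _ => (0 : ℂ →ₗ[ℂ] (Idx p q r → ℂ))) (fun w c => Lin (T (tt w)) (vv w i) c)
      (fun u i => IsPoly.const 0)
      (fun c d => ((isPoly_Bq (v := fun _ => d) hT' (fun c => IsPoly.const (d c)) (hvv i) c).add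
        (isPoly_Bq (v' := fun _ => d) hT' (hvv i) (fun c => IsPoly.const (d c)) c)).sub
          (IsPoly.const (d c)))
      (Sum.elim t₀ z₀) (fun d hd => ⟨0, (hn0 i d hd).symm⟩)
    refine ⟨G, hG, hG0, fun w hw => (nd_iff _ _).2 fun d hd => ?_⟩
    obtain ⟨u, hu⟩ := hGe w hw (by simp) d hd
    exact hu.symm
  choose G₂ hG₂ hG₂0 hG₂e using h2
  let Φ : (σ ⊕ τ → ℂ) → τ → ℂ := fun w a =>
    Bq (T (tt w)) (vv w a.1) (vv w a.1) a.2 - vv w a.1 a.2
  have hΦ : ∀ a, IsPoly (fun w => Φ w a) := fun a =>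
    (isPoly_Bq hT' (hvv a.1) (hvv a.1) a.2).sub (hvv a.1 a.2)
  have hΦ0 : Φ (Sum.elim t₀ z₀) = 0 := funext fun a => hs0 a.1 a.2
  have hnd : ∀ δ : τ → ℂ,
      (∀ c, HasDerivAt (fun s : ℂ => Φ (Sum.elim t₀ (z₀ + s • δ)) c) 0 0) → δ = 0 := by
    intro δ hδ
    funext a
    obtain ⟨i, c⟩ := a
    let v₀ : Idx p q r → ℂ := v0 i
    let d : Idx p q r → ℂ := fun c => δ (i, c)
    have h3 : d = 0 := by
      refine hn0 i d fun c => ?_
      have h4 := hδ (i, c)
      have h5 : (fun s : ℂ => Φ (Sum.elim t₀ (z₀ + s • δ)) (i, c)) =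
          fun s : ℂ => (Bq (T t₀) v₀ v₀ c - v₀ c) + s * Lin (T t₀) v₀ c d +
            s ^ 2 * Bq (T t₀) d d c := by
        funext s
        have h7 : vv (Sum.elim t₀ (z₀ + s • δ)) i = v₀ + s • d := rfl
        have h8 : tt (Sum.elim t₀ (z₀ + s • δ)) = t₀ := rfl
        simp only [Φ, h7, h8, Bq_add_left, Bq_add_right, Bq_smul_left, Bq_smul_right, Lin,
          LinearMap.coe_mk, AddHom.coe_mk, Pi.add_apply, Pi.smul_apply, smul_eq_mul]
        ring
      rw [h5] at h4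
      have h6 := (((hasDerivAt_id (0 : ℂ)).mul_const (Lin (T t₀) v₀ c d)).const_add
        (Bq (T t₀) v₀ v₀ c - v₀ c)).add
        ((hasDerivAt_pow 2 (0 : ℂ)).mul_const (Bq (T t₀) d d c))
      simpa using h6.unique h4
    exact congrFun h3 c
  have key := generic_persist Φ hΦ (fun w => G₁ w * ∏ i, G₂ i w) (hG₁.mul (IsPoly.prod _ hG₂))
    t₀ z₀ hΦ0 (mul_ne_zero hG₁0 (Finset.prod_ne_zero_iff.2 fun i _ => hG₂0 i)) hnd
  refine key.mono ?_
  rintro t ⟨z', hz, hG⟩ w hw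
  have htt' : tt (Sum.elim t z') = t := rfl
  have hG' : G₁ (Sum.elim t z') * ∏ i, G₂ i (Sum.elim t z') ≠ 0 := hG
  have hs' : ∀ i, Sol (T t) (vx (vv (Sum.elim t z') i)) (vy (vv (Sum.elim t z') i))
      (vz (vv (Sum.elim t z') i)) := fun i =>
    (sol_iff (T t) (vv (Sum.elim t z') i)).2 fun c => congrFun hz (i, c)
  have hn' : ∀ i, ND (T t) (vx (vv (Sum.elim t z') i)) (vy (vv (Sum.elim t z') i))
      (vz (vv (Sum.elim t z') i)) := fun i =>
    hG₂e i (Sum.elim t z') (Finset.prod_ne_zero_iff.1 (right_ne_zero_of_mul hG') i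
      (Finset.mem_univ _))
  have h9 := hG₁e (Sum.elim t z') (left_ne_zero_of_mul hG')
  simp only [htt', LinearMap.coprod_apply, Submodule.subtype_apply, map_add, hN, add_zero] at h9
  obtain ⟨u, hu⟩ := h9 (fun u i => hsol t u.1 _ _ _ (hs' i)) w fun i => hw _ _ _ (hs' i) (hn' i)
  refine ⟨u.1, fun x y => ?_⟩
  rw [← hu, map_add, hN, add_zero]

end Pool.Agent.Lib.MP_ff9d8c_ag
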