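import Pool.Agent.Lib.MP_ff9d8c_ag.Good

set_option autoImplicit false

namespace Pool.Agent.Lib.MP_ff9d8c_ag

open Matrix

variable {p q r : ℕ}

/-- Biquadratic forms divisible by `y₀`. -/
def ev3 (x : Fin p → ℂ) (y : Fin (q + 1) → ℂ) : (Fin p × Fin p × Fin (q + 1) → ℂ) →ₗ[ℂ] ℂ where
  toFun c := y 0 * ∑ e, c e * (x e.1 * x e.2.1 * y e.2.2)
  map_add' a b := by simp [add_mul, mul_add, Finset.sum_add_distrib]
  map_smul' s a := by simp [Finset.mul_sum, mul_assoc, mul_left_comm]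

def alpha3 (T : Tensor p q r) (ξ : Fin p → ℂ) :
    (Fin q → ℂ) →ₗ[ℂ] (Fin p × Fin p × Fin (q + 1) → ℂ) where
  toFun u e := Fin.cases (motive := fun _ => ℂ) 0
    (fun j' => (∑ j, u j * ∑ k, T (e.1, j, k) * T (e.2.1, j', k)) - u j' * (ξ e.1 * ξ e.2.1)) e.2.2
  map_add' a b := by
    funext ⟨i, i', j⟩
    refine Fin.cases ?_ (fun j => ?_) j
    · simp
    · simp [add_mul, Finset.sum_add_distrib]
      ring
  map_smul' s a := by
    funext ⟨i, i', j⟩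
    refine Fin.cases ?_ (fun j => ?_) j
    · simp
    · simp [mul_sub, Finset.mul_sum, mul_assoc]

theorem ev3_cons (x : Fin p → ℂ) (y₀ : ℂ) (y : Fin q → ℂ) (c : Fin p × Fin p × Fin (q + 1) → ℂ) :
    ev3 x (Fin.cons y₀ y) c = y₀ * (y₀ * ∑ i, ∑ i', c (i, i', 0) * x i * x i' +
      ∑ j, y j * ∑ i, ∑ i', c (i, i', j.succ) * x i * x i') := by
  simp only [ev3, LinearMap.coe_mk, AddHom.coe_mk, Fin.cons_zero, Fintype.sum_prod_type,
    Fin.sum_univ_succ, Fin.cons_succ, Finset.sum_add_distrib]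
  congr 2
  · simp only [Finset.mul_sum]
    exact Finset.sum_congr rfl fun _ _ => Finset.sum_congr rfl fun _ _ => by ring
  · simp only [Finset.mul_sum]
    symm
    rw [Finset.sum_comm]
    refine Finset.sum_congr rfl fun _ _ => ?_
    rw [Finset.sum_comm]
    exact Finset.sum_congr rfl fun _ _ => Finset.sum_congr rfl fun _ _ => by ring

theorem ev3_alpha3 (T : Tensor p q r) (ξ : Fin p → ℂ) (u : Fin q → ℂ) (x : Fin p → ℂ) (y₀ : ℂ)
    (y : Fin q → ℂ) : ev3 x (Fin.cons y₀ y) (alpha3 T ξ u) =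
      y₀ * (u ⬝ᵥ contr2 T x (contr3 T x y) - (ξ ⬝ᵥ x) ^ 2 * (u ⬝ᵥ y)) := by
  rw [ev3_cons]
  simp only [alpha3, LinearMap.coe_mk, AddHom.coe_mk, Fin.cases_zero, Fin.cases_succ, zero_mul,
    Finset.sum_const_zero, mul_zero, zero_add, sub_mul, mul_sub, Finset.sum_sub_distrib]
  congr 2
  · rw [← dot_contr3_eq_contr2]
    simp only [dotProduct, contr3, Finset.sum_mul, Finset.mul_sum]
    have h : ∀ f : Fin r → Fin p → Fin q → Fin p → Fin q → ℂ,
        ∑ k, ∑ i', ∑ j', ∑ i, ∑ j, f k i' j' i j = ∑ j', ∑ i, ∑ i', ∑ j, ∑ k, f k i' j' i j := by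
      intro f
      simp only [← Fintype.sum_prod_type']
      exact Fintype.sum_equiv
        { toFun := fun a => (a.2.2.1, a.2.2.2.1, a.2.1, a.2.2.2.2, a.1)
          invFun := fun a => (a.2.2.2.2, a.2.2.1, a.1, a.2.1, a.2.2.2.1)
          left_inv := fun _ => rfl
          right_inv := fun _ => rfl } _ _ fun _ => rfl
    rw [h]
    refine Finset.sum_congr rfl fun _ _ => Finset.sum_congr rfl fun _ _ =>
      Finset.sum_congr rfl fun _ _ => Finset.sum_congr rfl fun _ _ =>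
      Finset.sum_congr rfl fun _ _ => by ring
  · simp only [dotProduct, pow_two, Finset.sum_mul, Finset.mul_sum]
    refine Finset.sum_congr rfl fun _ _ => Finset.sum_congr rfl fun _ _ =>
      Finset.sum_congr rfl fun _ _ => by ring

theorem cons_inj {n : ℕ} {a b : ℂ} {u v : Fin n → ℂ}
    (h : (Fin.cons a u : Fin (n + 1) → ℂ) = Fin.cons b v) : a = b ∧ u = v :=
  ⟨congrFun h 0, funext fun i => congrFun h i.succ⟩

theorem sol_ext_iff (T : Tensor p q r) (ξ x : Fin p → ℂ) (y₀ z₀ : ℂ) (y : Fin q → ℂ)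
    (z : Fin r → ℂ) : Sol (ext T ξ) x (Fin.cons y₀ y) (Fin.cons z₀ z) ↔
      (y₀ * z₀) • ξ + contr1 T y z = x ∧ (ξ ⬝ᵥ x * z₀ = y₀ ∧ contr2 T x z = y) ∧
        (ξ ⬝ᵥ x * y₀ = z₀ ∧ contr3 T x y = z) := by
  simp only [Sol, contr1_ext, contr2_ext, contr3_ext, Fin.cons_inj]

theorem cons_add {n : ℕ} (a b : ℂ) (u v : Fin n → ℂ) :
    (Fin.cons a u : Fin (n + 1) → ℂ) + Fin.cons b v = Fin.cons (a + b) (u + v) := by
  funext i
  refine Fin.cases ?_ (fun i => ?_) i <;> simp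

theorem nd_ext (T : Tensor p q r) (ξ x : Fin p → ℂ) (y₀ z₀ : ℂ) (y : Fin q → ℂ) (z : Fin r → ℂ)
    (h : ∀ dx dy₀ dy dz₀ dz,
      (dy₀ * z₀) • ξ + contr1 T dy z + ((y₀ * dz₀) • ξ + contr1 T y dz) = dx →
      ξ ⬝ᵥ dx * z₀ + ξ ⬝ᵥ x * dz₀ = dy₀ → contr2 T dx z + contr2 T x dz = dy →
      ξ ⬝ᵥ dx * y₀ + ξ ⬝ᵥ x * dy₀ = dz₀ → contr3 T dx y + contr3 T x dy = dz →
      dx = 0 ∧ dy₀ = 0 ∧ dy = 0 ∧ dz₀ = 0 ∧ dz = 0) :
    ND (ext T ξ) x (Fin.cons y₀ y) (Fin.cons z₀ z) := by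
  intro dx dy dz e1 e2 e3
  rw [← Fin.cons_self_tail dy, ← Fin.cons_self_tail dz] at e1 e2 e3 ⊢
  rw [contr1_ext, contr1_ext] at e1
  rw [contr2_ext, contr2_ext, cons_add] at e2
  rw [contr3_ext, contr3_ext, cons_add] at e3
  obtain ⟨a, b, c, d, e⟩ := h dx _ _ _ _ e1 (cons_inj e2).1 (cons_inj e2).2 (cons_inj e3).1
    (cons_inj e3).2
  rw [b, c, d, e]
  refine ⟨a, ?_, ?_⟩ <;> funext i <;> refine Fin.cases ?_ (fun i => ?_) i <;> rfl

/-- The new equations generate the forms divisible by `y₀` vanishing at the solutions. -/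
def New (T : Tensor p q r) (ξ : Fin p → ℂ) : Prop := Exact (ext T ξ) ev3 (alpha3 T ξ)

theorem generic_new (h : ∃ (T : Tensor p q r) (ξ : Fin p → ℂ), New T ξ) :
    Generic (fun t : (Fin p × Fin q × Fin r) ⊕ Fin p → ℂ => New (t ∘ Sum.inl) (t ∘ Sum.inr)) := by
  obtain ⟨T₀, ξ₀, h⟩ := h
  refine generic_Exact (fun t => ext (t ∘ Sum.inl) (t ∘ Sum.inr))
    (isPoly_ext (fun e => IsPoly.coord _) (fun e => IsPoly.coord _)) ev3 (fun w => ?_)
    (fun t => alpha3 (t ∘ Sum.inl) (t ∘ Sum.inr)) (fun u e => ?_) ?_ (Sum.elim T₀ ξ₀) h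
  · exact (IsPoly.coord _).mul (IsPoly.sum _ fun e => (IsPoly.const _).mul
      (((IsPoly.coord _).mul (IsPoly.coord _)).mul (IsPoly.coord _)))
  · obtain ⟨i, i', j⟩ := e
    refine Fin.cases ?_ (fun j => ?_) j
    · exact IsPoly.const 0
    · simp only [alpha3, LinearMap.coe_mk, AddHom.coe_mk, Fin.cases_succ]
      exact (IsPoly.sum _ fun _ => (IsPoly.const _).mul (IsPoly.sum _ fun _ =>
        (IsPoly.coord _).mul (IsPoly.coord _))).sub
        ((IsPoly.const _).mul ((IsPoly.coord _).mul (IsPoly.coord _)))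
  · intro t u x y z hs
    rw [← Fin.cons_self_tail y, ← Fin.cons_self_tail z, sol_ext_iff] at hs
    obtain ⟨-, ⟨h1, h2⟩, h3, h4⟩ := hs
    rw [← Fin.cons_self_tail y, ev3_alpha3, h4, h2]
    linear_combination (-(u ⬝ᵥ Fin.tail y)) * h1 - (u ⬝ᵥ Fin.tail y) * ((t ∘ Sum.inr) ⬝ᵥ x) * h3

def restr (c : (Fin p × Fin (q + 1)) × (Fin p × Fin (q + 1)) → ℂ) :
    (Fin p × Fin q) × (Fin p × Fin q) → ℂ := fun e => c ((e.1.1, e.1.2.succ), (e.2.1, e.2.2.succ))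

def cut (c : (Fin p × Fin (q + 1)) × (Fin p × Fin (q + 1)) → ℂ) :
    Fin p × Fin p × Fin (q + 1) → ℂ := fun e =>
  Fin.cases (motive := fun _ => ℂ) (c ((e.1, 0), (e.2.1, 0)))
    (fun j => c ((e.1, 0), (e.2.1, j.succ)) + c ((e.1, j.succ), (e.2.1, 0))) e.2.2

theorem ev4_cons (c : (Fin p × Fin (q + 1)) × (Fin p × Fin (q + 1)) → ℂ) (x : Fin p → ℂ) (y₀ : ℂ)
    (y : Fin q → ℂ) :
    ev4 x (Fin.cons y₀ y) c = ev4 x y (restr c) + ev3 x (Fin.cons y₀ y) (cut c) := by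
  rw [ev3_cons]
  simp only [ev4, LinearMap.coe_mk, AddHom.coe_mk, Fintype.sum_prod_type, Fin.sum_univ_succ,
    Fin.cons_zero, Fin.cons_succ, Finset.sum_add_distrib, restr, cut, Fin.cases_zero,
    Fin.cases_succ, mul_add, add_mul, Finset.mul_sum]
  have h1 : ∀ f : Fin p → Fin p → Fin q → ℂ,
      ∑ j, ∑ i, ∑ i', f i i' j = ∑ i, ∑ i', ∑ j, f i i' j := fun f => by
    rw [Finset.sum_comm]
    exact Finset.sum_congr rfl fun _ _ => Finset.sum_comm
  have h2 : ∀ f : Fin p → Fin p → Fin q → ℂ,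
      ∑ j, ∑ i, ∑ i', f i i' j = ∑ i, ∑ j, ∑ i', f i i' j := fun f => Finset.sum_comm
  rw [h1 (fun i i' j => y₀ * (y j * (c ((i, 0), i', j.succ) * x i * x i'))),
    h2 (fun i i' j => y₀ * (y j * (c ((i, j.succ), i', 0) * x i * x i')))]
  have h3 : ∀ a b c d a' b' c' : ℂ, a = a' → b = b' → c = c' →
      a + b + (c + d) = d + (a' + (c' + b')) := by
    rintro a b c d _ _ _ rfl rfl rfl
    ring
  apply h3
  · exact Finset.sum_congr rfl fun _ _ => Finset.sum_congr rfl fun _ _ => by ring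
  · exact Finset.sum_congr rfl fun _ _ => Finset.sum_congr rfl fun _ _ =>
      Finset.sum_congr rfl fun _ _ => by ring
  · exact Finset.sum_congr rfl fun _ _ => Finset.sum_congr rfl fun _ _ =>
      Finset.sum_congr rfl fun _ _ => by ring

/-- Extension of a skew parameter: `ω` on the old indices and `u` in the new row. -/
def extSkew (ω : Fin q × Fin q → ℂ) (u : Fin q → ℂ) : Fin (q + 1) × Fin (q + 1) → ℂ := fun e =>
  Fin.cases (motive := fun _ => ℂ) (Fin.cases (motive := fun _ => ℂ) 0 u e.2)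
    (fun j => Fin.cases (motive := fun _ => ℂ) 0 (fun j' => ω (j, j')) e.2) e.1

theorem skew_extSkew (ω : Fin q × Fin q → ℂ) (u : Fin q → ℂ) (a b : ℂ) (v w : Fin q → ℂ) :
    skew (extSkew ω u) (Fin.cons a v) (Fin.cons b w) =
      skew ω v w + (a * (u ⬝ᵥ w) - b * (u ⬝ᵥ v)) := by
  simp only [skew, extSkew, Fin.sum_univ_succ, Fin.cases_zero, Fin.cases_succ, Fin.cons_zero,
    Fin.cons_succ, Finset.sum_add_distrib, dotProduct, Finset.mul_sum]
  have h1 : ∑ i, (u i - 0) * a * w i = ∑ i, a * (u i * w i) :=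
    Finset.sum_congr rfl fun _ _ => by ring
  have h2 : ∑ i, (0 - u i) * v i * b = -∑ i, b * (u i * v i) := by
    rw [← Finset.sum_neg_distrib]
    exact Finset.sum_congr rfl fun _ _ => by ring
  rw [h1, h2]
  ring

theorem good_step (h : ∃ T : Tensor p q r, Good T)
    (h' : ∃ (T : Tensor p q r) (ξ : Fin p → ℂ), New T ξ) :
    ∃ T : Tensor p (q + 1) (r + 1), Good T := by
  obtain ⟨T, hT, hN⟩ := Generic.fibre (generic_new h') (generic_good h)
  obtain ⟨n, x, y, z, hs, hn, hex⟩ := ((good_iff T).1 hT).finite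
  have h1 : Generic (fun ξ : Fin p → ℂ => ∀ i, (ξ ⬝ᵥ x i) ^ 2 - 1 ≠ 0) := by
    refine Generic.forall_finite fun i => ?_
    refine Generic.of_poly (f := fun ξ => (ξ ⬝ᵥ x i) ^ 2 - 1) ?_ (t₀ := 0) (by simp) fun _ h => h
    simp only [pow_two]
    have : IsPoly (fun ξ : Fin p → ℂ => ξ ⬝ᵥ x i) :=
      IsPoly.sum _ fun _ => (IsPoly.coord _).mul (IsPoly.const _)
    exact (this.mul this).sub (IsPoly.const _)
  obtain ⟨ξ, hξ, hξ'⟩ := (hN.and h1).ex
  have hnew : New T ξ := hξ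
  refine ⟨ext T ξ, fun c hc => ?_⟩
  obtain ⟨⟨ω₁, ω₂⟩, hω⟩ := hex (restr c) fun i => by
    have h2 := hc (x i) (Fin.cons 0 (y i)) (Fin.cons 0 (z i))
      ((sol_ext_iff ..).2 ⟨by simpa using (hs i).1, ⟨by simp, (hs i).2.1⟩, by simp, (hs i).2.2⟩)
      (nd_ext _ _ _ _ _ _ _ fun dx dy₀ dy dz₀ dz e1 e2 e3 e4 e5 => by
        have h3 : dy₀ = 0 := by
          apply (mul_eq_zero.1 (_ : ((ξ ⬝ᵥ x i) ^ 2 - 1) * dy₀ = 0)).resolve_left (hξ' i)
          linear_combination e2 + (ξ ⬝ᵥ x i) * e4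
        have h4 : dz₀ = 0 := by
          rw [← e4, h3]
          simp
        obtain ⟨a, b, c⟩ := hn i dx dy dz (by simpa using e1) e3 e5
        exact ⟨a, h3, b, h4, c⟩)
    rw [ev4_cons, ev3_cons] at h2
    simpa using h2
  simp only [ev4_gam] at hω
  let c' := c - (coef (ext T ξ) ∘ₗ (gam1 (ext T ξ)).coprod (gam2 (ext T ξ))) (ω₁, extSkew ω₂ 0)
  have hc' : ∀ x y, ev4 x y c' = ev4 x y c -
      (skew ω₁ x (contr1 (ext T ξ) y (contr3 (ext T ξ) x y)) +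
        skew (extSkew ω₂ 0) y (contr2 (ext T ξ) x (contr3 (ext T ξ) x y))) := fun x y => by
    rw [map_sub, ev4_gam]
  have h5 : ∀ x y, ev4 x y (restr c') = 0 := fun x y => by
    have h6 := hc' x (Fin.cons 0 y)
    rw [ev4_cons, ev4_cons, ev3_cons, ev3_cons, contr3_ext, contr1_ext, contr2_ext, skew_extSkew,
      hω] at h6
    simpa using h6
  obtain ⟨u, hu⟩ := hnew (cut c') fun x y z hs hn => by
    have h6 := hc' x y
    rw [hc x y z hs hn, hs.2.2, hs.1, hs.2.1, skew_self, skew_self, ← Fin.cons_self_tail y,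
      ev4_cons, h5] at h6
    simpa using h6
  refine ⟨ω₁, extSkew ω₂ u, fun x y => ?_⟩
  have h6 := hc' x y
  rw [← Fin.cons_self_tail y] at h6 ⊢
  rw [ev4_cons c', h5, hu, ev3_alpha3] at h6
  rw [contr3_ext, contr2_ext, skew_extSkew] at h6 ⊢
  simp only [zero_dotProduct] at h6
  linear_combination -h6

end Pool.Agent.Lib.MP_ff9d8c_ag
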