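import Pool.Agent.Lib.MP_ff9d8c_ag.Wit

set_option autoImplicit false

namespace Pool.Agent.Lib.MP_ff9d8c_ag

open Matrix

variable {p q r : ℕ}

theorem Generic.comp_inj {σ τ : Type} {P : (τ → ℂ) → Prop} (h : Generic P) {f : τ → σ}
    (hf : Function.Injective f) : Generic (fun t : σ → ℂ => P (t ∘ f)) := by
  obtain ⟨g, hg, h⟩ := h
  refine ⟨MvPolynomial.rename f g, fun h0 => hg (MvPolynomial.rename_injective f hf
    (by simpa using h0)), fun t ht => h _ ?_⟩
  rwa [MvPolynomial.eval_rename] at ht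

theorem bil_symm {ι : Type} [Fintype ι] [DecidableEq ι] (c : ι → ι → ℂ)
    (h : ∀ x, bil c x x = 0) (i i' : ι) : c i i' + c i' i = 0 := by
  have h1 := h (Pi.single i 1)
  have h2 := h (Pi.single i' 1)
  have h3 := h (Pi.single i 1 + Pi.single i' 1)
  simp only [bil_add_left, bil_add_right, bil_single] at h1 h2 h3
  linear_combination h3 - h1 - h2

theorem lin_eq_zero (a : Fin p → ℂ) (o : Fin p) (h : ∀ x : Fin p → ℂ, (a ⬝ᵥ x) * x o = 0) :
    a = 0 := by
  have h0 : a o = 0 := by simpa using h (Pi.single o 1)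
  funext i
  by_cases hi : i = o
  · rw [hi, h0]
    rfl
  · have := h (Pi.single o 1 + Pi.single i 1)
    rw [dotProduct_add, Pi.add_apply] at this
    simpa [h0, Ne.symm hi] using this

/-- The only syzygies of bidegree `(1, 1)` are the Koszul ones. -/
def Kos (T : Tensor p q r) : Prop := ∀ W, (∀ x y, phi T W x y = 0) → ∃ ω, gam3 T ω = W

/-- No syzygies of bidegree `(1, 0)`. -/
def NoLin (T : Tensor p q r) : Prop :=
  ∀ l : Fin r × Fin p → ℂ, (∀ x y, ∑ k, (∑ i, l (k, i) * x i) * contr3 T x y k = 0) → l = 0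

theorem phi_gam3 (T : Tensor p q r) (ω : Fin r × Fin r → ℂ) (x : Fin p → ℂ) (y : Fin q → ℂ) :
    phi T (gam3 T ω) x y = 0 := by
  rw [phi, dot_gam3, skew_self]

theorem isPoly_phi (W : Tensor p q r) (x : Fin p → ℂ) (y : Fin q → ℂ) :
    IsPoly (fun T : Tensor p q r => phi T W x y) := by
  simp only [phi, dotProduct]
  exact IsPoly.sum _ fun k => (IsPoly.const _).mul
    (isPoly_contr3 (x := fun _ => x) (y := fun _ => y)
    (fun e => IsPoly.coord e) (fun _ => IsPoly.const _) (fun _ => IsPoly.const _) k)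

theorem generic_kos (h : ∃ T : Tensor p q r, Kos T) : Generic (fun T : Tensor p q r => Kos T) := by
  obtain ⟨T₀, h⟩ := h
  have := generic_exact (κ := (Fin p → ℂ) × (Fin q → ℂ)) (fun T : Tensor p q r => gam3 T)
    (fun T v => ev4 v.1 v.2 ∘ₗ coef T) (fun u i => ?_) (fun v w => ?_) (fun T u v => ?_) T₀
    (fun w hw => h w fun x y => by simpa [ev4_coef] using hw (x, y))
  · exact this.mono fun T hT W hW => hT W fun v => by simpa [ev4_coef] using hW v.1 v.2
  · simp only [gam3, LinearMap.coe_mk, AddHom.coe_mk]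
    exact IsPoly.sum _ fun _ => (IsPoly.const _).mul (IsPoly.coord _)
  · simp only [LinearMap.comp_apply, ev4_coef]
    exact isPoly_phi _ _ _
  · simp only [LinearMap.comp_apply, ev4_coef, phi_gam3]

def linSyz (T : Tensor p q r) (x : Fin p → ℂ) (y : Fin q → ℂ) : (Fin r × Fin p → ℂ) →ₗ[ℂ] ℂ where
  toFun l := ∑ k, (∑ i, l (k, i) * x i) * contr3 T x y k
  map_add' a b := by simp [add_mul, Finset.sum_add_distrib]
  map_smul' s a := by simp [Finset.mul_sum, Finset.sum_mul, mul_assoc]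

theorem generic_nolin (h : ∃ T : Tensor p q r, NoLin T) :
    Generic (fun T : Tensor p q r => NoLin T) := by
  obtain ⟨T₀, h⟩ := h
  have := generic_exact (κ := (Fin p → ℂ) × (Fin q → ℂ))
    (fun _ : Tensor p q r => (0 : ℂ →ₗ[ℂ] (Fin r × Fin p → ℂ)))
    (fun T v => linSyz T v.1 v.2) (fun u i => IsPoly.const _) (fun v w => ?_)
    (fun T u v => by simp) T₀ (fun w hw => ⟨0, (h w fun x y => hw (x, y)).symm⟩)
  · refine this.mono fun T hT W hW => ?_
    obtain ⟨u, hu⟩ := hT W fun v => hW v.1 v.2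
    exact hu.symm
  · simp only [linSyz, LinearMap.coe_mk, AddHom.coe_mk]
    exact IsPoly.sum _ fun k => (IsPoly.const _).mul
      (isPoly_contr3 (x := fun _ => v.1) (y := fun _ => v.2)
      (fun e => IsPoly.coord e) (fun _ => IsPoly.const _) (fun _ => IsPoly.const _) k)

theorem Kos.swap {T : Tensor p q r} (h : Kos T) : Kos (swap T) := by
  intro W hW
  obtain ⟨ω, hω⟩ := h (MP_ff9d8c_ag.swap W) fun x y => by
    rw [← hW y x, phi, phi, contr3_swap, contr3_swap]
  exact ⟨ω, funext fun e => congrFun hω (e.2.1, e.1, e.2.2)⟩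

/-- Restriction to `x₀ = 0`. -/
def tail (T : Tensor (p + 1) q r) : Tensor p q r := fun e => T (e.1.succ, e.2)

theorem contr3_tail (T : Tensor (p + 1) q r) (x : Fin p → ℂ) (y : Fin q → ℂ) :
    contr3 (tail T) x y = contr3 T (Fin.cons 0 x) y := by
  funext k
  simp [contr3, tail, Fin.sum_univ_succ]

theorem kos_step {T : Tensor (p + 1) q r} (h : Kos T) (h' : NoLin (tail T)) :
    Kos (ext T (Pi.single 0 1)) := by
  intro W hW
  let W' : Tensor (p + 1) q r := fun e => W (e.1, e.2.1.succ, e.2.2.succ)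
  have h1 : ∀ x y₀ y, (y₀ * ∑ i, W (i, 0, 0) * x i + ∑ i, ∑ j, W (i, j.succ, 0) * x i * y j) *
      (x 0 * y₀) + (y₀ * ∑ k, (∑ i, W (i, 0, k.succ) * x i) * contr3 T x y k + phi T W' x y) = 0 := by
    intro x y₀ y
    rw [← hW x (Fin.cons y₀ y)]
    have h2 : ∀ k, contr3 W x (Fin.cons y₀ y) k =
        y₀ * ∑ i, W (i, 0, k) * x i + ∑ i, ∑ j, W (i, j.succ, k) * x i * y j := fun k => by
      simp only [contr3, Fin.sum_univ_succ (n := q), Fin.cons_zero, Fin.cons_succ,
        Finset.sum_add_distrib, Finset.mul_sum]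
      congr 1
      exact Finset.sum_congr rfl fun _ _ => by ring
    simp only [phi, contr3_ext, dotProduct, Fin.sum_univ_succ (n := r), Fin.cons_zero,
      Fin.cons_succ, h2]
    congr 1
    · simp [Pi.single_apply]
    · simp only [Finset.mul_sum (s := (Finset.univ : Finset (Fin r))), ← Finset.sum_add_distrib]
      refine Finset.sum_congr rfl fun _ _ => ?_
      simp only [contr3, W']
      ring
  have h2 : ∀ x y, phi T W' x y = 0 := fun x y => by simpa using h1 x 0 y
  obtain ⟨ω, hω⟩ := h W' h2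
  have h3 : (fun i => W (i, 0, 0)) = 0 := lin_eq_zero _ 0 fun x => by
    simp only [dotProduct]
    linear_combination (h1 x 1 0 + h1 x (-1) 0) / 2 - h2 x 0
  have h4 : ∀ x y, (∑ i, ∑ j, W (i, j.succ, 0) * x i * y j) * x 0 +
      ∑ k, (∑ i, W (i, 0, k.succ) * x i) * contr3 T x y k = 0 := fun x y => by
    linear_combination (h1 x 1 y - h1 x (-1) y) / 2
  have h5 := h' (fun e => W (e.2.succ, 0, e.1.succ)) fun x y => by
    have := h4 (Fin.cons 0 x) y
    simpa [contr3_tail, Fin.sum_univ_succ] using this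
  have h5' : ∀ k i, W (Fin.succ i, 0, Fin.succ k) = 0 := fun k i => congrFun h5 (k, i)
  have h6 : ∀ j, (fun i => W (i, Fin.succ j, 0) + ∑ k, W (0, 0, k.succ) * T (i, j, k)) = 0 :=
    fun j => lin_eq_zero _ 0 fun x => by
      rw [← h4 x (Pi.single j 1)]
      simp only [dotProduct, Fin.sum_univ_succ (f := fun i => W (i, 0, _) * x i), h5', add_mul,
        Finset.sum_add_distrib, contr3, Pi.single_apply]
      simp only [mul_ite, mul_one, mul_zero, Finset.sum_ite_eq', Finset.mem_univ, if_true,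
        zero_mul, Finset.sum_const_zero, add_zero, Finset.sum_mul, Finset.mul_sum]
      congr 1
      rw [Finset.sum_comm]
      exact Finset.sum_congr rfl fun _ _ => Finset.sum_congr rfl fun _ _ => by ring
  refine ⟨extSkew ω fun k => -W (0, 0, k.succ), ?_⟩
  funext ⟨i, j, k⟩
  refine Fin.cases ?_ (fun j => ?_) j <;> refine Fin.cases ?_ (fun k => ?_) k
  · simpa [gam3, ext, extSkew, Fin.sum_univ_succ] using (congrFun h3 i).symm
  · refine Fin.cases ?_ (fun i => ?_) i <;> simp [gam3, ext, extSkew, Fin.sum_univ_succ, h5']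
  · have := congrFun (h6 j) i
    simp only [Pi.zero_apply] at this
    simp [gam3, ext, extSkew, Fin.sum_univ_succ]
    linear_combination -this
  · have := congrFun hω (i, j, k)
    simpa [gam3, ext, extSkew, Fin.sum_univ_succ] using this

theorem nolin_step {T : Tensor p q r} (h : NoLin T) (o : Fin p) :
    NoLin (ext T (Pi.single o 1)) := by
  intro l hl
  have h1 : ∀ x y₀ y, (∑ i, l (0, i) * x i) * (x o * y₀) +
      ∑ k, (∑ i, l (k.succ, i) * x i) * contr3 T x y k = 0 := by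
    intro x y₀ y
    rw [← hl x (Fin.cons y₀ y)]
    simp [contr3_ext, Fin.sum_univ_succ]
  have h2 := h (fun e => l (e.1.succ, e.2)) fun x y => by simpa using h1 x 0 y
  have h3 : (fun i => l (0, i)) = 0 := lin_eq_zero _ o fun x => by
    simp only [dotProduct]
    linear_combination h1 x 1 0 - h1 x 0 0
  funext ⟨k, i⟩
  refine Fin.cases ?_ (fun k => ?_) k
  · exact congrFun h3 i
  · exact congrFun h2 (k, i)

/-- The linear forms `∑ xᵢ, x₀, x₁, …`. -/
def zeta (a : Fin (p + 1)) (i : Fin p) : ℂ :=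
  Fin.cases (motive := fun _ => ℂ) 1 (fun a' => if a' = i then 1 else 0) a

theorem block (l : Fin (p + 1) → Fin p → ℂ)
    (h1 : ∀ i i', ∑ a, l a i * zeta a i' + ∑ a, l a i' * zeta a i = 0)
    (h2 : ∀ i i', ∑ a, l a i * (zeta a i' * (a : ℕ)) + ∑ a, l a i' * (zeta a i * (a : ℕ)) = 0) :
    l = 0 := by
  simp [Fin.sum_univ_succ, zeta] at h1 h2
  have h3 : ∀ i : Fin p, l i.succ i = 0 := fun i => by
    apply mul_left_cancel₀ (Nat.cast_add_one_ne_zero (R := ℂ) i)
    linear_combination h2 i i / 2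
  have h4 : ∀ i, l 0 i = 0 := fun i => by linear_combination h1 i i / 2 - h3 i
  funext a i
  refine Fin.cases (h4 i) (fun a => ?_) a
  by_cases h : a = i
  · rw [h, h3]
    rfl
  · have h5 : ((a : ℕ) : ℂ) - (i : ℕ) ≠ 0 := by
      rw [sub_ne_zero]
      exact fun h6 => h (Fin.ext (by exact_mod_cast h6))
    apply mul_left_cancel₀ h5
    change _ = _ * (0 : ℂ)
    linear_combination h2 i a - ((i : ℕ) + 1) * (h1 i a - h4 i - h4 a)

theorem nolin_blocks (a : Fin r → Fin (p + 1)) (b : Fin r → ℕ) (hb : ∀ k, 2 * b k + 1 < q)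
    (hab : ∀ k k', a k = a k' → b k = b k' → k = k') :
    NoLin (fun e : Fin p × Fin q × Fin r => zeta (a e.2.2) e.1 *
      if (e.2.1 : ℕ) = 2 * b e.2.2 then 1 else
        if (e.2.1 : ℕ) = 2 * b e.2.2 + 1 then ((a e.2.2 : ℕ) : ℂ) else 0) := by
  intro l hl
  have h1 : ∀ (j : Fin q) (i i' : Fin p), _ := fun j => bil_symm (fun i i' => ∑ k, l (k, i) *
      (zeta (a k) i' * if (j : ℕ) = 2 * b k then 1 else
        if (j : ℕ) = 2 * b k + 1 then ((a k : ℕ) : ℂ) else 0)) fun x => by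
    refine Eq.trans ?_ (hl x (Pi.single j 1))
    simp only [bil, contr3, Pi.single_apply, mul_ite (_ = j), mul_one, mul_zero,
      Finset.sum_ite_eq', Finset.mem_univ, if_true, Finset.sum_mul, Finset.mul_sum]
    rw [Finset.sum_comm]
    symm
    rw [Finset.sum_comm]
    refine Finset.sum_congr rfl fun _ _ => ?_
    rw [Finset.sum_comm]
    exact Finset.sum_congr rfl fun _ _ => Finset.sum_congr rfl fun _ _ => by ring
  funext ⟨k₀, i₀⟩
  let L : Fin (p + 1) → Fin p → ℂ := fun α i => ∑ k, if a k = α ∧ b k = b k₀ then l (k, i) else 0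
  have hL : ∀ (f : Fin (p + 1) → ℂ) (i : Fin p), ∑ α, L α i * f α =
      ∑ k, l (k, i) * if b k = b k₀ then f (a k) else 0 := by
    intro f i
    simp only [L, Finset.sum_mul]
    rw [Finset.sum_comm]
    refine Finset.sum_congr rfl fun k _ => ?_
    by_cases h : b k = b k₀ <;> simp [h]
  have h2 : L = 0 := block L (fun i i' => by
      rw [hL, hL]
      refine Eq.trans ?_ (h1 ⟨2 * b k₀, by have := hb k₀; omega⟩ i i')
      congr 1 <;> refine Finset.sum_congr rfl fun k _ => ?_ <;> by_cases h : b k = b k₀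
      all_goals first
        | (simp [h, show ¬ (b k₀ = b k) by omega, show ¬ (2 * b k₀ = 2 * b k + 1) by omega]; done)
        | simp [h])
    (fun i i' => by
      rw [hL, hL]
      refine Eq.trans ?_ (h1 ⟨2 * b k₀ + 1, hb k₀⟩ i i')
      congr 1 <;> refine Finset.sum_congr rfl fun k _ => ?_ <;> by_cases h : b k = b k₀
      all_goals first
        | (simp [h, show ¬ (2 * b k₀ + 1 = 2 * b k) by omega, show ¬ (b k₀ = b k) by omega]; done)
        | simp [h])
  have h3 := congrFun (congrFun h2 (a k₀)) i₀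
  simp only [L] at h3
  rw [Finset.sum_eq_single k₀ (fun k _ hk => if_neg fun h => hk (hab _ _ h.1 h.2)) (by simp)] at h3
  simpa using h3

theorem exists_nolin_base (ρ : ℕ) (hq : 2 * ρ ≤ q) (hr : r ≤ ρ * (p + 1)) :
    ∃ T : Tensor p q r, NoLin T := by
  refine ⟨_, nolin_blocks (fun k => ⟨k % (p + 1), Nat.mod_lt _ (by omega)⟩) (fun k => k / (p + 1))
    (fun k => ?_) fun k k' h1 h2 => ?_⟩
  · have : (k : ℕ) / (p + 1) < ρ := Nat.div_lt_of_lt_mul (by have := k.2; rw [mul_comm]; omega)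
    omega
  · apply Fin.ext
    rw [← Nat.div_add_mod k (p + 1), ← Nat.div_add_mod k' (p + 1), h2, Fin.mk.inj h1]

theorem exists_nolin (hp : 0 < p) (q₀ ρ d : ℕ) (h1 : 2 * ρ ≤ q₀) (h2 : d + q₀ ≤ ρ * (p + 1))
    (hq : q₀ ≤ q) : ∃ T : Tensor p q (d + q), NoLin T := by
  induction q, hq using Nat.le_induction with
  | base => exact exists_nolin_base ρ h1 h2
  | succ q _ ih =>
    obtain ⟨T, hT⟩ := ih
    exact ⟨_, nolin_step hT ⟨0, hp⟩⟩

theorem exists_kos_step (h : ∃ T : Tensor (p + 1) q r, Kos T) (h' : ∃ T : Tensor p q r, NoLin T) :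
    ∃ T : Tensor (p + 1) (q + 1) (r + 1), Kos T := by
  have h1 := (generic_nolin h').comp_inj
    (f := fun e : Fin p × Fin q × Fin r => ((e.1.succ, e.2) : Fin (p + 1) × Fin q × Fin r))
    (fun e e' he => by
      simp only [Prod.mk.injEq, Fin.succ_inj] at he
      exact Prod.ext he.1 he.2)
  obtain ⟨T, h2, h3⟩ := ((generic_kos h).and h1).ex
  exact ⟨_, kos_step h2 h3⟩

theorem exists_kos_up (hp : 0 < p) (q₀ ρ : ℕ) (h1 : 2 * ρ ≤ q₀) (h2 : p + 1 + q₀ ≤ ρ * (p + 1))
    (h : ∃ T : Tensor (p + 1) q₀ (p + 1 + q₀), Kos T) (hq : q₀ ≤ q) :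
    ∃ T : Tensor (p + 1) q (p + 1 + q), Kos T := by
  induction q, hq using Nat.le_induction with
  | base => exact h
  | succ q hq ih => exact exists_kos_step ih (exists_nolin hp q₀ ρ (p + 1) h1 h2 hq)

theorem exists_kos (h36 : ∃ T : Tensor 3 6 9, Kos T) (h44 : ∃ T : Tensor 4 4 8, Kos T)
    (h : (p = 3 ∧ 6 ≤ q) ∨ (4 ≤ p ∧ 4 ≤ q)) : ∃ T : Tensor p q (p + q), Kos T := by
  rcases h with ⟨rfl, hq⟩ | ⟨hp, hq⟩
  · exact exists_kos_up (p := 2) (by norm_num) 6 3 (by norm_num) (by norm_num) h36 hq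
  · obtain ⟨T, hT⟩ := exists_kos_up (p := 3) (by norm_num) 4 2 (by norm_num) (by norm_num) h44 hp
    obtain ⟨p, rfl⟩ : ∃ n, p = n + 1 := ⟨p - 1, by omega⟩
    refine exists_kos_up (by omega) 4 2 (by norm_num) (by omega) ?_ hq
    have : ∀ r, r = 3 + 1 + (p + 1) → ∃ T : Tensor (p + 1) 4 r, Kos T := by
      rintro r rfl
      exact ⟨_, hT.swap⟩
    exact this _ (by omega)

end Pool.Agent.Lib.MP_ff9d8c_ag
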