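import Pool.Agent.Lib.MP_ff9d8c_ag.Final

set_option autoImplicit false

namespace Pool.Agent.Lib.MP_ff9d8c_ag

open Matrix Module

variable {p q r : ℕ}

theorem exists_good' (hp : 1 ≤ p) :
    ∀ q r, p ≤ q + 1 → p + q ≤ r → ∃ T : Tensor p q r, Good T := by
  induction p, hp using Nat.le_induction with
  | base =>
    intro q
    induction q with
    | zero =>
      intro r _ _
      refine ⟨0, fun c _ => ⟨0, 0, fun x y => ?_⟩⟩
      simp [ev4, skew]
    | succ q ih =>
      intro r _ hr
      obtain ⟨r, rfl⟩ : ∃ n, r = n + 1 := ⟨r - 1, by omega⟩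
      exact good_step (ih _ (by omega) (by omega)) (exists_new le_rfl (by omega) (by omega))
  | succ p hp ih =>
    intro q r hq
    have hq' : p ≤ q := by omega
    clear hq
    induction q, hq' using Nat.le_induction generalizing r with
    | base =>
      intro hr
      obtain ⟨T, hT⟩ := ih (p + 1) r (by omega) (by omega)
      exact ⟨_, hT.swap⟩
    | succ q hq ih' =>
      intro hr
      obtain ⟨r, rfl⟩ : ∃ n, r = n + 1 := ⟨r - 1, by omega⟩
      exact good_step (ih' _ (by omega)) (exists_new (by omega) (by omega) (by omega))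

/-- The image of a polynomial map from fewer variables lies in a hypersurface. -/
theorem generic_not_range {σ τ : Type} [Fintype σ] [Fintype τ]
    (h : Fintype.card σ < Fintype.card τ) (f : (σ → ℂ) → τ → ℂ)
    (hf : ∀ e, IsPoly (fun t => f t e)) : Generic (fun T : τ → ℂ => ∀ t, f t ≠ T) := by
  choose g hg using hf
  have h1 : ¬ AlgebraicIndependent ℂ g := fun h2 => by
    have h3 := h2.cardinalMk_le_trdeg
    rw [MvPolynomial.trdeg_of_isDomain] at h3
    simp only [Cardinal.mk_fintype, Cardinal.lift_natCast, Nat.cast_le] at h3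
    omega
  rw [algebraicIndependent_iff] at h1
  push Not at h1
  obtain ⟨P, h2, h3⟩ := h1
  refine ⟨P, h3, fun T hT t ht => hT ?_⟩
  have h4 : T = fun e => MvPolynomial.eval t (g e) := funext fun e => by rw [← ht]; exact hg e t
  have h5 := congrArg (MvPolynomial.eval t) h2
  rw [map_zero] at h5
  rw [h4, ← h5]
  exact (MvPolynomial.eval₂Hom_bind₁ (RingHom.id ℂ) t g P).symm

/-- No rank one matrix is killed by all slices. -/
def NoR (T : Tensor p q r) : Prop := ∀ x y, x ≠ 0 → y ≠ 0 → contr3 T x y ≠ 0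

theorem generic_noR (hr : p + q ≤ r) : Generic (fun T : Tensor p q r => NoR T) := by
  classical
  have key : ∀ v : Fin p × Fin q, Generic (fun T : Tensor p q r =>
      ∀ x y, x v.1 = 1 → y v.2 = 1 → contr3 T x y ≠ 0) := by
    intro v
    let X : ({i : Fin p // i ≠ v.1} ⊕ Fin q ⊕ ({e : Fin p × Fin q // e ≠ v} × Fin r) → ℂ) →
        Fin p → ℂ := fun t i => if h : i = v.1 then 1 else t (Sum.inl ⟨i, h⟩)
    have hX : ∀ i, IsPoly (fun t => X t i) := fun i => by
      by_cases h : i = v.1
      · simpa [X, h] using IsPoly.const 1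
      · simpa [X, h] using IsPoly.coord _
    have h1 := generic_not_range
      (σ := {i : Fin p // i ≠ v.1} ⊕ Fin q ⊕ ({e : Fin p × Fin q // e ≠ v} × Fin r))
      (τ := Fin p × Fin q × Fin r) (by
        have h2 : 0 < p := v.1.pos
        have h3 : 0 < q := v.2.pos
        obtain ⟨n, hn⟩ : ∃ n, p * q = n + 1 := ⟨p * q - 1, by have := Nat.mul_pos h2 h3; omega⟩
        simp only [Fintype.card_sum, Fintype.card_prod, Fintype.card_fin, ne_eq,
          Fintype.card_subtype_compl, Fintype.card_unique, ← mul_assoc, hn,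
          Nat.add_sub_cancel, add_mul, one_mul]
        omega)
      (fun t e => if h : (e.1, e.2.1) = v then
        ∑ u : {e : Fin p × Fin q // e ≠ v}, -1 * t (Sum.inr (Sum.inr (u, e.2.2))) *
          (X t u.1.1 * t (Sum.inr (Sum.inl u.1.2)))
        else t (Sum.inr (Sum.inr (⟨_, h⟩, e.2.2)))) (fun e => by
          by_cases h : (e.1, e.2.1) = v
          · simp only [h, dite_true]
            exact IsPoly.sum _ fun u => ((IsPoly.const _).mul (IsPoly.coord _)).mul
              ((hX _).mul (IsPoly.coord _))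
          · simp only [h, dite_false]
            exact IsPoly.coord _)
    refine h1.mono fun T hT x y hx hy h0 => hT (Sum.elim (fun i => x i.1)
      (Sum.elim y fun u => T (u.1.1.1, u.1.1.2, u.2))) ?_
    funext ⟨i, j, k⟩
    by_cases h : (i, j) = v
    · have h2 := congrFun h0 k
      rw [contr3_eq_sum, Fintype.sum_eq_add_sum_subtype_ne _ v, hx, hy] at h2
      have h3 : ∀ i, X (Sum.elim (fun i => x i.1)
          (Sum.elim y fun u => T (u.1.1.1, u.1.1.2, u.2))) i = x i := fun i => by
        by_cases h4 : i = v.1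
        · simp [X, h4, hx]
        · simp [X, h4]
      simp only [h, dite_true, h3, Sum.elim_inr, Sum.elim_inl, neg_mul, one_mul,
        Finset.sum_neg_distrib]
      subst h
      simp only [Pi.zero_apply, mul_one] at h2
      linear_combination -h2
    · simp [h]
  refine (Generic.forall_finite key).mono fun T hT x y hx hy h0 => ?_
  obtain ⟨i, hi⟩ := Function.ne_iff.1 hx
  obtain ⟨j, hj⟩ := Function.ne_iff.1 hy
  have hi' : x i ≠ 0 := hi
  have hj' : y j ≠ 0 := hj
  refine hT (i, j) ((x i)⁻¹ • x) ((y j)⁻¹ • y) (by simp [hi']) (by simp [hj']) ?_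
  funext k
  have h2 := congrFun h0 k
  simp only [contr3, Pi.zero_apply, Pi.smul_apply, smul_eq_mul] at h2 ⊢
  rw [← mul_zero ((x i)⁻¹ * (y j)⁻¹), ← h2]
  simp only [Finset.mul_sum]
  exact Finset.sum_congr rfl fun _ _ => Finset.sum_congr rfl fun _ _ => by ring

theorem orth_spanZ' {T : Tensor p q r} (h : Good T) (h' : NoR T) :
    (pair p q r).orthogonal (spanZ T) = gam12 T ⊔ kerPhi T := by
  refine le_antisymm h.orth_le (sup_le ?_ fun W hW => ?_)
  · refine le_trans ?_ (LinearMap.BilinForm.orthogonal_le (spanZ_le T))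
    rw [orth_critSpace]
    exact le_sup_left
  · intro Z hZ
    rw [pair_apply, dotProduct_comm]
    induction hZ using Submodule.span_induction with
    | mem _ h1 =>
      obtain ⟨x, y, z, ⟨hx, hy, -, -, -, h3⟩, rfl⟩ := h1
      obtain ⟨s, hs⟩ := Function.ne_iff.1 (h' x y hx hy)
      have hs' : contr3 T x y s ≠ 0 := hs
      have h4 : z = (z s / contr3 T x y s) • contr3 T x y := by
        funext t
        simp only [Pi.smul_apply, smul_eq_mul]
        field_simp
        linear_combination h3 s t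
      have h5 := (mem_kerPhi _ _).1 hW x y
      rw [dot_rankOne, h4, dotProduct_smul, ← phi, h5, smul_zero]
    | zero => simp
    | add _ _ _ _ h1 h2 => rw [dotProduct_add, h1, h2, add_zero]
    | smul _ _ _ h1 => rw [dotProduct_smul, h1, smul_zero]

theorem ev4_zero_iff (c : (Fin p × Fin q) × (Fin p × Fin q) → ℂ) : (∀ x y, ev4 x y c = 0) ↔
    ∀ i i' j j', c ((i, j), (i', j')) + c ((i', j), (i, j')) +
      (c ((i, j'), (i', j)) + c ((i', j'), (i, j))) = 0 := by
  have h1 : ∀ (y : Fin q → ℂ) (i i' : Fin p), bil (fun j j' => c ((i, j), (i', j'))) y y +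
      bil (fun j j' => c ((i', j), (i, j'))) y y =
      bil (fun j j' => c ((i, j), (i', j')) + c ((i', j), (i, j'))) y y := fun y i i' => by
    simp [bil, add_mul, Finset.sum_add_distrib]
  constructor
  · intro h i i' j j'
    exact bil_symm (fun j j' => c ((i, j), (i', j')) + c ((i', j), (i, j'))) (fun y => by
      rw [← h1]
      exact bil_symm (fun i i' => bil (fun j j' => c ((i, j), (i', j'))) y y)
        (fun x => by rw [← ev4_eq_bil, h]) i i') j j'
  · intro h x y
    rw [ev4_eq_bil]
    refine bil_self_eq_zero _ (fun i i' => ?_) x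
    rw [h1]
    exact bil_self_eq_zero _ (fun j j' => h i i' j j') y

/-- Weakly increasing pairs. -/
abbrev LP (n : ℕ) : Type := {a : Fin n × Fin n // a.1 ≤ a.2}

theorem card_LP (n : ℕ) : Fintype.card (LP n) = (n + 1).choose 2 := by
  rw [← Fintype.card_congr Sym2.sortEquiv, Sym2.card, Fintype.card_fin]

/-- The coefficients of the biquadratic form. -/
def symC (p q : ℕ) : ((Fin p × Fin q) × (Fin p × Fin q) → ℂ) →ₗ[ℂ] (LP p × LP q → ℂ) where
  toFun c a := c ((a.1.1.1, a.2.1.1), (a.1.1.2, a.2.1.2)) +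
    c ((a.1.1.2, a.2.1.1), (a.1.1.1, a.2.1.2)) +
    (c ((a.1.1.1, a.2.1.2), (a.1.1.2, a.2.1.1)) + c ((a.1.1.2, a.2.1.2), (a.1.1.1, a.2.1.1)))
  map_add' a b := by
    funext e
    simp only [Pi.add_apply]
    ring
  map_smul' s a := by
    funext e
    simp [mul_add]

theorem symC_eq_zero (c : (Fin p × Fin q) × (Fin p × Fin q) → ℂ) :
    symC p q c = 0 ↔ ∀ x y, ev4 x y c = 0 := by
  rw [ev4_zero_iff]
  constructor
  · intro h i i' j j'
    have h1 : ∀ i i' j j', i ≤ i' → j ≤ j' → c ((i, j), (i', j')) + c ((i', j), (i, j')) +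
        (c ((i, j'), (i', j)) + c ((i', j'), (i, j))) = 0 := fun i i' j j' hi hj =>
      congrFun h (⟨(i, i'), hi⟩, ⟨(j, j'), hj⟩)
    rcases le_total i i' with hi | hi <;> rcases le_total j j' with hj | hj <;>
      linear_combination h1 _ _ _ _ hi hj
  · intro h
    funext a
    exact h _ _ _ _

theorem symC_surj : Function.Surjective (symC p q) := by
  intro v
  refine ⟨fun e => if h : e.1.1 ≤ e.2.1 ∧ e.1.2 ≤ e.2.2 then
    v (⟨(e.1.1, e.2.1), h.1⟩, ⟨(e.1.2, e.2.2), h.2⟩) /
      ((if e.1.1 = e.2.1 then 2 else 1) * if e.1.2 = e.2.2 then 2 else 1) else 0, ?_⟩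
  funext ⟨⟨⟨i, i'⟩, hi⟩, ⟨⟨j, j'⟩, hj⟩⟩
  have hi' : i ≤ i' := hi
  have hj' : j ≤ j' := hj
  rcases hi'.eq_or_lt with rfl | h1 <;> rcases hj'.eq_or_lt with rfl | h2
  · simp [symC]
    ring
  · simp [symC, hj', h2.ne, h2.not_ge]
  · simp [symC, hi', h1.ne, h1.not_ge]
  · simp [symC, hi', hj', h1.ne, h1.not_ge, h2.ne, h2.not_ge]

theorem ker_symC (T : Tensor p q r) : LinearMap.ker (symC p q ∘ₗ coef T) = kerPhi T := by
  ext W
  simp only [LinearMap.mem_ker, LinearMap.comp_apply, symC_eq_zero, ev4_coef, mem_kerPhi]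

theorem finrank_kerPhi_ge (T : Tensor p q r) :
    p * (q * r) ≤ finrank ℂ (kerPhi T) + (p + 1).choose 2 * (q + 1).choose 2 := by
  have h1 := LinearMap.finrank_range_add_finrank_ker (symC p q ∘ₗ coef T)
  have h2 := Submodule.finrank_le (LinearMap.range (symC p q ∘ₗ coef T))
  rw [ker_symC] at h1
  simp only [finrank_fintype_fun_eq_card, Fintype.card_prod, card_LP, Fintype.card_fin] at h1 h2
  omega

/-- Every biquadratic form lies in the ideal of the slices. -/
def Srj (T : Tensor p q r) : Prop := Function.Surjective (symC p q ∘ₗ coef T)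

theorem Srj.finrank_kerPhi {T : Tensor p q r} (h : Srj T) :
    p * (q * r) = finrank ℂ (kerPhi T) + (p + 1).choose 2 * (q + 1).choose 2 := by
  have h1 := LinearMap.finrank_range_add_finrank_ker (symC p q ∘ₗ coef T)
  rw [ker_symC, LinearMap.range_eq_top.2 h, finrank_top] at h1
  simp only [finrank_fintype_fun_eq_card, Fintype.card_prod, card_LP, Fintype.card_fin] at h1
  omega

theorem generic_srj (h : ∃ T : Tensor p q r, Srj T) : Generic (fun T : Tensor p q r => Srj T) := by
  obtain ⟨T₀, h⟩ := h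
  have := generic_exact (κ := Empty) (fun T : Tensor p q r => symC p q ∘ₗ coef T)
    (fun _ k => k.elim) (fun u i => ?_) (fun k => k.elim) (fun _ _ k => k.elim) T₀
    (fun w _ => h w)
  · exact this.mono fun T hT v => hT v fun k => k.elim
  · simp only [LinearMap.comp_apply, symC, coef, LinearMap.coe_mk, AddHom.coe_mk]
    have h1 : ∀ (a : Fin r → ℂ) (i : Fin p) (j : Fin q),
        IsPoly (fun T : Tensor p q r => ∑ k, a k * T (i, j, k)) := fun a i j =>
      IsPoly.sum _ fun k => (IsPoly.const _).mul (IsPoly.coord _)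
    exact ((h1 _ _ _).add (h1 _ _ _)).add ((h1 _ _ _).add (h1 _ _ _))

end Pool.Agent.Lib.MP_ff9d8c_ag
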