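import Pool.Agent.Lib.MP_ff9d8c_ag.WideA

set_option autoImplicit false

namespace Pool.Agent.Lib.MP_ff9d8c_ag

open Matrix Module

variable {p q r : ℕ}

/-- Cells outside the two diagonal blocks of size `s × t`. -/
def Off (s t i c : ℕ) : Prop := ¬ (i < s ∧ c < t) ∧ ¬ (s ≤ i ∧ i < 2 * s ∧ t ≤ c ∧ c < 2 * t)

theorem absQ (s t : ℕ) (l : ℕ → ℕ → ℂ) (hl : ∀ i c, l i c ≠ 0)
    (hm : ∀ i j c d, i ≠ j → c ≠ d → l i c * l j d - l i d * l j c ≠ 0)
    (Q : ℕ → ℕ → ℕ → ℕ → ℂ) (hs : ∀ i c j d, Q i c j d = Q j d i c)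
    (hR : ∀ i c j d, Q i c j d + Q i d j c = 0)
    (F1 : ∀ i c j d, Off s t i c → Off s t j d → Q i c j d = 0)
    (F2 : ∀ i c j d, Off s t i c → j < s → d < t →
      Q i c j d + l j d * Q i c (s + j) (t + d) = 0)
    (F3 : ∀ i c j d, i < s → c < t → j < s → d < t → Q i c j d + l j d * Q i c (s + j) (t + d) +
      l i c * Q (s + i) (t + c) j d + l i c * l j d * Q (s + i) (t + c) (s + j) (t + d) = 0)
    (i c j d : ℕ) (hj : j < s) (hd : d < t) : Q i c (s + j) (t + d) = 0 := by
  have P : ∀ i c j d, Off s t i d → Off s t j c → Q i c j d = 0 := fun i c j d h1 h2 => by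
    linear_combination hR i c j d - F1 i d j c h1 h2
  have P2 : ∀ i c j d, Off s t i c → j < s → d < t → Off s t i d → Off s t j c →
      Q i c (s + j) (t + d) = 0 := fun i c j d h0 hj hd h1 h2 =>
    mul_left_cancel₀ (hl j d) (by linear_combination F2 i c j d h0 hj hd - P i c j d h1 h2)
  have A : ∀ i c j d, i < s → c < t → j < s → d < t → Q i c (s + j) (t + d) = 0 :=
    fun i c j d _ _ _ _ => P _ _ _ _ (by unfold Off; omega) (by unfold Off; omega)
  rcases lt_or_ge i s with hi | hi <;> rcases lt_or_ge c t with hc | hc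
  · exact A i c j d hi hc hj hd
  · rcases lt_or_ge c (2 * t) with hc' | hc'
    · obtain ⟨c, rfl⟩ := Nat.exists_eq_add_of_le hc
      have k : ∀ i c j d, i < s → c < t → j < s → d < t → l j d * Q i (t + c) (s + j) (t + d) +
          l i d * Q j (t + c) (s + i) (t + d) = 0 := fun i c j d hi hc hj hd => by
        linear_combination F2 i (t + c) j d (by unfold Off; omega) hj hd +
          F2 j (t + c) i d (by unfold Off; omega) hi hd - hR i (t + c) j d + hs i d j (t + c)
      have k1 := k i c j d hi (by omega) hj hd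
      have k2 := k i d j c hi hd hj (by omega)
      have k3 := hR i (t + c) (s + j) (t + d)
      have k4 := hR j (t + c) (s + i) (t + d)
      by_cases h1 : i = j
      · subst h1
        exact mul_left_cancel₀ (hl i d) (by linear_combination k1 / 2)
      · by_cases h2 : c = d
        · subst h2
          linear_combination k3 / 2
        · exact mul_left_cancel₀ (hm i j c d h1 h2) (by
            linear_combination l i c * k1 + l i d * k2 - l i d * l j c * k3 - l i d * l i c * k4)
    · exact P _ _ _ _ (by unfold Off; omega) (by unfold Off; omega)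
  · rcases lt_or_ge i (2 * s) with hi' | hi'
    · obtain ⟨i, rfl⟩ := Nat.exists_eq_add_of_le hi
      have k : ∀ i c j d, i < s → c < t → j < s → d < t → l j d * Q (s + i) c (s + j) (t + d) +
          l j c * Q (s + i) d (s + j) (t + c) = 0 := fun i c j d hi hc hj hd => by
        linear_combination F2 (s + i) c j d (by unfold Off; omega) hj hd +
          F2 (s + i) d j c (by unfold Off; omega) hj hc - hR (s + i) c j d
      have k0 : ∀ i c j d, Q (s + i) c (s + j) (t + d) + Q (s + j) c (s + i) (t + d) = 0 :=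
        fun i c j d => by
          linear_combination hR (s + i) c (s + j) (t + d) - hs (s + i) (t + d) (s + j) c
      have k1 := k i c j d (by omega) hc hj hd
      have k2 := k j c i d hj hc (by omega) hd
      have k3 := k0 i c j d
      have k4 := k0 i d j c
      by_cases h1 : i = j
      · subst h1
        linear_combination k3 / 2
      · by_cases h2 : c = d
        · subst h2
          exact mul_left_cancel₀ (hl j c) (by linear_combination k1 / 2)
        · exact mul_left_cancel₀ (hm i j c d h1 h2) (by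
            linear_combination l i c * k1 + l j c * k2 - l i d * l j c * k3 - l j c * l i c * k4)
    · exact P _ _ _ _ (by unfold Off; omega) (by unfold Off; omega)
  · by_cases h0 : i < 2 * s ∧ c < 2 * t
    · obtain ⟨i, rfl⟩ := Nat.exists_eq_add_of_le hi
      obtain ⟨c, rfl⟩ := Nat.exists_eq_add_of_le hc
      have k : ∀ i c j d, i < s → c < t → j < s → d < t →
          Q i c j d + l i c * l j d * Q (s + i) (t + c) (s + j) (t + d) = 0 :=
        fun i c j d hi hc hj hd => by
          linear_combination F3 i c j d hi hc hj hd - l j d * A i c j d hi hc hj hd -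
            l i c * A j d i c hj hd hi hc - l i c * hs (s + i) (t + c) j d
      have k1 := k i c j d (by omega) (by omega) hj hd
      have k2 := k i d j c (by omega) hd hj (by omega)
      have k3 := hR (s + i) (t + c) (s + j) (t + d)
      by_cases h1 : i = j
      · subst h1
        linear_combination (k3 + hs (s + i) (t + c) (s + i) (t + d)) / 2
      · by_cases h2 : c = d
        · subst h2
          linear_combination k3 / 2
        · exact mul_left_cancel₀ (hm i j c d h1 h2) (by
            linear_combination k1 + k2 - hR i c j d - l i d * l j c * k3)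
    · exact P2 _ _ _ _ (by unfold Off; omega) hj hd (by unfold Off; omega) (by unfold Off; omega)

theorem exists_kos_wide (s t : ℕ) (hs : 2 * s ≤ p) (ht : 2 * t ≤ q) (hr : r ≤ s * t) :
    ∃ T : Tensor p q r, Kos T := by
  obtain ⟨a, b, h1, h2, hab⟩ : ∃ a b : Fin r → ℕ, (∀ k, a k < s) ∧ (∀ k, b k < t) ∧
      ∀ k m, a k = a m → b k = b m → k = m :=
    ⟨fun k => k / t, fun k => k % t,
      fun k => Nat.div_lt_of_lt_mul (by have := k.2; rw [mul_comm]; omega),
      fun k => Nat.mod_lt _ (Nat.pos_of_ne_zero fun h => by have := k.2; rw [h] at hr; omega),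
      fun k m h h' => Fin.ext (by
        rw [← Nat.div_add_mod k t, ← Nat.div_add_mod m t]
        exact congrArg₂ (fun u v => t * u + v) h h')⟩
  let G : ℕ → ℕ → Fin r → ℂ := fun i c k => if i = a k ∧ c = b k then 2 ^ (i * c) else
    if i = s + a k ∧ c = t + b k then -1 else 0
  have G0 : ∀ i c k, Off s t i c → G i c k = 0 := fun i c k h => by
    have := h1 k
    have := h2 k
    unfold Off at h
    simp only [G]
    rw [if_neg (by omega), if_neg (by omega)]
  have G1 : ∀ j d k, j < s → d < t → G j d k + 2 ^ (j * d) * G (s + j) (t + d) k = 0 :=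
    fun j d k hj hd => by
      have := h1 k
      simp only [G]
      by_cases h : j = a k ∧ d = b k
      · rw [if_pos h, if_neg (by omega), if_pos (by omega)]
        ring
      · rw [if_neg h, if_neg (by omega), if_neg (by omega), if_neg (by omega)]
        ring
  have G2 : ∀ m k : Fin r, G (s + a m) (t + b m) k = if k = m then -1 else 0 := fun m k => by
    have := h1 k
    simp only [G]
    rw [if_neg (by omega)]
    by_cases h : k = m
    · simp [h]
    · rw [if_neg h, if_neg fun h3 => h (hab _ _ (by omega) (by omega))]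
  refine ⟨fun e => G e.1 e.2.1 e.2.2, fun W hW => ?_⟩
  let V : ℕ → ℕ → Fin r → ℂ := fun i c k => if h : i < p ∧ c < q then W (⟨i, h.1⟩, ⟨c, h.2⟩, k) else 0
  have hV : ∀ (i : Fin p) (c : Fin q) k, V i c k = W (i, c, k) := fun i c k => by simp [V]
  have out : ∀ i c j d, ¬ (i < p ∧ c < q) → ∑ k, (V i c k * G j d k + V j d k * G i c k) = 0 :=
    fun i c j d h => Finset.sum_eq_zero fun k _ => by
      rw [G0 i c k (by unfold Off; omega)]
      simp [V, h]
  have sy : ∀ i c j d, ∑ k, (V i c k * G j d k + V j d k * G i c k) =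
      ∑ k, (V j d k * G i c k + V i c k * G j d k) := fun i c j d =>
    Finset.sum_congr rfl fun _ _ => add_comm _ _
  have key := absQ s t (fun i c => 2 ^ (i * c)) (fun _ _ => by simp) (fun i j c d hi hc => by
      rw [sub_ne_zero, ← pow_add, ← pow_add]
      intro h
      have h3 : (2 : ℕ) ^ (i * c + j * d) = 2 ^ (i * d + j * c) := by exact_mod_cast h
      have h4 : ((i * c + j * d : ℕ) : ℤ) = (i * d + j * c : ℕ) := by
        rw [Nat.pow_right_injective le_rfl h3]
      push_cast at h4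
      have h5 : ((i : ℤ) - j) * ((c : ℤ) - d) = 0 := by linear_combination h4
      rcases mul_eq_zero.1 h5 with h6 | h6 <;> omega)
    (fun i c j d => ∑ k, (V i c k * G j d k + V j d k * G i c k)) sy
    (fun i c j d => by
      by_cases a1 : i < p
      · by_cases a2 : j < p
        · by_cases a3 : c < q
          · by_cases a4 : d < q
            · have h3 := (ev4_zero_iff _).1 (fun x y => (ev4_coef _ W x y).trans (hW x y))
                ⟨i, a1⟩ ⟨j, a2⟩ ⟨c, a3⟩ ⟨d, a4⟩
              simp only [coef, LinearMap.coe_mk, AddHom.coe_mk, ← hV] at h3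
              simp only [Finset.sum_add_distrib]
              linear_combination h3
            · rw [sy, out j d i c (by omega), out i d j c (by omega), add_zero]
          · rw [out i c j d (by omega), sy, out j c i d (by omega), add_zero]
        · rw [sy, out j d i c (by omega), sy, out j c i d (by omega), add_zero]
      · rw [out i c j d (by omega), out i d j c (by omega), add_zero])
    (fun i c j d u v => Finset.sum_eq_zero fun k _ => by rw [G0 _ _ k u, G0 _ _ k v]; simp)
    (fun i c j d u hj hd => by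
      simp only [Finset.mul_sum, ← Finset.sum_add_distrib]
      refine Finset.sum_eq_zero fun k _ => ?_
      rw [G0 _ _ k u]
      linear_combination V i c k * G1 j d k hj hd)
    (fun i c j d hi hc hj hd => by
      simp only [Finset.mul_sum, ← Finset.sum_add_distrib]
      refine Finset.sum_eq_zero fun k _ => ?_
      linear_combination (V i c k + 2 ^ (i * c) * V (s + i) (t + c) k) * G1 j d k hj hd +
        (V j d k + 2 ^ (j * d) * V (s + j) (t + d) k) * G1 i c k hi hc)
  have k1 : ∀ i c (m : Fin r), ∑ k, V (s + a m) (t + b m) k * G i c k = V i c m :=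
    fun i c m => by
      have h3 := key i c _ _ (h1 m) (h2 m)
      simp only [G2, Finset.sum_add_distrib, mul_ite, mul_neg, mul_one, mul_zero,
        Finset.sum_ite_eq', Finset.mem_univ, if_true] at h3
      linear_combination h3
  have k2 : ∀ m k : Fin r, V (s + a k) (t + b k) m = -V (s + a m) (t + b m) k :=
    fun m k => by
      rw [← k1]
      simp [G2]
  refine ⟨fun e => V (s + a e.1) (t + b e.1) e.2 / 2, funext fun ⟨i, c, m⟩ => ?_⟩
  rw [← hV, ← k1]
  simp only [gam3, LinearMap.coe_mk, AddHom.coe_mk]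
  refine Finset.sum_congr rfl fun k _ => ?_
  rw [k2 m k]
  ring

theorem exists_srj_wide (s t : ℕ) (hs : 2 * s ≤ p) (ht : 2 * t ≤ q) (hr : p * q ≤ r + s * t) :
    ∃ T : Tensor p q r, Srj T := by
  classical
  have hc : Fintype.card {e : Fin p × Fin q // ¬ ((e.1 : ℕ) < s ∧ (e.2 : ℕ) < t)} ≤
      Fintype.card (Fin r) := by
    have h1 := Fintype.card_le_of_injective
      (fun a : Fin s × Fin t => (⟨(⟨a.1, by omega⟩, ⟨a.2, by omega⟩), a.1.2, a.2.2⟩ :
        {e : Fin p × Fin q // (e.1 : ℕ) < s ∧ (e.2 : ℕ) < t})) (fun a b h => by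
          simp only [Subtype.mk.injEq, Prod.mk.injEq, Fin.mk.injEq] at h
          exact Prod.ext (Fin.ext h.1) (Fin.ext h.2))
    rw [Fintype.card_subtype_compl]
    simp only [Fintype.card_prod, Fintype.card_fin] at h1 ⊢
    omega
  obtain ⟨ι⟩ := Function.Embedding.nonempty_of_card_le hc
  let H : {e : Fin p × Fin q // ¬ ((e.1 : ℕ) < s ∧ (e.2 : ℕ) < t)} → Fin p × Fin q → ℂ :=
    fun z u => (if u = z.1 then 1 else 0) -
      if (z.1.1 : ℕ) = s + u.1 ∧ (z.1.2 : ℕ) = t + u.2 ∧ (u.1 : ℕ) < s ∧ (u.2 : ℕ) < t then 1 else 0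
  let T : Tensor p q r := fun e => Function.extend ι H 0 e.2.2 (e.1, e.2.1)
  have hT : ∀ z x y, contr3 T x y (ι z) = ∑ u, H z u * (x u.1 * y u.2) := fun z x y => by
    simp only [contr3_eq_sum, T, ι.injective.extend_apply]
  let J : Submodule ℂ ((Fin p → ℂ) × (Fin q → ℂ) → ℂ) :=
    LinearMap.range (LinearMap.pi fun v => ev4 v.1 v.2 ∘ₗ coef T)
  let M : Fin p × Fin q → (Fin p → ℂ) × (Fin q → ℂ) → ℂ := fun e v => v.1 e.1 * v.2 e.2
  have J0 : ∀ e z, (M e * fun v => ∑ u, H z u * M u v) ∈ J := fun e z =>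
    ⟨Pi.single (e.1, e.2, ι z) 1, funext fun v => by simp [ev4_coef, phi_single, hT, M]⟩
  have J1 : ∀ e (z : Fin p × Fin q), Off s t z.1 z.2 → M e * M z ∈ J := fun e z hz => by
    convert J0 e ⟨z, hz.1⟩ using 2
    funext v
    have h2 : ∀ u : Fin p × Fin q, ¬ ((z.1 : ℕ) = s + u.1 ∧ (z.2 : ℕ) = t + u.2 ∧ (u.1 : ℕ) < s ∧
        (u.2 : ℕ) < t) := fun u h => hz.2 (by omega)
    simp [H, h2]
  have J2 : ∀ e (a b : Fin p × Fin q), (a.1 : ℕ) < s → (a.2 : ℕ) < t → (b.1 : ℕ) = s + a.1 →
      (b.2 : ℕ) = t + a.2 → M e * M b - M e * M a ∈ J := fun e a b h1 h2 h3 h4 => by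
    rw [← mul_sub]
    convert J0 e ⟨b, by omega⟩ using 2
    funext v
    have h5 : ∀ u : Fin p × Fin q, ((b.1 : ℕ) = s + u.1 ∧ (b.2 : ℕ) = t + u.2 ∧ (u.1 : ℕ) < s ∧
        (u.2 : ℕ) < t) ↔ u = a := fun u =>
      ⟨fun h => Prod.ext (Fin.ext (by omega)) (Fin.ext (by omega)), fun h => by subst h; omega⟩
    simp [H, h5, sub_mul, Finset.sum_sub_distrib]
  have J3 : ∀ a b : Fin p × Fin q, (a.1 : ℕ) < s → (a.2 : ℕ) < t → s ≤ (b.1 : ℕ) →
      t ≤ (b.2 : ℕ) → M a * M b ∈ J := fun a b h1 h2 h3 h4 => by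
    convert J1 (a.1, b.2) (b.1, a.2) (by unfold Off; dsimp only; omega) using 1
    funext v
    simp only [M, Pi.mul_apply]
    ring
  have J4 : ∀ a e : Fin p × Fin q, (a.1 : ℕ) < s → (a.2 : ℕ) < t → M a * M e ∈ J :=
    fun a e h1 h2 => by
      by_cases h3 : (e.1 : ℕ) < s ∧ (e.2 : ℕ) < t
      · have h4 := J.sub_mem (J3 a (⟨s + e.1, by omega⟩, ⟨t + e.2, by omega⟩) h1 h2 (by simp)
          (by simp)) (J2 a e (⟨s + e.1, by omega⟩, ⟨t + e.2, by omega⟩) h3.1 h3.2 rfl rfl)
        rwa [sub_sub_cancel] at h4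
      · by_cases h4 : s ≤ (e.1 : ℕ) ∧ t ≤ (e.2 : ℕ)
        · exact J3 a e h1 h2 h4.1 h4.2
        · exact J1 a e (by unfold Off; omega)
  have J5 : ∀ e e' : Fin p × Fin q, M e * M e' ∈ J := fun e e' => by
    by_cases h1 : Off s t e'.1 e'.2
    · exact J1 e e' h1
    · by_cases h2 : (e'.1 : ℕ) < s ∧ (e'.2 : ℕ) < t
      · rw [mul_comm]
        exact J4 e' e h2.1 h2.2
      · unfold Off at h1
        have h3 := J4 (⟨e'.1 - s, by omega⟩, ⟨e'.2 - t, by omega⟩) e (by dsimp only; omega)
          (by dsimp only; omega)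
        rw [mul_comm] at h3
        have h4 := J.add_mem (J2 e (⟨e'.1 - s, by omega⟩, ⟨e'.2 - t, by omega⟩) e'
          (by dsimp only; omega) (by dsimp only; omega) (by dsimp only; omega)
          (by dsimp only; omega)) h3
        rwa [sub_add_cancel] at h4
  refine ⟨T, fun v => ?_⟩
  obtain ⟨c, rfl⟩ := symC_surj v
  obtain ⟨W, hW⟩ := J.sum_mem (t := Finset.univ) fun e _ => J.smul_mem (c e) (J5 e.1 e.2)
  refine ⟨W, ?_⟩
  rw [LinearMap.comp_apply, ← sub_eq_zero, ← map_sub, symC_eq_zero]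
  intro x y
  have h1 := congrFun hW (x, y)
  simp only [LinearMap.pi_apply, LinearMap.comp_apply, Finset.sum_apply, Pi.smul_apply,
    Pi.mul_apply, smul_eq_mul, M] at h1
  rw [map_sub, h1, sub_eq_zero]
  exact Finset.sum_congr rfl fun _ _ => by ring

/-- The first two families of equations are independent modulo syzygies. -/
def Dis' (T : Tensor p q r) : Prop :=
  ∀ ω₁ ω₂, (∀ x y, phi T (gam1 T ω₁ + gam2 T ω₂) x y = 0) →
    (∀ i i', ω₁ (i, i') = ω₁ (i', i)) ∧ ∀ j j', ω₂ (j, j') = ω₂ (j', j)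

theorem generic_dis' (hp : 0 < p) (hq : p ≤ q) (hr : q ≤ r) :
    Generic (fun T : Tensor p q r => Dis' T) := by
  let L : ((Fin p × Fin p) ⊕ (Fin q × Fin q) → ℂ) →ₗ[ℂ]
      (Fin p × Fin p → ℂ) × (Fin q × Fin q → ℂ) :=
    (LinearMap.funLeft ℂ ℂ Sum.inl).prod (LinearMap.funLeft ℂ ℂ Sum.inr)
  have hL : ∀ (T : Tensor p q r) u, (gam1 T).coprod (gam2 T) (L (symz p q u)) = 0 := by
    intro T u
    funext e
    simp [L, gam1, gam2, symz, add_comm]
  have := generic_exact (κ := (Fin p → ℂ) × (Fin q → ℂ))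
    (fun _ : Tensor p q r => symz p q)
    (fun T v => ev4 v.1 v.2 ∘ₗ (coef T ∘ₗ (gam1 T).coprod (gam2 T)) ∘ₗ L)
    (fun u i => IsPoly.const _) (fun v w => ?_) (fun T u v => by simp [hL])
    (diag (fun j : Fin q => if h : (j : ℕ) < p then ⟨j, h⟩ else ⟨0, hp⟩) (Fin.castLE hr)
      (fun j => (j : ℕ) + 1))
    (fun w hw => ?_)
  · refine this.mono fun T hT ω₁ ω₂ h => ?_
    obtain ⟨u, hu⟩ := hT (Sum.elim ω₁ ω₂) fun v => by
      rw [← h v.1 v.2, ← ev4_coef]
      rfl
    exact ⟨fun i i' => ((congrFun hu (Sum.inl (i, i'))).symm.trans (add_comm _ _)).trans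
      (congrFun hu (Sum.inl (i', i))), fun i i' => ((congrFun hu (Sum.inr (i, i'))).symm.trans
      (add_comm _ _)).trans (congrFun hu (Sum.inr (i', i)))⟩
  · simp only [LinearMap.comp_apply, ev4, LinearMap.coprod_apply, coef, gam1, gam2,
      LinearMap.coe_mk, AddHom.coe_mk, Pi.add_apply]
    exact IsPoly.sum _ fun e => ((IsPoly.sum _ fun k => ((IsPoly.sum _ fun _ =>
      (IsPoly.const _).mul (IsPoly.coord _)).add (IsPoly.sum _ fun _ =>
      (IsPoly.const _).mul (IsPoly.coord _))).mul (IsPoly.coord _)).mul (IsPoly.const _)).mul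
      (IsPoly.const _)
  · obtain ⟨h1, h2⟩ := dis_diag (fun j : Fin q => if h : (j : ℕ) < p then ⟨j, h⟩ else ⟨0, hp⟩)
      (Fin.castLE hr) (fun j => (j : ℕ) + 1) (fun l => ⟨⟨l, by omega⟩, by simp⟩)
      (Fin.castLE_injective hr) (fun j => Nat.cast_add_one_ne_zero _) (fun j j' h => by
        have h1 : (j + 1 : ℕ) ^ 2 = (j' + 1 : ℕ) ^ 2 := by exact_mod_cast h
        have := Nat.pow_left_injective (by norm_num) h1
        exact Fin.ext (by omega)) (w ∘ Sum.inl) (w ∘ Sum.inr) fun x y => by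
      have h3 := hw (x, y)
      rw [LinearMap.comp_apply, LinearMap.comp_apply, ev4_gam] at h3
      exact h3
    refine ⟨(1 / 2 : ℂ) • w, funext fun e => ?_⟩
    rcases e with ⟨i, i'⟩ | ⟨j, j'⟩
    · have := h1 i i'
      simp [symz] at this ⊢
      linear_combination -this / 2
    · have := h2 j j'
      simp [symz] at this ⊢
      linear_combination -this / 2

theorem Dis'.dis {T : Tensor p q r} (h : Dis' T) : Dis T := fun ω₁ ω₂ h0 => by
  obtain ⟨h1, h2⟩ := h ω₁ ω₂ h0
  funext e
  simp [gam1, gam2, h1 e.1, h2 e.2.1]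

theorem extPairs_skew {n : ℕ} (ω : Fin n × Fin n → ℂ) (i k : Fin n) :
    extPairs n (fun e => ω e.1 - ω e.1.swap) (i, k) -
      extPairs n (fun e => ω e.1 - ω e.1.swap) (k, i) = ω (i, k) - ω (k, i) := by
  rcases lt_trichotomy i k with h2 | h2 | h2
  · simp [extPairs, h2, h2.not_gt]
  · simp [extPairs, h2]
  · simp [extPairs, h2, h2.not_gt]

theorem extPairs_eq_zero {n : ℕ} (a : {e : Fin n × Fin n // e.1 < e.2} → ℂ)
    (h : ∀ i k, extPairs n a (i, k) = extPairs n a (k, i)) : a = 0 := by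
  funext ⟨⟨k, l⟩, hkl⟩
  have h5 : k < l := hkl
  simpa [extPairs, h5, h5.not_gt] using h k l

theorem card_pairs (n : ℕ) : Fintype.card {e : Fin n × Fin n // e.1 < e.2} = n.choose 2 := by
  rw [Fintype.card_subtype, Fintype.card_product_filter_lt, Fintype.card_fin]

theorem Dis'.finrank_gam12 {T : Tensor p q r} (h : Dis' T) :
    finrank ℂ (gam12 T) = p.choose 2 + q.choose 2 := by
  have h1 : gam12 T = LinearMap.range ((gam1 T ∘ₗ extPairs p).coprod (gam2 T ∘ₗ extPairs q)) := by
    rw [LinearMap.range_coprod]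
    refine le_antisymm (sup_le_sup ?_ ?_)
      (sup_le_sup (LinearMap.range_comp_le_range _ _) (LinearMap.range_comp_le_range _ _))
    · rintro _ ⟨ω, rfl⟩
      exact ⟨fun e => ω e.1 - ω e.1.swap, funext fun e => by
        simp only [LinearMap.comp_apply, gam1, LinearMap.coe_mk, AddHom.coe_mk, extPairs_skew]⟩
    · rintro _ ⟨ω, rfl⟩
      exact ⟨fun e => ω e.1 - ω e.1.swap, funext fun e => by
        simp only [LinearMap.comp_apply, gam2, LinearMap.coe_mk, AddHom.coe_mk, extPairs_skew]⟩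
  have h2 : Function.Injective ((gam1 T ∘ₗ extPairs p).coprod (gam2 T ∘ₗ extPairs q)) := by
    rw [injective_iff_map_eq_zero]
    rintro ⟨a, b⟩ hab
    obtain ⟨h3, h4⟩ := h (extPairs p a) (extPairs q b) fun x y => by
      rw [show gam1 T (extPairs p a) + gam2 T (extPairs q b) = 0 from hab, ← ev4_coef]
      simp
    rw [extPairs_eq_zero a h3, extPairs_eq_zero b h4]
    rfl
  rw [h1, LinearMap.finrank_range_of_inj h2, finrank_prod, finrank_fintype_fun_eq_card,
    finrank_fintype_fun_eq_card, card_pairs, card_pairs]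

theorem Dis.inf_eq {T : Tensor p q r} (h : Dis T) : gam12 T ⊓ kerPhi T = ⊥ := by
  rw [eq_bot_iff]
  rintro W ⟨hW, hW'⟩
  obtain ⟨_, ⟨ω₁, rfl⟩, _, ⟨ω₂, rfl⟩, rfl⟩ := Submodule.mem_sup.1 hW
  exact h _ _ ((mem_kerPhi _ _).1 hW')

theorem finrank_spanZ {T : Tensor p q r} (h1 : Good T) (h2 : NoR T) (h3 : Dis' T) :
    finrank ℂ (spanZ T) + p.choose 2 + q.choose 2 + finrank ℂ (kerPhi T) = p * (q * r) := by
  have e1 := LinearMap.BilinForm.finrank_orthogonal pair_nondeg (spanZ T)
  have e3 := Submodule.finrank_le (spanZ T)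
  have e5 := Submodule.finrank_sup_add_finrank_inf_eq (gam12 T) (kerPhi T)
  rw [h3.dis.inf_eq, ← orth_spanZ' h1 h2, finrank_bot, h3.finrank_gam12] at e5
  have e6 : finrank ℂ (Tensor p q r) = p * (q * r) := by simp
  omega

theorem finrank_critSpace {T : Tensor p q r} (h1 : Ind T) (h3 : Dis' T) :
    finrank ℂ (critSpace T) + p.choose 2 + q.choose 2 + r.choose 2 = p * (q * r) := by
  have e2 := LinearMap.BilinForm.finrank_orthogonal pair_nondeg (critSpace T)
  have e4 := Submodule.finrank_le (critSpace T)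
  have d2 : gam12 T ⊓ LinearMap.range (gam3 T) = ⊥ :=
    eq_bot_iff.2 (h3.dis.inf_eq ▸ inf_le_inf_left _ (range_gam3_le T))
  have e6 := Submodule.finrank_sup_add_finrank_inf_eq (gam12 T) (LinearMap.range (gam3 T))
  rw [d2, ← orth_critSpace, finrank_bot, h1.finrank_gam3, h3.finrank_gam12, card_pairs] at e6
  have e7 : finrank ℂ (Tensor p q r) = p * (q * r) := by simp
  omega

theorem self_mem_critSpace (T : Tensor p q r) : T ∈ critSpace T :=
  ⟨fun _ _ _ => Finset.sum_eq_zero fun _ _ => Finset.sum_eq_zero fun _ _ => by ring,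
    fun _ _ _ => Finset.sum_eq_zero fun _ _ => Finset.sum_eq_zero fun _ _ => by ring,
    fun _ _ _ => Finset.sum_eq_zero fun _ _ => Finset.sum_eq_zero fun _ _ => by ring⟩

theorem Good.self_mem {T : Tensor p q r} (h : Good T) : T ∈ spanZ T := by
  rw [← LinearMap.BilinForm.orthogonal_orthogonal pair_nondeg pair_refl (spanZ T)]
  intro W hW
  obtain ⟨a, ha, b, hb, rfl⟩ := Submodule.mem_sup.1 (h.orth_le hW)
  have h1 : a ⬝ᵥ T = 0 := by
    have h2 := self_mem_critSpace T
    rw [critSpace_eq] at h2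
    exact h2 a (Submodule.mem_sup_left ha)
  have h2 : b ⬝ᵥ T = 0 := by
    rw [dotProduct, Fintype.sum_prod_type]
    refine Finset.sum_eq_zero fun i _ => ?_
    rw [Fintype.sum_prod_type]
    refine Finset.sum_eq_zero fun j _ => ?_
    have h3 := (ev4_zero_iff _).1
      (fun x y => (ev4_coef T b x y).trans ((mem_kerPhi _ _).1 hb x y)) i i j j
    simp only [coef, LinearMap.coe_mk, AddHom.coe_mk] at h3
    linear_combination h3 / 4
  change (a + b) ⬝ᵥ T = 0
  rw [add_dotProduct, h1, h2, add_zero]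

/-- The conclusions for formats beyond the boundary. -/
def Wide (T : Tensor p q r) : Prop :=
  T ∈ spanZ T ∧
  finrank ℂ (spanZ T) + p.choose 2 + q.choose 2 ≤ (p + 1).choose 2 * (q + 1).choose 2 ∧
  (p * q ≤ r + p / 2 * (q / 2) →
    finrank ℂ (spanZ T) + p.choose 2 + q.choose 2 = (p + 1).choose 2 * (q + 1).choose 2) ∧
  (r ≤ p / 2 * (q / 2) → finrank ℂ (spanZ T) = finrank ℂ (critSpace T)) ∧
  (r ≤ p * q → finrank ℂ (critSpace T) + p.choose 2 + q.choose 2 + r.choose 2 = p * q * r)

theorem Generic.imp {σ : Type} {c : Prop} {P : (σ → ℂ) → Prop} (h : c → Generic P) :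
    Generic (fun t => c → P t) := by
  by_cases hc : c
  · exact (h hc).mono fun _ h _ => h
  · exact ⟨1, one_ne_zero, fun _ _ h => absurd h hc⟩

theorem generic_wide_le (hp : 1 ≤ p) (hpq : p ≤ q) (h1 : p + q ≤ r) :
    Generic (fun T : Tensor p q r => Wide T) := by
  have g0 := generic_good (exists_good' hp q r (by omega) h1)
  have g1 := Generic.imp fun h : r ≤ p / 2 * (q / 2) =>
    generic_kos (exists_kos_wide (p := p) (q := q) _ _ (by omega) (by omega) h)
  have g2 := Generic.imp fun h : p * q ≤ r + p / 2 * (q / 2) =>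
    generic_srj (exists_srj_wide (p := p) (q := q) _ _ (by omega) (by omega) h)
  refine (((g0.and (generic_noR h1)).and ((Generic.imp (generic_ind (r := r))).and
    (generic_dis' (r := r) hp hpq (by omega)))).and (g1.and g2)).mono ?_
  rintro T ⟨⟨⟨a1, a2⟩, a3, a4⟩, a5, a6⟩
  have e1 := finrank_spanZ a1 a2 a4
  have e3 := finrank_kerPhi_ge T
  refine ⟨a1.self_mem, by omega, fun h => ?_, fun h => by rw [eq_of_good_kos a1 (a5 h)],
    fun h => by rw [mul_assoc]; exact finrank_critSpace (a3 h) a4⟩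
  have e4 := (a6 h).finrank_kerPhi
  omega

theorem Wide.of_swap {T : Tensor p q r} (h : Wide (swap T)) : Wide T := by
  obtain ⟨h1, h2, h3, h4, h5⟩ := h
  rw [spanZ_swap] at h1 h2 h3 h4
  rw [critSpace_swap] at h4 h5
  simp only [LinearEquiv.finrank_map_eq] at h2 h3 h4 h5
  rw [mul_comm ((q + 1).choose 2), add_right_comm] at h2 h3
  rw [mul_comm (q / 2)] at h3 h4
  rw [mul_comm q p] at h3 h5
  refine ⟨?_, h2, h3, h4, fun h => by have := h5 h; omega⟩
  obtain ⟨Z, hZ, h6⟩ := h1
  rwa [← (swapE p q r).injective (h6 : swapE p q r Z = swapE p q r T)] at hZ ⊢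

theorem generic_wide (hp : 1 ≤ p) (hq : 1 ≤ q) (h1 : p + q ≤ r) :
    Generic (fun T : Tensor p q r => Wide T) := by
  rcases le_total p q with h | h
  · exact generic_wide_le hp h h1
  · exact (generic_wide_le hq h (by omega)).swap.mono fun _ h => h.of_swap

end Pool.Agent.Lib.MP_ff9d8c_ag
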