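import Pool.Agent.Lib.MP_ff9d8c_ag.Step

set_option autoImplicit false

namespace Pool.Agent.Lib.MP_ff9d8c_ag

open Matrix

variable {p q r : ℕ}

/-- The bilinear form with coefficients `c`. -/
def bil {ι : Type} [Fintype ι] (c : ι → ι → ℂ) (u v : ι → ℂ) : ℂ := ∑ i, ∑ i', c i i' * u i * v i'

section bil

variable {ι : Type} [Fintype ι] [DecidableEq ι] (c : ι → ι → ℂ)

omit [DecidableEq ι] in
theorem bil_add_left (u u' v : ι → ℂ) : bil c (u + u') v = bil c u v + bil c u' v := by
  simp [bil, mul_add, add_mul, Finset.sum_add_distrib]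

omit [DecidableEq ι] in
theorem bil_add_right (u v v' : ι → ℂ) : bil c u (v + v') = bil c u v + bil c u v' := by
  simp [bil, mul_add, Finset.sum_add_distrib]

theorem bil_single (i i' : ι) (a b : ℂ) :
    bil c (Pi.single i a) (Pi.single i' b) = c i i' * a * b := by
  simp [bil, Pi.single_apply]

omit [DecidableEq ι] in
theorem bil_self_eq_zero (h : ∀ i i', c i i' + c i' i = 0) (x : ι → ℂ) : bil c x x = 0 := by
  have h1 : bil c x x = -bil c x x := by
    conv_lhs => rw [bil, Finset.sum_comm]
    simp only [bil, ← Finset.sum_neg_distrib]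
    exact Finset.sum_congr rfl fun i _ => Finset.sum_congr rfl fun i' _ => by
      linear_combination (x i * x i') * h i i'
  linear_combination h1 / 2

theorem quad_grid (o n : ι) (hn : n ≠ o) (a : ι → ℂ) (ha : ∀ l, a l ≠ 0) (h0 : c o o = 0)
    (h : ∀ x : ι → ℂ, x o = 1 → (∀ l, l ≠ o → x l = 0 ∨ x l ^ 2 = a l ^ 2) → x n ≠ 0 →
      bil c x x = 0) (x : ι → ℂ) : bil c x x = 0 := by
  have k1 : ∀ e : ℂ, e ^ 2 = 1 → bil c (Pi.single o 1 + Pi.single n (e * a n))
      (Pi.single o 1 + Pi.single n (e * a n)) = 0 := by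
    intro e he
    have he0 : e ≠ 0 := by rintro rfl; simp at he
    refine h _ (by simp [hn.symm]) (fun l hl => ?_) (by simp [hn, he0, ha])
    by_cases h1 : l = n
    · simp [h1, hn, mul_pow, he]
    · simp [h1, hl]
  have k2 : ∀ l, l ≠ o → l ≠ n → ∀ e e' : ℂ, e ^ 2 = 1 → e' ^ 2 = 1 →
      bil c (Pi.single o 1 + Pi.single n (e * a n) + Pi.single l (e' * a l))
      (Pi.single o 1 + Pi.single n (e * a n) + Pi.single l (e' * a l)) = 0 := by
    intro l hl hl' e e' he he'
    have he0 : e ≠ 0 := by rintro rfl; simp at he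
    refine h _ (by simp [hn.symm, hl.symm]) (fun t ht => ?_) (by simp [hn, he0, ha, hl'.symm])
    by_cases h1 : t = n
    · simp [h1, hn, mul_pow, he, hl'.symm]
    · by_cases h2 : t = l
      · simp [h2, hl, hl', mul_pow, he']
      · simp [h1, h2, ht]
  have k3 : ∀ l l', l ≠ o → l ≠ n → l' ≠ o → l' ≠ n → l ≠ l' →
      bil c (Pi.single o 1 + Pi.single n (a n) + Pi.single l (a l) + Pi.single l' (a l'))
      (Pi.single o 1 + Pi.single n (a n) + Pi.single l (a l) + Pi.single l' (a l')) = 0 := by
    intro l l' h1 h2 h3 h4 h5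
    refine h _ (by simp [hn.symm, h1.symm, h3.symm]) (fun t ht => ?_)
      (by simp [hn, ha, h2.symm, h4.symm])
    by_cases h6 : t = n
    · simp [h6, hn, h2.symm, h4.symm]
    · by_cases h7 : t = l
      · simp [h7, h1, h2, h5]
      · by_cases h8 : t = l'
        · simp [h8, h3, h4, h5.symm]
        · simp [h6, h7, h8, ht]
  simp only [bil_add_left, bil_add_right, bil_single] at k1 k2 k3
  have e1 : c o n + c n o = 0 := by
    apply mul_left_cancel₀ (ha n)
    linear_combination (k1 1 (by norm_num) - k1 (-1) (by norm_num)) / 2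
  have e2 : c n n = 0 := by
    apply mul_left_cancel₀ (pow_ne_zero 2 (ha n))
    linear_combination (k1 1 (by norm_num) + k1 (-1) (by norm_num)) / 2 - h0
  have e3 : ∀ l, l ≠ o → l ≠ n → c o l + c l o = 0 := fun l h1 h2 => by
    apply mul_left_cancel₀ (ha l)
    linear_combination (k2 l h1 h2 1 1 (by norm_num) (by norm_num) -
      k2 l h1 h2 (-1) (-1) (by norm_num) (by norm_num)) / 2 - a n * e1
  have e4 : ∀ l, l ≠ o → l ≠ n → c n l + c l n = 0 := fun l h1 h2 => by
    apply mul_left_cancel₀ (mul_ne_zero (ha n) (ha l))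
    linear_combination (k2 l h1 h2 1 1 (by norm_num) (by norm_num) -
      k2 l h1 h2 1 (-1) (by norm_num) (by norm_num)) / 2 - a l * e3 l h1 h2
  have e5 : ∀ l, l ≠ o → l ≠ n → c l l = 0 := fun l h1 h2 => by
    apply mul_left_cancel₀ (pow_ne_zero 2 (ha l))
    linear_combination (k2 l h1 h2 1 1 (by norm_num) (by norm_num) +
      k2 l h1 h2 1 (-1) (by norm_num) (by norm_num)) / 2 - k1 1 (by norm_num)
  have e6 : ∀ l l', l ≠ o → l ≠ n → l' ≠ o → l' ≠ n → c l l' + c l' l = 0 := by
    intro l l' h1 h2 h3 h4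
    by_cases h5 : l = l'
    · rw [← h5, e5 l h1 h2, add_zero]
    · apply mul_left_cancel₀ (mul_ne_zero (ha l) (ha l'))
      linear_combination k3 l l' h1 h2 h3 h4 h5 - k2 l h1 h2 1 1 (by norm_num) (by norm_num) -
        k2 l' h3 h4 1 1 (by norm_num) (by norm_num) + k1 1 (by norm_num)
  refine bil_self_eq_zero c (fun i i' => ?_) x
  by_cases h1 : i = o <;> by_cases h2 : i' = o <;> by_cases h3 : i = n <;> by_cases h4 : i' = n
  all_goals first
    | exact absurd (h3.symm.trans h1) hn
    | exact absurd (h4.symm.trans h2) hn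
    | (rw [h1, h2, h0, add_zero])
    | (rw [h1, h4, e1])
    | (rw [h1, e3 _ h2 h4])
    | (rw [h2, h3, add_comm, e1])
    | (rw [h2, add_comm, e3 _ h1 h3])
    | (rw [h3, h4, e2, add_zero])
    | (rw [h3, e4 _ h2 h4])
    | (rw [h4, add_comm, e4 _ h1 h3])
    | exact e6 _ _ h1 h3 h2 h4

end bil

/-- The tensor of the forms `s_j x_{m j} y_j`. -/
def diag (m : Fin q → Fin p) (ι : Fin q → Fin r) (s : Fin q → ℂ) : Tensor p q r := fun e =>
  if e.1 = m e.2.1 ∧ e.2.2 = ι e.2.1 then s e.2.1 else 0

section diag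

variable (m : Fin q → Fin p) (ι : Fin q → Fin r) (s : Fin q → ℂ)

theorem contr1_diag (y : Fin q → ℂ) (z : Fin r → ℂ) (i : Fin p) :
    contr1 (diag m ι s) y z i = ∑ j, if i = m j then s j * y j * z (ι j) else 0 := by
  refine Finset.sum_congr rfl fun j _ => ?_
  by_cases h : i = m j <;> simp [diag, h]

theorem contr2_diag (x : Fin p → ℂ) (z : Fin r → ℂ) (j : Fin q) :
    contr2 (diag m ι s) x z j = s j * x (m j) * z (ι j) := by
  simp [contr2, diag, ite_and]

theorem contr3_diag' (x : Fin p → ℂ) (y : Fin q → ℂ) (k : Fin r) :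
    contr3 (diag m ι s) x y k = ∑ j, if k = ι j then s j * x (m j) * y j else 0 := by
  rw [contr3, Finset.sum_comm]
  refine Finset.sum_congr rfl fun j _ => ?_
  by_cases h : k = ι j <;> simp [diag, h]

theorem contr3_diag (hι : Function.Injective ι) (x : Fin p → ℂ) (y : Fin q → ℂ) (j : Fin q) :
    contr3 (diag m ι s) x y (ι j) = s j * x (m j) * y j := by
  simp [contr3_diag', hι.eq_iff]

theorem new_diag (o : Fin p) (hm : ∀ j, m j ≠ o) (hm' : ∀ l, l ≠ o → ∃ j, m j = l) (j₀ : Fin q)
    (hι : Function.Injective ι) (hs0 : ∀ j, s j ≠ 0) (hs : ∀ j j', s j ^ 2 = s j' ^ 2 → j = j') :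
    New (diag m ι s) (Pi.single o 1) := by
  classical
  intro c hc
  have key : ∀ x : Fin p → ℂ, x o = 1 →
      (∀ l, l ≠ o → x l = 0 ∨ ∃ j, m j = l ∧ s j ^ 2 * x l ^ 2 = 1) →
      ∀ σ : Fin q → ℂ, (∀ j, σ j ^ 2 = 1) →
      bil (fun i i' => c (i, i', 0)) x x +
        ∑ j, (if s j ^ 2 * x (m j) ^ 2 = 1 then σ j / s j else 0) *
          bil (fun i i' => c (i, i', j.succ)) x x = 0 := by
    intro x hx hadm σ hσ
    set y : Fin q → ℂ := fun j => if s j ^ 2 * x (m j) ^ 2 = 1 then σ j / s j else 0 with hy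
    have hy1 : ∀ j, s j ^ 2 * x (m j) ^ 2 = 1 → s j ^ 2 * y j ^ 2 = 1 := fun j h => by
      simp only [hy, h, if_true]
      have := hs0 j
      field_simp
      exact hσ j
    have hy0 : ∀ j, s j ^ 2 * x (m j) ^ 2 ≠ 1 → y j = 0 := fun j h => by simp only [hy, h, if_false]
    have huniq : ∀ j j', s j ^ 2 * x (m j) ^ 2 = 1 → m j = m j' → j' ≠ j → y j' = 0 := by
      intro j j' h1 h2 h3
      refine hy0 j' fun h4 => h3 (hs _ _ ?_)
      rw [← h2] at h4
      linear_combination s j ^ 2 * h4 - s j' ^ 2 * h1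
    have h := hc x (Fin.cons 1 y) (Fin.cons 1 (contr3 (diag m ι s) x y))
      ((sol_ext_iff ..).2 ⟨?_, ⟨by simp [hx], ?_⟩, by simp [hx], rfl⟩)
      (nd_ext _ _ _ _ _ _ _ fun dx dy₀ dy dz₀ dz e1 e2 e3 e4 e5 => ?_)
    · rw [ev3_cons, one_mul, one_mul] at h
      exact h
    · funext i
      simp only [Pi.add_apply, Pi.smul_apply, contr1_diag, contr3_diag m ι s hι]
      by_cases hi : i = o
      · simp [hi, hx, fun j => (hm j).symm]
      · rcases hadm i hi with h1 | ⟨j, rfl, h1⟩
        · rw [Finset.sum_eq_zero fun j _ => ?_]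
          · simp [hi, h1]
          · split_ifs with h2
            · rw [← h2, h1]
              simp
            · rfl
        · rw [Finset.sum_eq_single j (fun j' _ h2 => ?_) (by simp)]
          · simp only [Pi.single_apply, hi, if_false, if_true, smul_eq_mul, mul_zero, zero_add]
            linear_combination x (m j) * hy1 j h1
          · split_ifs with h3
            · rw [huniq j j' h1 h3 h2]
              simp
            · rfl
    · funext j
      rw [contr2_diag, contr3_diag m ι s hι]
      by_cases h1 : s j ^ 2 * x (m j) ^ 2 = 1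
      · linear_combination y j * h1
      · rw [hy0 j h1]
        simp
    · simp only [single_dotProduct, hx, mul_one, one_mul] at e1 e2 e4
      have f1 : dx o = 0 := by linear_combination (e2 + e4) / 2
      have g1 : ∀ i, (dy₀ + dz₀) * (Pi.single o 1 : Fin p → ℂ) i +
          ∑ j, (if i = m j then s j * (dy j * (s j * x (m j) * y j) + y j * dz (ι j)) else 0) =
          dx i := fun i => by
        rw [← congrFun e1 i]
        simp only [Pi.add_apply, Pi.smul_apply, contr1_diag, contr3_diag m ι s hι, smul_eq_mul]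
        have : ∑ j, (if i = m j then s j * (dy j * (s j * x (m j) * y j) + y j * dz (ι j)) else 0) =
            ∑ j, (if i = m j then s j * dy j * (s j * x (m j) * y j) else 0) +
            ∑ j, (if i = m j then s j * y j * dz (ι j) else 0) := by
          rw [← Finset.sum_add_distrib]
          refine Finset.sum_congr rfl fun j _ => ?_
          split_ifs <;> ring
        rw [this]
        ring
      have g2 : ∀ j, s j * dx (m j) * (s j * x (m j) * y j) + s j * x (m j) * dz (ι j) = dy j :=
        fun j => by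
          rw [← congrFun e3 j]
          simp only [Pi.add_apply, contr2_diag, contr3_diag m ι s hι]
      have g3 : ∀ j, s j * dx (m j) * y j + s j * x (m j) * dy j = dz (ι j) := fun j => by
        rw [← congrFun e5 (ι j)]
        simp only [Pi.add_apply, contr3_diag m ι s hι]
      have f2 : dy₀ = 0 := by
        have := g1 o
        simp only [fun j => (hm j).symm, if_false, Finset.sum_const_zero, Pi.single_eq_same] at this
        linear_combination (this + e4) / 2
      have f3 : dz₀ = 0 := by linear_combination f1 + f2 - e4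
      have f4 : ∀ j, s j ^ 2 * x (m j) ^ 2 = 1 → dx (m j) = 0 := fun j h1 => by
        have h2 := hy1 j h1
        linear_combination (s j ^ 2 * x (m j) * y j * (g2 j + s j * x (m j) * g3 j) -
          s j ^ 2 * x (m j) * y j * dy j * h1) / 2 - dx (m j) * (s j ^ 2 * y j ^ 2 * h1 + h2)
      have f5 : dy = 0 := by
        funext j
        by_cases h1 : s j ^ 2 * x (m j) ^ 2 = 1
        · have h2 := hy1 j h1
          have h3 := g1 (m j)
          rw [Finset.sum_eq_single j (fun j' _ h4 => ?_) (by simp), if_pos rfl, f2, f3, ← g3 j,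
            f4 j h1] at h3
          · change dy j = 0
            linear_combination (s j ^ 2 * x (m j) * y j * h3) / 2 -
              dy j * (s j ^ 2 * y j ^ 2 * h1 + h2)
          · split_ifs with h5
            · rw [huniq j j' h1 h5 h4]
              simp
            · rfl
        · have h2 := g2 j
          rw [← g3 j, hy0 j h1] at h2
          apply mul_left_cancel₀ (sub_ne_zero.2 h1)
          change _ = _ * (0 : ℂ)
          linear_combination h2
      have f6 : dx = 0 := by
        funext i
        by_cases h1 : ∃ j, i = m j ∧ s j ^ 2 * x (m j) ^ 2 = 1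
        · obtain ⟨j, rfl, h1⟩ := h1
          exact f4 j h1
        · rw [← g1 i, f2, f3, Finset.sum_eq_zero fun j _ => ?_]
          · simp
          · split_ifs with h2
            · rw [hy0 j fun h3 => h1 ⟨j, h2, h3⟩]
              simp
            · rfl
      refine ⟨f6, f2, f5, f3, ?_⟩
      rw [← e5, f5, f6]
      funext k
      simp [contr3]
  have hF : ∀ x : Fin p → ℂ, x o = 1 →
      (∀ l, l ≠ o → x l = 0 ∨ ∃ j, m j = l ∧ s j ^ 2 * x l ^ 2 = 1) →
      bil (fun i i' => c (i, i', 0)) x x = 0 := by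
    intro x hx hadm
    have h1 := key x hx hadm (fun _ => 1) (by simp)
    have h2 := key x hx hadm (fun _ => -1) (by simp)
    have h3 : ∑ j, (if s j ^ 2 * x (m j) ^ 2 = 1 then -1 / s j else 0) *
          bil (fun i i' => c (i, i', j.succ)) x x =
        -∑ j, (if s j ^ 2 * x (m j) ^ 2 = 1 then 1 / s j else 0) *
          bil (fun i i' => c (i, i', j.succ)) x x := by
      rw [← Finset.sum_neg_distrib]
      refine Finset.sum_congr rfl fun j _ => ?_
      split_ifs <;> ring
    linear_combination (h1 + h2 - h3) / 2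
  have hG : ∀ x : Fin p → ℂ, x o = 1 →
      (∀ l, l ≠ o → x l = 0 ∨ ∃ j, m j = l ∧ s j ^ 2 * x l ^ 2 = 1) →
      ∀ j, s j ^ 2 * x (m j) ^ 2 = 1 → bil (fun i i' => c (i, i', j.succ)) x x = 0 := by
    intro x hx hadm j hj
    have h1 := key x hx hadm (fun _ => 1) (by simp)
    have h2 := key x hx hadm (fun j' => if j' = j then -1 else 1) (fun j' => by
      split_ifs <;> simp)
    have h3 := congrArg₂ (· - ·) h1 h2
    simp only [add_sub_add_left_eq_sub, ← Finset.sum_sub_distrib, sub_zero] at h3
    rw [Finset.sum_eq_single j (fun j' _ h4 => by simp [h4]) (by simp)] at h3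
    simp only [hj, if_true] at h3
    have := hs0 j
    field_simp at h3
    linear_combination h3 / 2
  choose g hg using hm'
  let a : Fin p → ℂ := fun l => if h : l = o then 1 else 1 / s (g l h)
  have ha : ∀ l, a l ≠ 0 := fun l => by
    by_cases h : l = o <;> simp [a, h, hs0]
  have hadm : ∀ (x : Fin p → ℂ) (l : Fin p), l ≠ o → x l ^ 2 = a l ^ 2 →
      ∃ j, m j = l ∧ s j ^ 2 * x l ^ 2 = 1 := fun x l hl h => by
    refine ⟨g l hl, hg l hl, ?_⟩
    have := hs0 (g l hl)
    simp only [h, a, hl, dite_false]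
    field_simp
  have hF' : ∀ x, bil (fun i i' => c (i, i', 0)) x x = 0 := by
    refine quad_grid _ o (m j₀) (hm j₀) a ha ?_ fun x hx h _ =>
      hF x hx fun l hl => (h l hl).imp_right (hadm x l hl)
    have := hF (Pi.single o 1) (by simp) fun l hl => Or.inl (by simp [hl])
    simpa [bil_single] using this
  have hG' : ∀ (j : Fin q) x, bil (fun i i' => c (i, i', j.succ)) x x =
      -c (o, o, j.succ) * (s j ^ 2 * x (m j) ^ 2 - x o ^ 2) := by
    intro j
    let c' : Fin p → Fin p → ℂ := fun i i' => c (i, i', j.succ) + c (o, o, j.succ) *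
      ((if i = m j then if i' = m j then s j ^ 2 else 0 else 0) -
        if i = o then if i' = o then 1 else 0 else 0)
    have h1 : ∀ x, bil c' x x = bil (fun i i' => c (i, i', j.succ)) x x +
        c (o, o, j.succ) * (s j ^ 2 * x (m j) ^ 2 - x o ^ 2) := fun x => by
      simp only [bil, c', add_mul, mul_sub, sub_mul, Finset.sum_add_distrib,
        Finset.sum_sub_distrib]
      simp
      ring
    have h2 := quad_grid c' o (m j) (hm j) (Function.update a (m j) (1 / s j)) (fun l => by
      by_cases h : l = m j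
      · simp [h, hs0]
      · simp [h, ha]) (by simp [c', (hm j).symm]) fun x hx h hx' => by
        have h3 : s j ^ 2 * x (m j) ^ 2 = 1 := by
          have h4 := (h (m j) (hm j)).resolve_left hx'
          have := hs0 j
          rw [h4, Function.update_self]
          field_simp
        rw [h1, hG x hx (fun l hl => ?_) j h3, h3, hx]
        · ring
        · by_cases h4 : l = m j
          · exact Or.inr ⟨j, h4.symm, h4 ▸ h3⟩
          · refine (h l hl).imp_right fun h5 => hadm x l hl ?_
            rwa [Function.update_of_ne h4] at h5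
    intro x
    linear_combination h2 x - h1 x
  refine ⟨fun j => -c (o, o, j.succ), fun x y => ?_⟩
  rw [← Fin.cons_self_tail y, ev3_alpha3, ev3_cons]
  simp only [bil] at hF' hG'
  simp only [hF', hG', dotProduct, contr2_diag, contr3_diag m ι s hι]
  simp only [Pi.single_apply, ite_mul, one_mul, zero_mul, Finset.sum_ite_eq', Finset.mem_univ,
    if_true, mul_zero, zero_add, Finset.mul_sum, ← Finset.sum_sub_distrib]
  exact Finset.sum_congr rfl fun j _ => by ring

end diag

theorem new_one : New (0 : Tensor 1 q r) (fun _ => 1) := by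
  intro c hc
  have h := hc (fun _ => 1) (Fin.cons 1 0) (Fin.cons 1 0)
    ((sol_ext_iff ..).2 ⟨by funext i; simp [contr1], ⟨by simp [dotProduct], by funext i; simp [contr2]⟩,
      by simp [dotProduct], by funext i; simp [contr3]⟩)
    (nd_ext _ _ _ _ _ _ _ fun dx dy₀ dy dz₀ dz e1 e2 e3 e4 e5 => by
      have g1 := congrFun e1 0
      simp [contr1, dotProduct] at g1 e2 e4
      have f1 : dx 0 = 0 := by linear_combination (e2 + e4) / 2
      refine ⟨funext fun i => by rw [Subsingleton.elim i 0, f1]; rfl,
        by linear_combination (g1 + e4) / 2, ?_, by linear_combination (g1 + e2) / 2, ?_⟩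
      · rw [← e3]
        funext j
        simp [contr2]
      · rw [← e5]
        funext j
        simp [contr3])
  rw [ev3_cons] at h
  refine ⟨fun j => -c (0, 0, j.succ), fun x y => ?_⟩
  rw [← Fin.cons_self_tail y, ev3_alpha3, ev3_cons]
  have h1 : c (0, 0, 0) = 0 := by simpa using h
  simp [h1, contr2, dotProduct, Finset.mul_sum]
  exact Finset.sum_congr rfl fun j _ => by ring

theorem exists_new (hp : 1 ≤ p) (hq : p ≤ q + 1) (hr : q ≤ r) :
    ∃ (T : Tensor p q r) (ξ : Fin p → ℂ), New T ξ := by
  obtain ⟨p, rfl⟩ : ∃ n, p = n + 1 := ⟨p - 1, by omega⟩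
  rcases Nat.eq_zero_or_pos p with rfl | hp'
  · exact ⟨_, _, new_one⟩
  · refine ⟨_, _, new_diag (fun j : Fin q => if h : (j : ℕ) < p then Fin.succ ⟨j, h⟩ else
      Fin.succ ⟨0, hp'⟩) (Fin.castLE hr) (fun j => (j : ℕ) + 1) 0 (fun j => ?_) (fun l hl => ?_)
      ⟨0, by omega⟩ (Fin.castLE_injective hr) (fun j => Nat.cast_add_one_ne_zero _)
      (fun j j' h => ?_)⟩
    · split_ifs <;> exact Fin.succ_ne_zero _
    · obtain ⟨l, rfl⟩ := Fin.exists_succ_eq.2 hl
      exact ⟨⟨l, by omega⟩, by simp⟩
    · have h1 : (j + 1 : ℕ) ^ 2 = (j' + 1 : ℕ) ^ 2 := by exact_mod_cast h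
      have := Nat.pow_left_injective (by norm_num) h1
      exact Fin.ext (by omega)

theorem exists_good (hp : 1 ≤ p) : ∀ q r, p ≤ q + 1 → r = p + q → ∃ T : Tensor p q r, Good T := by
  induction p, hp using Nat.le_induction with
  | base =>
    intro q
    induction q with
    | zero =>
      intro r _ _
      refine ⟨0, fun c _ => ⟨0, 0, fun x y => ?_⟩⟩
      simp [ev4, skew]
    | succ q ih =>
      rintro r _ rfl
      exact good_step (r := 1 + q) (ih _ (by omega) rfl) (exists_new le_rfl (by omega) (by omega))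
  | succ p hp ih =>
    intro q r hq
    have hq' : p ≤ q := by omega
    clear hq
    induction q, hq' using Nat.le_induction generalizing r with
    | base =>
      intro hr
      obtain ⟨T, hT⟩ := ih (p + 1) r (by omega) (by omega)
      exact ⟨_, hT.swap⟩
    | succ q hq ih' =>
      rintro rfl
      exact good_step (r := p + 1 + q) (ih' _ rfl) (exists_new (by omega) (by omega) (by omega))

end Pool.Agent.Lib.MP_ff9d8c_ag
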